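import Pool.Agent.Lib.MP_e426f4_ag.NK.Points
import Pool.Agent.Lib.MP_e426f4_ag.NK.Heights

/-!
Module NKW-RegNear: the points of the region `Reg` are near its centre (as in NK/Points.lean).
-/

namespace NKWHP

open NumberField GenHP NFHP NKHP Finset Filter Topology
open CIHP (Sys NS Jac nu Bf)

variable {K : Type} [Field K] [NumberField K] {n r : ℕ}

/-- points of the region are near its centre at all infinite places -/
theorem reg_near (hrn : r ≤ n + 1) (xi : Fin (n + 1) → IK K → ℝ)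
    (h : Fin r → Fin (n + 1) → ℤ) (kap k0 : ℝ) (hkap0 : 0 < kap) (hkap' : kap ≤ NKHP.kmax K n r k0)
    (hk0 : k0 ≤ 1) (hh : ∀ l i, |h l i| ≤ hb n (mK K))
    (B : ℕ) (x : Fin (n + 1) → 𝓞 K) (hx : x ∈ Reg xi h kap B) (i : Fin (n + 1))
    (w' : InfinitePlace K) : ‖sg w' (x i) - B * lam (xi i) w'‖ ≤ k0 * B := by
  have hB : (0 : ℝ) ≤ B := by positivity
  have hc := cK_pos (K := K)
  obtain ⟨M, hM⟩ : ∃ M : ℝ, M = (r : ℝ) * (hb n (mK K) : ℝ) := ⟨_, rfl⟩
  have hM0 : 0 ≤ M := by rw [hM]; positivity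
  have hkap : kap * (10 * cK K * (M + 1) ^ 2 * ((n : ℝ) + 1)) ≤ k0 := by
    have h1 := hkap'
    unfold NKHP.kmax at h1
    rw [← hM, le_div_iff₀ (by positivity)] at h1
    exact h1
  have hkap1 : kap ≤ 1 := by
    have h1 := one_le_cK (K := K)
    have h2 : 1 ≤ 10 * cK K * (M + 1) ^ 2 * ((n : ℝ) + 1) := by
      have h3 : 1 ≤ (M + 1) ^ 2 := by nlinarith
      have h4 : (1 : ℝ) ≤ (n : ℝ) + 1 := by
        have : (0 : ℝ) ≤ n := by positivity
        linarith
      have h5 : 1 ≤ 10 * cK K := by linarith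
      exact one_le_mul_of_one_le_of_one_le (one_le_mul_of_one_le_of_one_le h5 h3) h4
    nlinarith
  have h2 : ∀ j, |(crd (x i) j : ℝ) - B * xi i j| ≤ (M + 1) * kap * B := by
    intro j
    by_cases hi : (i : ℕ) < r
    · have h0 := hx.1 ⟨i, hi⟩ j
      rw [fr_of_lt hrn i hi] at h0
      have h3 : 0 ≤ M * kap * B := by positivity
      nlinarith
    · have h3 := hx.2 i (not_lt.mp hi) j
      have h4 : |(crd (x i) j : ℝ) - B * xi i j| ≤
          |((crd (x i) j : ℝ) - B * xi i j) -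
            ∑ l, (h l i : ℝ) * ((crd (x (fr n l)) j : ℝ) - B * xi (fr n l) j)| +
          |∑ l, (h l i : ℝ) * ((crd (x (fr n l)) j : ℝ) - B * xi (fr n l) j)| := by
        have := abs_add_le (((crd (x i) j : ℝ) - B * xi i j) -
          ∑ l, (h l i : ℝ) * ((crd (x (fr n l)) j : ℝ) - B * xi (fr n l) j))
          (∑ l, (h l i : ℝ) * ((crd (x (fr n l)) j : ℝ) - B * xi (fr n l) j))
        rwa [sub_add_cancel] at this
      have h5 : |∑ l, (h l i : ℝ) * ((crd (x (fr n l)) j : ℝ) - B * xi (fr n l) j)| ≤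
          M * (kap * B) := by
        refine (Finset.abs_sum_le_sum_abs _ _).trans ?_
        have h6 : ∀ l ∈ (univ : Finset (Fin r)),
            |(h l i : ℝ) * ((crd (x (fr n l)) j : ℝ) - B * xi (fr n l) j)| ≤
              (hb n (mK K) : ℝ) * (kap * B) := by
          intro l _
          rw [abs_mul]
          refine mul_le_mul ?_ (hx.1 l j) (abs_nonneg _) (by positivity)
          have := hh l i
          rw [← Int.cast_abs]
          exact_mod_cast this
        refine (Finset.sum_le_card_nsmul _ _ _ h6).trans (le_of_eq ?_)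
        rw [Finset.card_univ, Fintype.card_fin, nsmul_eq_mul, hM]
        ring
      have h7 : kap ^ 2 * B ≤ kap * B := by
        refine mul_le_mul_of_nonneg_right ?_ hB
        nlinarith
      nlinarith
  have h3 : ‖sg w' (x i) - B * lam (xi i) w'‖ ≤ cK K * ((M + 1) * kap * B) := by
    have h4 := norm_lam_le (fun j => (crd (x i) j : ℝ) - B * xi i j) _ h2 w'
    rw [lam_sub (fun j => (crd (x i) j : ℝ)) (fun j => (B : ℝ) * xi i j) w', lam_crd,
      lam_smul] at h4
    simpa using h4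
  have h5 : ‖sg w' (x i) - B * lam (xi i) w'‖ * (10 * (M + 1) * ((n : ℝ) + 1)) ≤ k0 * B := by
    calc ‖sg w' (x i) - B * lam (xi i) w'‖ * (10 * (M + 1) * ((n : ℝ) + 1))
        ≤ cK K * ((M + 1) * kap * B) * (10 * (M + 1) * ((n : ℝ) + 1)) :=
          mul_le_mul_of_nonneg_right h3 (by positivity)
      _ = kap * (10 * cK K * (M + 1) ^ 2 * ((n : ℝ) + 1)) * B := by ring
      _ ≤ k0 * B := mul_le_mul_of_nonneg_right hkap hB
  refine le_trans ?_ h5
  have h6 : (1 : ℝ) ≤ 10 * (M + 1) * ((n : ℝ) + 1) := by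
    have h7 : (0 : ℝ) ≤ n := by positivity
    nlinarith
  exact le_mul_of_one_le_right (norm_nonneg _) h6

end NKWHP
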