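import Pool.Agent.Lib.MP_e426f4_ag.CK.Family

/-!
Module NKW-CFamily: the family of vectors over `𝓞 K` (CK/Family.lean), with the points of the other
blocks near the given point at the infinite places and congruent to it modulo `Q`.
-/

set_option linter.unusedSectionVars false

namespace NKCHP

open NumberField GenHP NFHP NKHP Finset Filter Topology

section multi
variable {K : Type} [Field K] [NumberField K] {ι : Type} [Fintype ι] [DecidableEq ι] {n d : ι → ℕ}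

open ConicHP (repl repl_self repl_ne vy_map vy_scale sum_prod_vy)

/-- the vectors of the block `i1` are near `y` after scaling -/
theorem yvK_near {m : ℕ} (Q : ℕ) (hQ : 0 < Q) (y u : Fin (m + 1) → 𝓞 K) (w : InfinitePlace K)
    (δ : ℝ) (hδ : 0 < δ) : ∃ J0 : ℕ, ∀ J, J0 ≤ J → ∀ i, i < J → ∀ a,
      ‖sg w (yvK Q y u J i a) / ((Q * J ^ 2 : ℕ) : ℂ) - sg w (y a)‖ ≤ δ := by
  obtain ⟨Y, hY⟩ : ∃ Y : ℝ, ∀ a, ‖sg w (y a)‖ + ‖sg w (u a)‖ ≤ Y := by
    refine ⟨∑ a, (‖sg w (y a)‖ + ‖sg w (u a)‖), fun a => ?_⟩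
    exact Finset.single_le_sum (f := fun a => ‖sg w (y a)‖ + ‖sg w (u a)‖)
      (fun _ _ => by positivity) (Finset.mem_univ a)
  obtain ⟨J0, hJ0⟩ := exists_nat_gt (Y / δ)
  refine ⟨J0 + 1, fun J hJ i hi a => ?_⟩
  have hJ1 : (1 : ℝ) ≤ J := by exact_mod_cast (by omega : 1 ≤ J)
  have hJpos : (0 : ℝ) < J := by linarith
  have hQ' : (0 : ℝ) < Q := by exact_mod_cast hQ
  have hQ1 : (1 : ℝ) ≤ Q := by exact_mod_cast hQ
  obtain ⟨R, hR⟩ : ∃ R : ℝ, R = Q * (J : ℝ) ^ 2 := ⟨_, rfl⟩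
  have hRpos : 0 < R := by rw [hR]; positivity
  have hRC : (R : ℂ) ≠ 0 := by exact_mod_cast hRpos.ne'
  have hRc : ((Q * J ^ 2 : ℕ) : ℂ) = (R : ℂ) := by rw [hR]; push_cast; rfl
  have e1 : sg w (yvK Q y u J i a) / ((Q * J ^ 2 : ℕ) : ℂ) - sg w (y a) =
      ((1 + Q * i) * sg w (y a) + Q * sg w (u a)) / (R : ℂ) := by
    rw [hRc]
    have e0 : sg w (yvK Q y u J i a) = (1 + (Q : ℂ) * ((J : ℂ) ^ 2 + i)) * sg w (y a) +
        Q * sg w (u a) := by
      unfold yvK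
      simp only [map_add, map_mul, map_pow, map_natCast, map_one]
    rw [e0]
    have e2 : (R : ℂ) = Q * (J : ℂ) ^ 2 := by rw [hR]; push_cast; rfl
    rw [eq_div_iff hRC, sub_mul, div_mul_cancel₀ _ hRC, e2]
    ring
  have hiJ : (i : ℝ) + 1 ≤ J := by exact_mod_cast hi
  have e2 : (1 + (Q : ℝ) * i) ≤ Q * J := by nlinarith
  have e3 : ‖(1 + (Q : ℂ) * i) * sg w (y a) + Q * sg w (u a)‖ ≤ Q * J * Y := by
    have h5 : 0 ≤ 1 + (Q : ℝ) * i := by positivity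
    have h6 : ‖(1 + (Q : ℂ) * i)‖ = 1 + (Q : ℝ) * i := by
      have : (1 + (Q : ℂ) * i) = ((1 + (Q : ℝ) * i : ℝ) : ℂ) := by push_cast; ring
      rw [this, Complex.norm_real, Real.norm_eq_abs, abs_of_nonneg h5]
    calc ‖(1 + (Q : ℂ) * i) * sg w (y a) + Q * sg w (u a)‖ ≤
        ‖(1 + (Q : ℂ) * i) * sg w (y a)‖ + ‖(Q : ℂ) * sg w (u a)‖ := norm_add_le _ _
      _ = (1 + (Q : ℝ) * i) * ‖sg w (y a)‖ + Q * ‖sg w (u a)‖ := by
          rw [norm_mul, norm_mul, h6, Complex.norm_natCast]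
      _ ≤ Q * J * ‖sg w (y a)‖ + Q * J * ‖sg w (u a)‖ := by
          refine add_le_add (mul_le_mul_of_nonneg_right e2 (norm_nonneg _))
            (mul_le_mul_of_nonneg_right ?_ (norm_nonneg _))
          nlinarith
      _ = Q * J * (‖sg w (y a)‖ + ‖sg w (u a)‖) := by ring
      _ ≤ Q * J * Y := mul_le_mul_of_nonneg_left (hY a) (by positivity)
  rw [e1, norm_div, Complex.norm_real, Real.norm_eq_abs, abs_of_pos hRpos, div_le_iff₀ hRpos]
  refine e3.trans ?_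
  have e4 : Y ≤ δ * J := by
    rw [div_lt_iff₀ hδ] at hJ0
    have h6 : (J0 : ℝ) ≤ J := by exact_mod_cast (by omega : J0 ≤ J)
    nlinarith
  calc (Q : ℝ) * J * Y ≤ Q * J * (δ * J) := mul_le_mul_of_nonneg_left e4 (by positivity)
    _ = δ * R := by rw [hR]; ring

theorem exists_familyW (hd : ∀ i, 1 ≤ d i) (hn : ∀ i, 1 ≤ n i) (i0 i1 : ι) (h01 : i1 ≠ i0)
    (z : MVar n → 𝓞 K) (hz : ∀ j, NFHP.Prim fun a => z ⟨j, a⟩) (Q W : ℕ) (hQ : 0 < Q)
    (hQW : ∀ q : ℕ, q.Prime → q ∣ Q → q ∣ W) (V0 : ℕ) (hV0 : 0 < V0)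
    (hV : ∀ (s : SIdx n d i0) w, ‖sg w (vy i0 z s)‖ ≤ V0) (s0 : SIdx n d i0) (k1 : ℝ)
    (hk1 : 0 < k1) (hs0 : ∀ w, k1 * V0 ≤ ‖sg w (vy i0 z s0)‖) :
    ∃ (v : ℕ → ℕ → SIdx n d i0 → 𝓞 K) (V : ℕ → ℕ) (D0 : ℕ) (zf : ℕ → ℕ → MVar n → 𝓞 K),
      FamValid Q W (fun s j => (crd (vy i0 z s) j : ℝ) / V0) v V D0 s0 k1 ∧
      (∀ s, (Q : 𝓞 K) ∣ v 0 0 s - vy i0 z s) ∧
      (∀ J i, (∀ j, NFHP.Prim fun a => zf J i ⟨j, a⟩) ∧ (∀ u, (Q : 𝓞 K) ∣ zf J i u - z u) ∧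
        v J i = vy i0 (zf J i)) ∧
      ∀ δ : ℝ, 0 < δ → ∃ J0 : ℕ, ∀ J, J0 ≤ J → ∀ i, i < J → ∃ M : ι → ℕ, (∀ j, 0 < M j) ∧
        ∀ (w : InfinitePlace K) (u : MVar n), ‖sg w (zf J i u) / M u.1 - sg w (z u)‖ ≤ δ := by
  have hV0' : (0 : ℝ) < V0 := by exact_mod_cast hV0
  set y : Fin (n i1 + 1) → 𝓞 K := fun a => z ⟨i1, a⟩ with hy
  obtain ⟨u, c, c', h1, h2, h3, h4⟩ := exists_complementK (hn i1) y (hz i1)
  have hprim : ∀ J i j, NFHP.Prim fun a => repl i1 z (yvK Q y u J i) ⟨j, a⟩ := fun J i =>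
    repl_primK i1 z hz _ (yvK_prim Q y u c c' h1 h2 h3 h4 J i)
  have hzy : repl i1 z y = z := by
    funext v
    obtain ⟨j, a⟩ := v
    by_cases hj : j = i1
    · subst hj
      rw [repl_self]
    · rw [repl_ne _ _ _ _ hj]
  have hmodz : ∀ (J i : ℕ) (v : MVar n), (Q : 𝓞 K) ∣ repl i1 z (yvK Q y u J i) v - z v := by
    intro J i v
    have := repl_congr_modK i1 (Q : 𝓞 K) z _ _ (yvK_congr_mod Q y u J i) v
    rwa [hzy] at this
  have hmod : ∀ (J i : ℕ) (s : SIdx n d i0),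
      (Q : 𝓞 K) ∣ vy i0 (repl i1 z (yvK Q y u J i)) s - vy i0 z s := fun J i s =>
    vy_congr_modK (d := d) i0 (Q : 𝓞 K) _ _ (hmodz J i) s
  refine ⟨fun J i => vy i0 (repl i1 z (yvK Q y u J i)), fun J => V0 * (Q * J ^ 2) ^ d i1,
    Q ^ 2, fun J i => repl i1 z (yvK Q y u J i), ?_, fun s => hmod 0 0 s,
    fun J i => ⟨hprim J i, hmodz J i, rfl⟩, ?_⟩
  · refine ⟨?_, hk1, ?_, ?_, ?_, ?_, ?_, ?_, ?_, ?_, ?_⟩
    · intro s w
      rw [lam_crd_div, norm_div, Complex.norm_natCast, div_le_one hV0']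
      exact hV s w
    · intro w
      rw [lam_crd_div, norm_div, Complex.norm_natCast, le_div_iff₀ hV0']
      exact hs0 w
    · intro J hJ
      have : 0 < V0 * (Q * J ^ 2) ^ d i1 := by positivity
      exact this
    · refine ⟨V0 * Q ^ d i1 + 2 * d i1, fun J hJ => ?_⟩
      have e1 : V0 * (Q * J ^ 2) ^ d i1 = V0 * Q ^ d i1 * J ^ (2 * d i1) := by
        rw [mul_pow, ← pow_mul]
        ring
      show V0 * (Q * J ^ 2) ^ d i1 ≤ _
      rw [e1]
      exact Nat.mul_le_mul (Nat.le_add_right _ _) (Nat.pow_le_pow_right hJ (Nat.le_add_left _ _))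
    · intro δ hδ
      choose J0 hJ0 using fun w : InfinitePlace K =>
        family_nearK (d := d) w i0 i1 h01 z Q hQ u V0 hV0 δ hδ
      refine ⟨Finset.univ.sup J0, fun J hJ i hi s w => ?_⟩
      have h5 := hJ0 w J ((Finset.le_sup (Finset.mem_univ w)).trans hJ) i hi s
      rw [lam_crd_div]
      exact h5
    · intro J i
      exact vy_primK i0 _ fun j _ => hprim J i j
    · intro J i s
      have e1 := hmod J i s
      have e2 := hmod 0 0 s
      have e3 := dvd_sub e1 e2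
      rwa [sub_sub_sub_cancel_right] at e3
    · positivity
    · intro q hq hqd
      exact hQW q hq (hq.dvd_of_dvd_pow hqd)
    · intro J i i' _
      obtain ⟨a, ha, ha'⟩ := family_sepK hd i0 i1 h01 z hz Q y u c c' h1 h2 h3 h4 J i i'
      refine ⟨a, ha, ?_⟩
      rw [ha']
      push_cast
      ring
  · intro δ hδ
    choose J0 hJ0 using fun w : InfinitePlace K => yvK_near Q hQ y u w δ hδ
    refine ⟨Finset.univ.sup J0 + 1, fun J hJ i hi => ?_⟩
    have hJ1 : 0 < J := by omega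
    refine ⟨fun j => if j = i1 then Q * J ^ 2 else 1, fun j => ?_, ?_⟩
    · show 0 < if j = i1 then Q * J ^ 2 else 1
      split_ifs
      · positivity
      · exact one_pos
    · rintro w ⟨j, a⟩
      by_cases hj : j = i1
      · subst hj
        simp only [if_true]
        rw [repl_self]
        exact hJ0 w J (by
          have := Finset.le_sup (f := J0) (Finset.mem_univ w)
          omega) i hi a
      · simp only [if_neg hj]
        rw [repl_ne _ _ _ _ hj, Nat.cast_one, div_one, sub_self, norm_zero]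
        exact hδ.le

end multi

end NKCHP
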