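import Pool.Agent.Lib.MP_e426f4_ag.NKW.ClsOfBlock
import Pool.Agent.Lib.MP_e426f4_ag.NKW.CClassGen
import Pool.Agent.Lib.MP_e426f4_ag.NKW.CFamily
import Pool.Agent.Lib.MP_e426f4_ag.NKP.Approx
import Pool.Agent.Lib.MP_e426f4_ag.NKP.AlgC
import Pool.Agent.Lib.MP_e426f4_ag.NK.AlgDep
import Pool.Agent.Lib.MP_e426f4_ag.M.Eval

/-!
NKW-CClsOfConic: the class theorem with weak approximation with respect to a block of conics.
TEMPLATE: CK/ClsOfConic.lean.
-/

set_option linter.unusedSectionVars false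

namespace NKWHP

open NumberField GenHP NFHP NKHP NKPHP NKCHP Finset Filter Topology
open CIPHP (PSys NP PJac blk pev)
open ConicHP (JJ)

section basic
variable {K : Type} [Field K] [NumberField K]

private theorem cc_mon_le {m e : ℕ} (x : Fin (m + 1) → ℂ) (R : ℝ)
    (hx : ∀ a, ‖x a‖ ≤ R) (t : Idx m e) : ‖mon x t.1‖ ≤ R ^ e := by
  unfold mon
  rw [norm_prod]
  calc ∏ a, ‖x a ^ t.1 a‖ ≤ ∏ a, R ^ t.1 a := by
        refine Finset.prod_le_prod (fun a _ => norm_nonneg _) fun a _ => ?_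
        rw [norm_pow]
        exact pow_le_pow_left₀ (norm_nonneg _) (hx a) _
    _ = R ^ e := by rw [Finset.prod_pow_eq_pow_sum, t.2]

private theorem cc_mon_ge {m e : ℕ} (x : Fin (m + 1) → ℂ) (c : ℝ) (hc : 0 ≤ c)
    (hx : ∀ a, c ≤ ‖x a‖) (t : Idx m e) : c ^ e ≤ ‖mon x t.1‖ := by
  unfold mon
  rw [norm_prod]
  calc c ^ e = ∏ a, c ^ t.1 a := by rw [Finset.prod_pow_eq_pow_sum, t.2]
    _ ≤ ∏ a, ‖x a ^ t.1 a‖ := by
        refine Finset.prod_le_prod (fun a _ => pow_nonneg hc _) fun a _ => ?_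
        rw [norm_pow]
        exact pow_le_pow_left₀ hc (hx a) _

/-- real coordinates of a product -/
private theorem cc_lam_mulR (a b : IK K → ℝ) (w : InfinitePlace K) :
    lam (mulR a b) w = lam a w * lam b w := by
  have h1 : ∀ k l : IK K, sg w (RingOfIntegers.basis K k) * sg w (RingOfIntegers.basis K l) =
      ∑ j, ((crd (RingOfIntegers.basis K k * RingOfIntegers.basis K l) j : ℝ) : ℂ) *
        sg w (RingOfIntegers.basis K j) := by
    intro k l
    rw [← map_mul, ← lam_crd]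
    rfl
  unfold lam mulR
  rw [Finset.sum_mul_sum]
  have h2 : ∀ k l : IK K, (a k : ℂ) * sg w (RingOfIntegers.basis K k) *
      ((b l : ℂ) * sg w (RingOfIntegers.basis K l)) =
      ∑ j, ((a k * b l * (crd (RingOfIntegers.basis K k * RingOfIntegers.basis K l) j : ℝ) : ℝ) : ℂ) *
        sg w (RingOfIntegers.basis K j) := by
    intro k l
    have e1 : (a k : ℂ) * sg w (RingOfIntegers.basis K k) *
        ((b l : ℂ) * sg w (RingOfIntegers.basis K l)) = (a k : ℂ) * (b l : ℂ) *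
        (sg w (RingOfIntegers.basis K k) * sg w (RingOfIntegers.basis K l)) := by ring
    rw [e1, h1, Finset.mul_sum]
    refine Finset.sum_congr rfl fun j _ => ?_
    push_cast
    ring
  rw [Finset.sum_congr rfl fun k _ => Finset.sum_congr rfl fun l _ => h2 k l]
  have h3 : ∀ j : IK K, ((∑ k, ∑ l, a k * b l *
      (crd (RingOfIntegers.basis K k * RingOfIntegers.basis K l) j : ℝ) : ℝ) : ℂ) *
        sg w (RingOfIntegers.basis K j) = ∑ k, ∑ l,
      ((a k * b l * (crd (RingOfIntegers.basis K k * RingOfIntegers.basis K l) j : ℝ) : ℝ) : ℂ) *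
        sg w (RingOfIntegers.basis K j) := by
    intro j
    rw [Complex.ofReal_sum, Finset.sum_mul]
    refine Finset.sum_congr rfl fun k _ => ?_
    rw [Complex.ofReal_sum, Finset.sum_mul]
  rw [Finset.sum_congr rfl fun j _ => h3 j, Finset.sum_comm]
  refine Finset.sum_congr rfl fun k _ => ?_
  rw [Finset.sum_comm]

private theorem cc_lam_sum {S : Type} [Fintype S] (f : S → IK K → ℝ) (w : InfinitePlace K) :
    lam (fun j => ∑ s, f s j) w = ∑ s, lam (f s) w := by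
  unfold lam
  have h1 : ∀ j : IK K, ((∑ s, f s j : ℝ) : ℂ) * sg w (RingOfIntegers.basis K j) =
      ∑ s, (f s j : ℂ) * sg w (RingOfIntegers.basis K j) := by
    intro j
    rw [Complex.ofReal_sum, Finset.sum_mul]
  rw [Finset.sum_congr rfl fun j _ => h1 j, Finset.sum_comm]

private theorem cc_lam_evgR {S : Type} [Fintype S] {a b : ℕ} (A : Idx a b × S → IK K → ℝ)
    (v : S → IK K → ℝ) (t : Idx a b) (w : InfinitePlace K) :
    lam (evgR A v t) w = ∑ s, lam (A (t, s)) w * lam (v s) w := by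
  unfold evgR
  rw [cc_lam_sum fun s => mulR (A (t, s)) (v s)]
  exact Finset.sum_congr rfl fun s _ => cc_lam_mulR _ _ _

private theorem cc_lam_div (a : 𝓞 K) (V : ℝ) (w : InfinitePlace K) :
    lam (fun j => (crd a j : ℝ) / V) w = sg w a / (V : ℂ) := by
  have h1 : (fun j => (crd a j : ℝ) / V) = fun j => V⁻¹ * (crd a j : ℝ) := by
    funext j
    ring
  rw [h1, lam_smul, lam_crd]
  push_cast
  ring

private theorem cc_Q_mem (w k : ℕ) (P : Ideal (𝓞 K)) :
    (((primorial w) ^ (2 * k) : ℕ) : 𝓞 K) ∈ P ^ (2 * (k * vW (primorial w) P)) := by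
  have h1 : (primorial w : 𝓞 K) ∈ P ^ (vW (primorial w) P) := by
    have h2 : P ^ (vW (primorial w) P) ∣ Ideal.span {(primorial w : 𝓞 K)} :=
      pow_multiplicity_dvd _ _
    exact Ideal.dvd_iff_le.mp h2 (Ideal.mem_span_singleton_self _)
  have h3 : 2 * (k * vW (primorial w) P) = vW (primorial w) P * (2 * k) := by ring
  rw [h3, pow_mul, Nat.cast_pow]
  exact Ideal.pow_mem_pow h1 _

private theorem cc_finite (I : Type) [Fintype I] (c : I → IK K → ℝ) (R : ℝ)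
    (P : (I → 𝓞 K) → Prop) :
    {A : I → 𝓞 K | (∀ t l, |(crd (A t) l : ℝ) - c t l| ≤ R) ∧ P A}.Finite := by
  have h1 := Set.Finite.pi' (fun t : I => boxO_finite (K := K) ((∑ l, |c t l|) + R))
  refine h1.subset fun A hA t l => ?_
  have h2 := hA.1 t l
  have h3 : |c t l| ≤ ∑ l, |c t l| :=
    Finset.single_le_sum (f := fun l => |c t l|) (fun _ _ => abs_nonneg _) (Finset.mem_univ l)
  calc |(crd (A t) l : ℝ)| = |((crd (A t) l : ℝ) - c t l) + c t l| := by ring_nf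
    _ ≤ |(crd (A t) l : ℝ) - c t l| + |c t l| := abs_add_le _ _
    _ ≤ _ := by linarith

/-- moving a point at an infinite place away from the coordinate hyperplanes -/
private theorem cc_eta {m : ℕ} (w : InfinitePlace K) (z : Fin (m + 1) → ℂ) (hz : PtI w z)
    (dl : ℝ) (hdl : 0 < dl) (hdl1 : dl ≤ 1) : ∃ e : Fin (m + 1) → ℂ, PtI w e ∧
      (∀ a, ‖e a - z a‖ ≤ 2 * dl) ∧ ∀ a, dl ≤ ‖e a‖ := by
  classical
  obtain ⟨hz0, hz1, a1, hz2⟩ := hz
  have hn : ‖(dl : ℂ)‖ = dl := by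
    rw [Complex.norm_real, Real.norm_eq_abs, abs_of_pos hdl]
  refine ⟨fun a => if dl ≤ ‖z a‖ then z a else (dl : ℂ), ⟨?_, ?_, a1, ?_⟩, ?_, ?_⟩
  · intro hw a
    show (if dl ≤ ‖z a‖ then z a else (dl : ℂ)).im = 0
    split_ifs
    · exact hz0 hw a
    · exact Complex.ofReal_im _
  · intro a
    show ‖if dl ≤ ‖z a‖ then z a else (dl : ℂ)‖ ≤ 1
    split_ifs
    · exact hz1 a
    · rw [hn]
      exact hdl1
  · show ‖if dl ≤ ‖z a1‖ then z a1 else (dl : ℂ)‖ = 1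
    rw [if_pos (by rw [hz2]; exact hdl1)]
    exact hz2
  · intro a
    show ‖(if dl ≤ ‖z a‖ then z a else (dl : ℂ)) - z a‖ ≤ 2 * dl
    split_ifs with h
    · rw [sub_self, norm_zero]
      linarith
    · push Not at h
      have h1 := norm_sub_le (dl : ℂ) (z a)
      rw [hn] at h1
      linarith
  · intro a
    show dl ≤ ‖if dl ≤ ‖z a‖ then z a else (dl : ℂ)‖
    split_ifs with h
    · exact h
    · rw [hn]

end basic

section multi
variable {ι : Type} [Fintype ι] [DecidableEq ι] {n d : ι → ℕ}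

private theorem cc_vy_le (i0 : ι) (z : MVar n → ℂ) (R : ℝ)
    (hz : ∀ v, ‖z v‖ ≤ R) (s : SIdx n d i0) :
    ‖vy i0 z s‖ ≤ R ^ (∑ j : {j // j ≠ i0}, d j) := by
  unfold vy
  rw [norm_prod, ← Finset.prod_pow_eq_pow_sum]
  exact Finset.prod_le_prod (fun _ _ => norm_nonneg _) fun j _ =>
    cc_mon_le _ R (fun a => hz _) (s j)

private theorem cc_vy_ge (i0 : ι) (z : MVar n → ℂ) (c : ℝ) (hc : 0 ≤ c)
    (hz : ∀ v, c ≤ ‖z v‖) (s : SIdx n d i0) :
    c ^ (∑ j : {j // j ≠ i0}, d j) ≤ ‖vy i0 z s‖ := by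
  unfold vy
  rw [norm_prod, ← Finset.prod_pow_eq_pow_sum]
  exact Finset.prod_le_prod (fun _ _ => pow_nonneg hc _) fun j _ =>
    cc_mon_ge _ c hc (fun a => hz _) (s j)

/-- assembling the point from the block `i0` and the other blocks -/
private theorem cc_near {K : Type} [Field K] [NumberField K] {d : Fin 1 → ι → ℕ} (i0 : ι)
    (A : PSys n d (𝓞 K)) (w k : ℕ) (del : ℝ) (zp : Ideal (𝓞 K) → MVar n → 𝓞 K)
    (zi : InfinitePlace K → MVar n → ℂ)
    (z' : MVar n → 𝓞 K) (hz' : ∀ j, j ≠ i0 → NFHP.Prim (fun a => z' ⟨j, a⟩) ∧ ∃ N : ℕ,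
      Nr w k del (fun P a => zp P ⟨j, a⟩) (fun w' a => zi w' ⟨j, a⟩) (fun a => z' ⟨j, a⟩) N)
    (x : Fin (n i0 + 1) → 𝓞 K)
    (hx : NFHP.Prim x ∧ ∃ N : ℕ,
      Nr w k del (fun P a => zp P ⟨i0, a⟩) (fun w' a => zi w' ⟨i0, a⟩) x N)
    (h : F (ev i0 (A 0) z') x = 0) : SolNear w k del zp zi A := by
  classical
  set Z : MVar n → 𝓞 K := fun v => if h : v.1 = i0 then x (h ▸ v.2) else z' v with hZ
  have hZ0 : ∀ b, Z ⟨i0, b⟩ = x b := by
    intro b
    simp [hZ]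
  have hZ1 : ∀ j b, j ≠ i0 → Z ⟨j, b⟩ = z' ⟨j, b⟩ := by
    intro j b hj
    simp [hZ, hj]
  have hMF : MF (A 0) Z = 0 := by
    rw [MF_eq_F_ev i0 (A 0) Z, ev_congr i0 (A 0) Z z' fun j b hj => hZ1 j b hj, funext hZ0]
    exact h
  refine solNear_of w k del zp zi A Z (fun j => ?_) fun i => ?_
  · obtain rfl : j = 0 := Subsingleton.elim _ _
    exact hMF
  · by_cases hi : i = i0
    · subst hi
      rw [funext hZ0]
      exact hx
    · have e3 : (fun a => Z ⟨i, a⟩) = fun a => z' ⟨i, a⟩ := funext fun a => hZ1 i a hi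
      rw [e3]
      exact hz' i hi

/-- the class theorem with respect to a block of conics -/
theorem cls_of_conicW (K : Type) [Field K] [NumberField K] (n : ι → ℕ) (d : Fin 1 → ι → ℕ)
    (hd : ∀ j i, 1 ≤ d j i) (hn : ∀ i, 1 ≤ n i) (i0 i1 : ι) (h01 : i1 ≠ i0)
    (hn0 : n i0 = 2) (hd0 : d 0 i0 = 2) : PCLSW K n d i0 := by
  classical
  intro eps he
  set S := SIdx n (d 0) i0 with hS
  set T1 := Idx (n i0) (d 0 i0) with hT1
  have hSne : Nonempty S := ⟨fun j => mk fun _ => 0⟩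
  obtain ⟨w1, hclass0⟩ := class_thm_genW K (n i0) (d 0 i0) hn0 hd0 S eps he
  refine ⟨w1, fun w hw1 hw bet hb hb1 dw hdw => ?_⟩
  obtain ⟨DD, hDD⟩ : ∃ DD : ℕ, DD = ∑ j : {j // j ≠ i0}, d 0 j := ⟨_, rfl⟩
  have h2D : (1 : ℝ) ≤ 2 ^ DD := one_le_pow₀ (by norm_num)
  obtain ⟨rho0', hr0, hr01, hclass⟩ := hclass0 w hw1 hw (bet / 2 / 2 ^ DD) (by positivity)
    (by
      rw [div_le_one (by positivity)]
      linarith) dw hdw
  refine ⟨rho0' / 2, by positivity, by linarith, ?_⟩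
  intro rho hrho hrho1 k hk A0 zp hA0 AC Ainf z hAinf hACn hGR
  choose hz hFz J hJ using hGR
  have hcK := one_le_cK (K := K)
  have hcoef : ∀ w' t, ‖sysPC Ainf w' 0 t‖ ≤ cK K * 1 := fun w' t =>
    norm_lam_le _ 1 (fun j => hAinf 0 t j) w'
  -- the tolerance
  set L : ℝ := NM n (d 0) * (Fintype.card (MVar n) * (∑ i, d 0 i : ℕ) +
        4 ^ (∑ i, d 0 i) * 1) * (cK K * 1) * 1 ^ (∑ i, d 0 i) with hL
  set L' : ℝ := NM n (d 0) * (∑ i, d 0 i : ℕ) * 4 ^ (∑ i, d 0 i) * (cK K * 1) *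
        1 ^ (∑ i, d 0 i) with hL'
  have hL0 : 0 ≤ L := by positivity
  have hL'0 : 0 ≤ L' := by positivity
  obtain ⟨delta, hdel, hdel1, hdeldw, hLd, hL'd⟩ : ∃ delta : ℝ, 0 < delta ∧ delta ≤ 1 ∧
      delta ≤ dw / 2 ∧ L * delta ≤ rho0' / 2 ∧ L' * delta ≤ bet / 2 := by
    obtain ⟨e, he1⟩ : ∃ e : ℝ, e = min (rho0' / 2 / (L + 1)) (bet / 2 / (L' + 1)) := ⟨_, rfl⟩
    have he2 : e ≤ rho0' / 2 / (L + 1) := by rw [he1]; exact min_le_left _ _
    have he3 : e ≤ bet / 2 / (L' + 1) := by rw [he1]; exact min_le_right _ _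
    have he0 : 0 < e := by rw [he1]; exact lt_min (by positivity) (by positivity)
    obtain ⟨f, hf⟩ : ∃ f : ℝ, f = min 1 (min (dw / 2) e) := ⟨_, rfl⟩
    have hf0 : 0 < f := by rw [hf]; exact lt_min one_pos (lt_min (by positivity) he0)
    have hf1 : f ≤ 1 := by rw [hf]; exact min_le_left _ _
    have hf2 : f ≤ dw / 2 := by rw [hf]; exact (min_le_right _ _).trans (min_le_left _ _)
    have hf3 : f ≤ e := by rw [hf]; exact (min_le_right _ _).trans (min_le_right _ _)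
    refine ⟨f, hf0, hf1, hf2, ?_, ?_⟩
    · have h1 := hf3.trans he2
      rw [le_div_iff₀ (by positivity)] at h1
      nlinarith
    · have h1 := hf3.trans he3
      rw [le_div_iff₀ (by positivity)] at h1
      nlinarith
  set dl : ℝ := delta / 4 with hdl
  have hdl0 : 0 < dl := by positivity
  have hdl1 : dl ≤ 1 := by rw [hdl]; linarith
  -- the perturbed points at the infinite places
  have hpt : ∀ (w' : InfinitePlace K) (j : ι), PtI w' fun a => z w' ⟨j, a⟩ := fun w' j =>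
    ⟨fun hr a => (hz w').1 hr _, fun a => (hz w').2.1 _, (hz w').2.2 j⟩
  choose eta heta heta1 heta2 using fun (j : ι) (w' : InfinitePlace K) =>
    cc_eta w' (fun a => z w' ⟨j, a⟩) (hpt w' j) dl hdl0 hdl1
  -- the local points at the small primes
  have hzp : ∀ P : Ideal (𝓞 K), P.IsMaximal → (primorial w : 𝓞 K) ∈ P →
      BUnitK P (zp P) ∧ MF (A0 0) (zp P) ∈ P ^ (2 * (k * vW (primorial w) P)) ∧
        ∃ a, MD (A0 0) (zp P) ⟨i0, a⟩ ∉ P ^ (k * vW (primorial w) P) := by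
    intro P hP hPw
    obtain ⟨h1, h2, J0, h3⟩ := hA0 P hP hPw
    refine ⟨h1, h2 0, J0 0, ?_⟩
    rw [Matrix.det_fin_one] at h3
    exact h3
  -- the integral point
  have hy0 : ∀ j : ι, ∃ (y : Fin (n j + 1) → 𝓞 K) (N : ℕ), 0 < N ∧ NFHP.Prim y ∧
      (∀ P : Ideal (𝓞 K), P.IsMaximal → (primorial w : 𝓞 K) ∈ P →
        ∀ a, y a - zp P ⟨j, a⟩ ∈ P ^ (2 * (k * vW (primorial w) P))) ∧
      ∀ w' a, ‖sg w' (y a) / N - eta j w' a‖ ≤ dl / 2 := by
    intro j
    exact exists_prim_approx w k (n j) hw hk (hn j) (fun P a => zp P ⟨j, a⟩)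
      (fun P hP hPw => (hzp P hP hPw).1 j) (eta j) (heta j) (dl / 2) (by positivity)
  choose y N hN hyP hyp hyd using hy0
  set Y : MVar n → 𝓞 K := fun v => y v.1 v.2 with hY
  have hYP : ∀ j, NFHP.Prim fun a => Y ⟨j, a⟩ := fun j => hyP j
  -- the normalised point
  set Zn : InfinitePlace K → MVar n → ℂ := fun w' v => sg w' (Y v) / N v.1 with hZn
  have hZn0 : ∀ w' v, ‖Zn w' v - eta v.1 w' v.2‖ ≤ dl / 2 := fun w' v => hyd v.1 w' v.2
  have hZn2 : ∀ w' v, ‖Zn w' v‖ ≤ 2 := by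
    intro w' v
    have h1 := (heta v.1 w').2.1 v.2
    have h2 := norm_sub_norm_le (Zn w' v) (eta v.1 w' v.2)
    have h3 := hZn0 w' v
    linarith
  have hZnge : ∀ w' v, dl / 2 ≤ ‖Zn w' v‖ := by
    intro w' v
    have h1 := heta2 v.1 w' v.2
    have h2 := norm_sub_norm_le (eta v.1 w' v.2) (Zn w' v)
    have h3 := hZn0 w' v
    rw [norm_sub_rev] at h3
    linarith
  have hZnd : ∀ w' v, ‖Zn w' v - z w' v‖ ≤ delta := by
    intro w' v
    have h1 := heta1 v.1 w' v.2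
    have h3 := hZn0 w' v
    have h4 : Zn w' v - z w' v = (Zn w' v - eta v.1 w' v.2) + (eta v.1 w' v.2 - z w' ⟨v.1, v.2⟩) := by
      ring
    rw [h4]
    refine (norm_add_le _ _).trans ?_
    have h5 : dl = delta / 4 := hdl
    linarith
  -- the size of the vector
  set V1 : ℕ := ∏ j : {j // j ≠ i0}, N j ^ d 0 j with hV1
  have hV1pos : 0 < V1 := Finset.prod_pos fun j _ => pow_pos (hN j) _
  have hV1R : (0 : ℝ) < V1 := by exact_mod_cast hV1pos
  set V0 : ℕ := 2 ^ DD * V1 with hV0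
  have hV0pos : 0 < V0 := by positivity
  have hV0R : (V0 : ℝ) = 2 ^ DD * V1 := by rw [hV0]; push_cast; ring
  have hvyn : ∀ w' (s : S), sg w' (vy i0 Y s) = (V1 : ℂ) * vy i0 (Zn w') s := by
    intro w' s
    have h1 := ConicHP.vy_map (d := d 0) (sg w') i0 Y s
    have h2 := ConicHP.vy_scale (d := d 0) i0 (fun j => (N j : ℂ)) (Zn w') s
    have h3 : (fun v : MVar n => (N v.1 : ℂ) * Zn w' v) = fun v => sg w' (Y v) := by
      funext v
      have h4 : (N v.1 : ℂ) ≠ 0 := by exact_mod_cast (hN v.1).ne'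
      rw [hZn]
      field_simp
    rw [h3] at h2
    rw [← h1, h2, hV1]
    push_cast
    rfl
  have hvV : ∀ (s : S) w', ‖sg w' (vy i0 Y s)‖ ≤ V0 := by
    intro s w'
    rw [hvyn, norm_mul, Complex.norm_natCast, hV0R, mul_comm]
    refine mul_le_mul_of_nonneg_right ?_ hV1R.le
    rw [hDD]
    exact cc_vy_le i0 (Zn w') 2 (hZn2 w') s
  obtain ⟨s0⟩ := hSne
  set k1 : ℝ := (dl / 2) ^ DD / 2 ^ DD with hk1
  have hk1pos : 0 < k1 := by positivity
  have hs0 : ∀ w', k1 * V0 ≤ ‖sg w' (vy i0 Y s0)‖ := by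
    intro w'
    have h1 : k1 * V0 = (dl / 2) ^ DD * V1 := by
      rw [hk1, hV0R]
      field_simp
    rw [h1, hvyn, norm_mul, Complex.norm_natCast, mul_comm (V1 : ℝ)]
    refine mul_le_mul_of_nonneg_right ?_ hV1R.le
    rw [hDD]
    exact cc_vy_ge i0 (Zn w') (dl / 2) (by positivity) (hZnge w') s0
  set Q : ℕ := primorial w ^ (2 * k) with hQ
  have hQpos : 0 < Q := Nat.pow_pos (primorial_pos w)
  obtain ⟨v, V, D0, zf, hfam, hcong, hzf, hzfn⟩ := exists_familyW (d := d 0) (hd 0) hn i0 i1 h01 Y hYP Q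
    (primorial w) hQpos (fun q hq hqQ => hq.dvd_of_dvd_pow hqQ) V0 hV0pos hvV s0 k1 hk1pos hs0
  set AC2 : T1 × S → IK K → ℝ := fun q => AC 0 ((spl n (d 0) i0).symm q) with hAC2
  set AI2 : T1 × S → IK K → ℝ := fun q => Ainf 0 ((spl n (d 0) i0).symm q) with hAI2
  set A02 : T1 × S → 𝓞 K := fun q => A0 0 ((spl n (d 0) i0).symm q) with hA02
  set om : S → IK K → ℝ := fun s j => (crd (vy i0 Y s) j : ℝ) / V0 with hom
  -- the real points
  set Zr : InfinitePlace K → MVar n → ℂ := fun w' u => if u.1 = i0 then z w' u else Zn w' u with hZr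
  have hZrd : ∀ w' u, ‖Zr w' u - z w' u‖ ≤ delta := by
    rintro w' ⟨j, b⟩
    by_cases hj : j = i0
    · simp only [hZr, hj, if_true, sub_self, norm_zero]
      exact hdel.le
    · simp only [hZr, hj, if_false]
      exact hZnd w' ⟨j, b⟩
  have hevr : ∀ w', (fun t => lam (evgR AI2 om t) w') =
      fun t => ((1 / 2 ^ DD : ℝ) : ℂ) * ev i0 (sysPC Ainf w' 0) (Zr w') t := by
    intro w'
    funext t
    have h1 : ev i0 (sysPC Ainf w' 0) (Zr w') = ev i0 (sysPC Ainf w' 0) (Zn w') := by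
      refine ev_congr i0 _ _ _ fun j b hj => ?_
      simp [hZr, hj]
    rw [h1, cc_lam_evgR]
    unfold ev
    rw [Finset.mul_sum]
    refine Finset.sum_congr rfl fun s _ => ?_
    have h2 : lam (om s) w' = ((1 / 2 ^ DD : ℝ) : ℂ) * vy i0 (Zn w') s := by
      rw [hom]
      simp only
      rw [cc_lam_div, hvyn, hV0R]
      have h3 : ((V1 : ℝ) : ℂ) ≠ 0 := by exact_mod_cast hV1R.ne'
      push_cast at h3 ⊢
      field_simp
    rw [h2, hAI2]
    simp only [sysPC]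
    ring
  have hZrsum : ∀ w', (fun u => z w' u + (Zr w' u - z w' u)) = Zr w' := fun w' => by
    funext u; ring
  have hMFr : ∀ w', ‖MF (sysPC Ainf w' 0) (Zr w') - MF (sysPC Ainf w' 0) (z w')‖ ≤ L * delta := by
    intro w'
    have := MFC_lip (sysPC Ainf w' 0) (z w') (fun u => Zr w' u - z w' u) (cK K * 1) 1 delta le_rfl
      hdel.le hdel1 (hcoef w') (hz w').2.1 (hZrd w')
    rw [hZrsum] at this
    exact this
  have hMDr : ∀ w' a, ‖MD (sysPC Ainf w' 0) (Zr w') ⟨i0, a⟩ -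
      MD (sysPC Ainf w' 0) (z w') ⟨i0, a⟩‖ ≤ L' * delta := by
    intro w' a
    have := MDC_taylor (sysPC Ainf w' 0) (z w') (fun u => Zr w' u - z w' u) ⟨i0, a⟩ (cK K * 1) 1
      delta le_rfl hdel.le hdel1 (hcoef w') (hz w').2.1 (hZrd w')
    rw [hZrsum] at this
    exact this
  have hxi : ∀ w', (fun b => Zr w' ⟨i0, b⟩) = fun b => z w' ⟨i0, b⟩ := by
    intro w'
    funext b
    simp [hZr]
  have hnD : ‖((1 / 2 ^ DD : ℝ) : ℂ)‖ = 1 / 2 ^ DD := by
    rw [Complex.norm_real, Real.norm_eq_abs, abs_of_pos (by positivity)]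
  have hclass1 := hclass rho hrho (by linarith) k hk om v V D0 s0 k1 hfam A02
    (fun P b => zp P ⟨i0, b⟩) ?_ AC2 AI2
    (fun m j => hAinf 0 _ j) (fun m j => hACn 0 _ j) (fun w' b => z w' ⟨i0, b⟩) ?_
  rotate_left
  · -- local data
    intro P hP hPw
    obtain ⟨hzu, hF, a', hD⟩ := hzp P hP hPw
    set I : Ideal (𝓞 K) := P ^ (2 * (k * vW (primorial w) P)) with hI
    set f := Ideal.Quotient.mk I with hf
    have hQI : (Q : 𝓞 K) ∈ I := by
      rw [hQ, hI]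
      exact cc_Q_mem w k P
    have hfY : ∀ u : MVar n, f (Y u) = f (zp P u) := by
      intro u
      rw [Ideal.Quotient.eq]
      exact hyp u.1 P hP hPw u.2
    have hfe : (fun t => f (evgK A02 (v 0 0) t)) = fun t => f (ev i0 (A0 0) (zp P) t) := by
      funext t
      have h1 : f (evgK A02 (v 0 0) t) = f (ev i0 (A0 0) Y t) := by
        rw [Ideal.Quotient.eq]
        have h2 : evgK A02 (v 0 0) t - ev i0 (A0 0) Y t =
            ∑ s, A02 (t, s) * (v 0 0 s - vy i0 Y s) := by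
          unfold evgK ev
          rw [← Finset.sum_sub_distrib]
          refine Finset.sum_congr rfl fun s _ => ?_
          rw [hA02]
          ring
        rw [h2]
        refine Ideal.sum_mem _ fun s _ => Ideal.mul_mem_left _ _ ?_
        obtain ⟨c, hc⟩ := hcong s
        rw [hc]
        exact Ideal.mul_mem_right _ _ hQI
      rw [h1, ← ev_map, ← ev_map]
      have h3 : (fun u => f (Y u)) = fun u => f (zp P u) := funext hfY
      rw [h3]
    refine ⟨hzu i0, fun _ => ?_, fun _ => a', ?_⟩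
    · show F (evgK A02 (v 0 0)) (fun b => zp P ⟨i0, b⟩) ∈ I
      rw [← Ideal.Quotient.eq_zero_iff_mem, ← F_map, hfe, F_map, ← MF_eq_F_ev,
        Ideal.Quotient.eq_zero_iff_mem]
      exact hF
    · rw [Matrix.det_fin_one]
      show D (evgK A02 (v 0 0)) (fun b => zp P ⟨i0, b⟩) a' ∉ P ^ (k * vW (primorial w) P)
      intro h
      apply hD
      have h1 : D (evgK A02 (v 0 0)) (fun b => zp P ⟨i0, b⟩) a' - MD (A0 0) (zp P) ⟨i0, a'⟩ ∈ I := by
        rw [← Ideal.Quotient.eq, ← hf, ← D_map, hfe, D_map, ← MD_eq_D_ev]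
      have h2 : D (evgK A02 (v 0 0)) (fun b => zp P ⟨i0, b⟩) a' - MD (A0 0) (zp P) ⟨i0, a'⟩ ∈
          P ^ (k * vW (primorial w) P) := Ideal.pow_le_pow_right (by omega) h1
      have h3 := Ideal.sub_mem _ h h2
      simpa using h3
  · intro w'
    refine ⟨hpt w' i0, fun _ => ?_, fun l => J w' l, ?_⟩
    · show ‖F (fun t => lam (evgR AI2 om t) w') (fun b => z w' ⟨i0, b⟩)‖ ≤ rho0'
      rw [hevr, F_smul, ← hxi, ← MF_eq_F_ev, norm_mul, hnD]
      have h1 := norm_sub_norm_le (MF (sysPC Ainf w' 0) (Zr w')) (MF (sysPC Ainf w' 0) (z w'))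
      have h2 := hMFr w'
      have h3 := hFz w' 0
      have h4 : ‖MF (sysPC Ainf w' 0) (Zr w')‖ ≤ rho0' := by linarith
      calc 1 / 2 ^ DD * ‖MF (sysPC Ainf w' 0) (Zr w')‖ ≤ 1 * rho0' := by
            refine mul_le_mul ?_ h4 (norm_nonneg _) zero_le_one
            rw [div_le_one (by positivity)]
            exact h2D
        _ = rho0' := one_mul _
    · rw [Matrix.det_fin_one]
      show bet / 2 / 2 ^ DD ≤ ‖D (fun t => lam (evgR AI2 om t) w') (fun b => z w' ⟨i0, b⟩) (J w' 0)‖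
      rw [hevr, D_smul, ← hxi, ← MD_eq_D_ev, norm_mul, hnD]
      have h1 := norm_sub_norm_le (MD (sysPC Ainf w' 0) (z w') ⟨i0, J w' 0⟩)
        (MD (sysPC Ainf w' 0) (Zr w') ⟨i0, J w' 0⟩)
      have h2 := hMDr w' (J w' 0)
      rw [norm_sub_rev] at h2
      have h3 := hJ w'
      rw [Matrix.det_fin_one] at h3
      have h3' : bet ≤ ‖MD (sysPC Ainf w' 0) (z w') ⟨i0, J w' 0⟩‖ := h3
      have h4 : bet / 2 ≤ ‖MD (sysPC Ainf w' 0) (Zr w') ⟨i0, J w' 0⟩‖ := by linarith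
      calc bet / 2 / 2 ^ DD = 1 / 2 ^ DD * (bet / 2) := by ring
        _ ≤ _ := mul_le_mul_of_nonneg_left h4 (by positivity)
  obtain ⟨J0, hJ0⟩ := hzfn (dw / 2) (by positivity)
  filter_upwards [hclass1, ConicHP.JJ_atTop.eventually_ge_atTop J0] with H hH hJJ
  have hcardM : NP n d = Fintype.card (T1 × S) := by
    unfold NP
    rw [Fin.sum_univ_one]
    exact Fintype.card_congr (spl n (d 0) i0)
  rw [hcardM]
  refine le_trans ?_ hH
  -- transport
  set Φ : PSys n d (𝓞 K) → (T1 × S → 𝓞 K) := fun A q => A 0 ((spl n (d 0) i0).symm q) with hΦ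
  have hΦinj : Function.Injective Φ := by
    intro A A' h
    funext j t
    obtain rfl : j = 0 := Subsingleton.elim _ _
    have := congrFun h (spl n (d 0) i0 t)
    simpa [hΦ] using this
  have hfin := cc_finite (K := K) (T1 × S) (fun m j => H * AC2 m j) (rho * H)
    fun A => (∀ m, (((primorial w) ^ (2 * k) : ℕ) : 𝓞 K) ∣ A m - A02 m) ∧
      ¬ FSolgW w k dw v (fun P b => zp P ⟨i0, b⟩) (fun w' b => z w' ⟨i0, b⟩) (JJ H) A
  have hsub : Φ '' {A : PSys n d (𝓞 K) |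
          (∀ j t l, |(crd (A j t) l : ℝ) - H * AC j t l| ≤ rho * H) ∧
          (∀ j t, (((primorial w) ^ (2 * k) : ℕ) : 𝓞 K) ∣ A j t - A0 j t) ∧
            ¬ SolNear w k dw zp z A} ⊆
      {A : T1 × S → 𝓞 K | (∀ m j, |(crd (A m) j : ℝ) - H * AC2 m j| ≤ rho * H) ∧
      (∀ m, (((primorial w) ^ (2 * k) : ℕ) : 𝓞 K) ∣ A m - A02 m) ∧
      ¬ FSolgW w k dw v (fun P b => zp P ⟨i0, b⟩) (fun w' b => z w' ⟨i0, b⟩) (JJ H) A} := by
    rintro _ ⟨A, ⟨hA1, hA2, hA3⟩, rfl⟩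
    refine ⟨fun t => hA1 0 _, fun t => hA2 0 _, ?_⟩
    rintro ⟨i, hi, x, N', hxP, hx, hN'⟩
    apply hA3
    obtain ⟨hz', hzQ, hvz⟩ := hzf (JJ H) i
    obtain ⟨M, hM, hMn⟩ := hJ0 (JJ H) hJJ i hi
    have h1 : evgK (Φ A) (v (JJ H) i) = ev i0 (A 0) (zf (JJ H) i) := by
      rw [hvz]
      rfl
    rw [h1] at hx
    refine cc_near i0 A w k dw zp z (zf (JJ H) i) (fun j _ => ⟨hz' j, M j * N j, ?_, ?_, ?_⟩) x
      ⟨hxP, N', hN'⟩ hx
    · exact Nat.mul_pos (hM j) (hN j)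
    · intro P hP hPw a
      have hQI : (Q : 𝓞 K) ∈ P ^ (2 * (k * vW (primorial w) P)) := by
        rw [hQ]
        exact cc_Q_mem w k P
      obtain ⟨b, hb'⟩ := hzQ ⟨j, a⟩
      have h2 : zf (JJ H) i ⟨j, a⟩ - Y ⟨j, a⟩ ∈ P ^ (2 * (k * vW (primorial w) P)) := by
        rw [hb']
        exact Ideal.mul_mem_right _ _ hQI
      have h3 := Ideal.add_mem _ h2 (hyp j P hP hPw a)
      have h4 : zf (JJ H) i ⟨j, a⟩ - Y ⟨j, a⟩ + (y j a - zp P ⟨j, a⟩) =
          zf (JJ H) i ⟨j, a⟩ - zp P ⟨j, a⟩ := by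
        have : Y ⟨j, a⟩ = y j a := rfl
        rw [this]
        ring
      rw [h4] at h3
      exact Ideal.pow_le_pow_right (by omega) h3
    · intro w' a
      have hNR : (0 : ℝ) < N j := by exact_mod_cast hN j
      have hN1 : (1 : ℝ) ≤ N j := by exact_mod_cast hN j
      have hNC : ((N j : ℕ) : ℂ) ≠ 0 := by exact_mod_cast (hN j).ne'
      have hMC : ((M j : ℕ) : ℂ) ≠ 0 := by exact_mod_cast (hM j).ne'
      have h2 : sg w' (zf (JJ H) i ⟨j, a⟩) / ((M j * N j : ℕ) : ℂ) - z w' ⟨j, a⟩ =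
          (sg w' (zf (JJ H) i ⟨j, a⟩) / (M j : ℂ) - sg w' (Y ⟨j, a⟩)) / (N j : ℂ) +
            (Zn w' ⟨j, a⟩ - z w' ⟨j, a⟩) := by
        show _ = (sg w' (zf (JJ H) i ⟨j, a⟩) / (M j : ℂ) - sg w' (Y ⟨j, a⟩)) / (N j : ℂ) +
            (sg w' (Y ⟨j, a⟩) / (N j : ℂ) - z w' ⟨j, a⟩)
        push_cast
        field_simp
        ring
      show ‖sg w' (zf (JJ H) i ⟨j, a⟩) / ((M j * N j : ℕ) : ℂ) - z w' ⟨j, a⟩‖ ≤ dw
      rw [h2]
      refine (norm_add_le _ _).trans ?_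
      have h3 := hZnd w' ⟨j, a⟩
      have h4 : ‖(sg w' (zf (JJ H) i ⟨j, a⟩) / (M j : ℂ) - sg w' (Y ⟨j, a⟩)) / (N j : ℂ)‖ ≤
          dw / 2 := by
        rw [norm_div, Complex.norm_natCast, div_le_iff₀ hNR]
        refine (hMn w' ⟨j, a⟩).trans ?_
        nlinarith
      linarith
  have h1 := Set.ncard_le_ncard hsub hfin
  rw [Set.ncard_image_of_injective _ hΦinj] at h1
  exact_mod_cast h1

end multi

end NKWHP
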