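import Pool.Agent.Lib.MP_e426f4_ag.NKW.SecondMoment
import Pool.Agent.Lib.MP_e426f4_ag.NKW.HensLocalW
import Pool.Agent.Lib.MP_e426f4_ag.NK.Points
import Pool.Agent.Lib.MP_e426f4_ag.NK.RealCount
import Pool.Agent.Lib.MP_e426f4_ag.NK.Dirs
import Pool.Agent.Lib.MP_e426f4_ag.N.Dir
import Pool.Agent.Lib.MP_e426f4_ag.N.Ideals

/-!
NKW-ClassThm: the class theorem of NK/ClassThm with a zero near the given local points.
-/

namespace NKWHP

open NumberField GenHP NFHP NKHP Finset Filter Topology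
open CIHP (Sys NS Jac nu Bf)

private theorem pt_near {K : Type} [Field K] [NumberField K] {n r : ℕ} {e : Fin r → ℕ} (p : Par K n e) {eps k0 : ℝ} {w : ℕ} (hp : p.Valid eps k0 w)
    (B : ℕ) (x : Fin (n + 1) → 𝓞 K) (hx : x ∈ p.XX B) (i : Fin (n + 1)) (w' : InfinitePlace K) :
    ‖sg w' (x i) - B * lam (p.xi i) w'‖ *
      (10 * ((r : ℝ) * (hb n (mK K) : ℝ) + 1) * ((n : ℝ) + 1)) ≤ k0 * B := by
  have hB : (0 : ℝ) ≤ B := by positivity
  have hc := cK_pos (K := K)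
  have hrn : r ≤ n + 1 := by have := hp.n_ge; omega
  obtain ⟨M, hM⟩ : ∃ M : ℝ, M = (r : ℝ) * (hb n (mK K) : ℝ) := ⟨_, rfl⟩
  have hM0 : 0 ≤ M := by rw [hM]; positivity
  have hkap : p.kap * (10 * cK K * (M + 1) ^ 2 * ((n : ℝ) + 1)) ≤ k0 := by
    have h1 := hp.kap_le
    unfold NKHP.kmax at h1
    rw [← hM, le_div_iff₀ (by positivity)] at h1
    exact h1
  have hkap1 : p.kap ≤ 1 := by
    have h1 := one_le_cK (K := K)
    have h2 : 1 ≤ 10 * cK K * (M + 1) ^ 2 * ((n : ℝ) + 1) := by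
      have h3 : 1 ≤ (M + 1) ^ 2 := by nlinarith
      have h4 : (1 : ℝ) ≤ (n : ℝ) + 1 := by
        have : (0 : ℝ) ≤ n := by positivity
        linarith
      have h5 : 1 ≤ 10 * cK K := by linarith
      exact one_le_mul_of_one_le_of_one_le (one_le_mul_of_one_le_of_one_le h5 h3) h4
    have h3 := hp.kap_pos
    have h4 := hp.k0_le
    nlinarith
  have hkap0 := hp.kap_pos
  have h2 : ∀ j, |(crd (x i) j : ℝ) - B * p.xi i j| ≤ (M + 1) * p.kap * B := by
    intro j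
    by_cases hi : (i : ℕ) < r
    · have h0 := hx.1.1 ⟨i, hi⟩ j
      rw [fr_of_lt hrn i hi] at h0
      have h3 : 0 ≤ M * p.kap * B := by positivity
      nlinarith
    · have h3 := hx.1.2 i (not_lt.mp hi) j
      have h4 : |(crd (x i) j : ℝ) - B * p.xi i j| ≤
          |((crd (x i) j : ℝ) - B * p.xi i j) -
            ∑ l, (p.h l i : ℝ) * ((crd (x (fr n l)) j : ℝ) - B * p.xi (fr n l) j)| +
          |∑ l, (p.h l i : ℝ) * ((crd (x (fr n l)) j : ℝ) - B * p.xi (fr n l) j)| := by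
        have := abs_add_le (((crd (x i) j : ℝ) - B * p.xi i j) -
          ∑ l, (p.h l i : ℝ) * ((crd (x (fr n l)) j : ℝ) - B * p.xi (fr n l) j))
          (∑ l, (p.h l i : ℝ) * ((crd (x (fr n l)) j : ℝ) - B * p.xi (fr n l) j))
        rwa [sub_add_cancel] at this
      have h5 : |∑ l, (p.h l i : ℝ) * ((crd (x (fr n l)) j : ℝ) - B * p.xi (fr n l) j)| ≤
          M * (p.kap * B) := by
        refine (Finset.abs_sum_le_sum_abs _ _).trans ?_
        have h6 : ∀ l ∈ (univ : Finset (Fin r)),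
            |(p.h l i : ℝ) * ((crd (x (fr n l)) j : ℝ) - B * p.xi (fr n l) j)| ≤
              (hb n (mK K) : ℝ) * (p.kap * B) := by
          intro l _
          rw [abs_mul]
          refine mul_le_mul ?_ (hx.1.1 l j) (abs_nonneg _) (by positivity)
          have := hp.h_le l i
          rw [← Int.cast_abs]
          exact_mod_cast this
        refine (Finset.sum_le_card_nsmul _ _ _ h6).trans (le_of_eq ?_)
        rw [Finset.card_univ, Fintype.card_fin, nsmul_eq_mul, hM]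
        ring
      have h7 : p.kap ^ 2 * B ≤ p.kap * B := by
        refine mul_le_mul_of_nonneg_right ?_ hB
        nlinarith
      nlinarith
  have h3 : ‖sg w' (x i) - B * lam (p.xi i) w'‖ ≤ cK K * ((M + 1) * p.kap * B) := by
    have h4 := norm_lam_le (fun j => (crd (x i) j : ℝ) - B * p.xi i j) _ h2 w'
    rw [lam_sub (fun j => (crd (x i) j : ℝ)) (fun j => (B : ℝ) * p.xi i j) w', lam_crd,
      lam_smul] at h4
    simpa using h4
  rw [← hM]
  calc ‖sg w' (x i) - B * lam (p.xi i) w'‖ * (10 * (M + 1) * ((n : ℝ) + 1))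
      ≤ cK K * ((M + 1) * p.kap * B) * (10 * (M + 1) * ((n : ℝ) + 1)) :=
        mul_le_mul_of_nonneg_right h3 (by positivity)
    _ = p.kap * (10 * cK K * (M + 1) ^ 2 * ((n : ℝ) + 1)) * B := by ring
    _ ≤ k0 * B := mul_le_mul_of_nonneg_right hkap hB

/-- the points of the class are near `xi` -/
theorem mem_XX_k0 {K : Type} [Field K] [NumberField K] {n r : ℕ} {e : Fin r → ℕ} (p : Par K n e)
    {eps k0 : ℝ} {w : ℕ} (hp : p.Valid eps k0 w) (B : ℕ) (x : Fin (n + 1) → 𝓞 K) (hx : x ∈ p.XX B)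
    (i : Fin (n + 1)) (w' : InfinitePlace K) :
    ‖sg w' (x i) - B * lam (p.xi i) w'‖ ≤ k0 * B := by
  have h1 := pt_near p hp B x hx i w'
  have h3 : (1 : ℝ) ≤ ((r : ℝ) * (hb n (mK K) : ℝ) + 1) * ((n : ℝ) + 1) := by
    have h4 : (0 : ℝ) ≤ (r : ℝ) * (hb n (mK K) : ℝ) := by positivity
    have h5 : (0 : ℝ) ≤ n := by positivity
    nlinarith
  have h4 := norm_nonneg (sg w' (x i) - B * lam (p.xi i) w')
  nlinarith

theorem class_thmW (K : Type) [Field K] [NumberField K] (n : ℕ) {r : ℕ} (e : Fin r → ℕ)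
    (hr : 1 ≤ r) (hn : r + 2 ≤ n) (he2 : ∀ i, 2 ≤ e i) (hs : ∑ i, e i ≤ n)
    (eps : ℝ) (he : 0 < eps) :
    ∃ w1 : ℕ, ∀ w : ℕ, w1 ≤ w → 2 ≤ w → ∀ bet : ℝ, 0 < bet → bet ≤ 1 →
    ∀ del : ℝ, 0 < del →
    ∃ rho0 : ℝ, 0 < rho0 ∧ rho0 ≤ 1 ∧ ∀ rho : ℝ, 0 < rho → rho ≤ rho0 → ∀ k : ℕ, 1 ≤ k →
      ∀ (A0 : Sys n e (𝓞 K)) (xp : Ideal (𝓞 K) → Fin (n + 1) → 𝓞 K),
      (∀ P : Ideal (𝓞 K), P.IsMaximal → (primorial w : 𝓞 K) ∈ P →
        GPS P (k * vW (primorial w) P) A0 (xp P)) →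
      ∀ (AC Ainf : Sys n e (IK K → ℝ)) (zi : InfinitePlace K → Fin (n + 1) → ℂ), (∀ i t j, |Ainf i t j| ≤ 1) →
      (∀ i t j, |AC i t j - Ainf i t j| ≤ rho) →
      (∀ w', GIS w' rho0 bet (sysC Ainf w') (zi w')) →
      ∀ᶠ H : ℝ in atTop,
        (Set.ncard {A : Sys n e (𝓞 K) | (∀ i t j, |(crd (A i t) j : ℝ) - H * AC i t j| ≤ rho * H) ∧
          (∀ i t, (((primorial w) ^ (2 * k) : ℕ) : 𝓞 K) ∣ A i t - A0 i t) ∧
          ¬ NearS w k del xp zi A} : ℝ) ≤
          eps * (2 * rho * H / ((primorial w : ℝ)) ^ (2 * k)) ^ (mK K * NS n e) := by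
  have hr1 : r ≤ n + 1 := by omega
  obtain ⟨G, hG, hGS⟩ := ideal_tail K (eps / 40) (by positivity)
  refine ⟨G, fun w hGw hw bet hb hb1 del hdel => ?_⟩
  have hE : ∀ S : Finset (Ideal (𝓞 K)), (∀ I ∈ S, w < Ideal.absNorm I) →
      ∑ I ∈ S, 1 / (Ideal.absNorm I : ℝ) ^ 2 ≤ eps / 40 := fun S hS =>
    hGS S fun I hI => lt_of_le_of_lt hGw (hS I hI)
  set e1 : ℝ := min (1 / 10) (eps / 400) with he1
  have he10 : 0 < e1 := lt_min (by norm_num) (by positivity)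
  have he11 : e1 ≤ 1 / 10 := min_le_left _ _
  have he12 : e1 ≤ eps / 400 := min_le_right _ _
  obtain ⟨u0, hu00, hu01, hdir⟩ := exists_dir n (mK K) mK_pos
  obtain ⟨v0, hv0d⟩ : ∃ v0 : ℝ, v0 = min u0 del := ⟨_, rfl⟩
  have hv0 : 0 < v0 := by rw [hv0d]; exact lt_min hu00 hdel
  have hv0u : v0 ≤ u0 := by rw [hv0d]; exact min_le_left _ _
  have hv0l : v0 ≤ del := by rw [hv0d]; exact min_le_right _ _
  have hv1 : v0 ≤ 1 := hv0u.trans hu01
  obtain ⟨v0', hv0', hv1', hdirs⟩ := exists_dirs n r (mK K) hr1 mK_pos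
  have hbv : 0 < bet * v0' := mul_pos hb hv0'
  have hbv1 : bet * v0' ≤ 1 := mul_le_one₀ hb1 hv0'.le hv1'
  obtain ⟨kap, hkap, hkap1, rho0, th1, hrho0, hrho01, hth1, hRC⟩ :=
    real_count K n e hr (by omega) (fun i => le_trans (by norm_num) (he2 i)) e1 (bet * v0') v0
      he10 he11 hbv hbv1 hv0 hv1
  refine ⟨rho0, hrho0, hrho01, fun rho hrho hrho' k hk A0 xp hloc AC Ainf zi hA hAC hI => ?_⟩
  obtain ⟨P, x0, hP, hH, hnear⟩ := hens_of_localW w k hw hk A0 xp hloc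
  have hWp : 0 < primorial w := primorial_pos w
  have hQp : 0 < primorial w ^ (2 * k) := pow_pos hWp _
  -- the points at the infinite places
  choose hz hzF J hzD using hI
  have hRVz : ∀ i, RV fun w' => zi w' i := fun i w' hw' => (hz w').1 hw' i
  choose xi hxi using fun i => exists_lam (hRVz i)
  have hxi' : ∀ w', ptC xi w' = zi w' := fun w' => funext fun i => hxi i w'
  obtain ⟨h, hhid, hhle, hhge⟩ := hdirs (InfinitePlace K) card_places_le
    (fun w' => Matrix.of fun i j => D (sysC Ainf w' i) (ptC xi w') j) bet hb.le (fun w' => by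
      refine ⟨J w', ?_⟩
      have h1 := hzD w'
      rw [← hxi'] at h1
      exact h1)
  obtain ⟨u, hu0, hule, huge⟩ := hdir (InfinitePlace K) card_places_le
    (fun w' i => lam (xi i) w') 1 zero_le_one (fun w' => by
      obtain ⟨j, hj⟩ := (hz w').2.2
      exact ⟨j, by rw [hxi, hj]⟩)
  have hxile : ∀ i w', ‖lam (xi i) w'‖ ≤ 1 := fun i w' => by
    rw [hxi]
    exact (hz w').2.1 i
  have hxieq : ∀ w', ∃ i, ‖lam (xi i) w'‖ = 1 := fun w' => by
    obtain ⟨j, hj⟩ := (hz w').2.2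
    exact ⟨j, by rw [hxi, hj]⟩
  have hFle : ∀ w' i, ‖F (sysC Ainf w' i) (ptC xi w')‖ ≤ rho0 := fun w' i => by
    rw [hxi']
    exact hzF w' i
  have hDge : ∀ w', bet * v0' ≤ ‖(Dh (sysC Ainf w') (ptC xi w') h).det‖ := fun w' => hhge w'
  have hhid' : ∀ l l' : Fin r, h l (fr n l') = if l = l' then 1 else 0 := by
    intro l l'
    have h1 : ((fr n l' : Fin (n + 1)) : ℕ) = (l' : ℕ) := fr_val hr1 l'
    rw [hhid l (fr n l') (by rw [h1]; exact l'.isLt), h1]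
    by_cases hll : l = l'
    · rw [if_pos hll, if_pos (by rw [hll])]
    · rw [if_neg hll, if_neg fun h2 => hll (Fin.ext h2.symm)]
  obtain ⟨vg, hvg, hRCv⟩ := hRC rho hrho hrho' Ainf xi h hA hxile hxieq hhid' hhle hFle hDge
  -- the constant of the height function
  set dn : ℝ := (nadm P (primorial w ^ (2 * k)) A0 x0 : ℝ) /
    (((primorial w ^ (2 * k) : ℕ) : ℝ) ^ (n + 1)) ^ mK K with hdn
  have hnad : (0 : ℝ) < nadm P (primorial w ^ (2 * k)) A0 x0 := by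
    exact_mod_cast nadm_pos P _ (primorial w) hQp A0 x0 hH
  have hQr : (0 : ℝ) < ((primorial w ^ (2 * k) : ℕ) : ℝ) := by exact_mod_cast hQp
  have hdn0 : 0 < dn := by positivity
  set cc : ℝ := ((2 * kap ^ 2) ^ (n + 1 - r) * ((primorial w ^ (2 * k) : ℕ) : ℝ) ^ r) ^ mK K * dn
    with hcc
  have hcc0 : 0 < cc := by positivity
  set C0 : ℝ := max 1 (2 * vg / (e1 * cc)) with hC0
  have hC01 : 1 ≤ C0 := le_max_left _ _
  have hC02 : 2 * vg ≤ e1 * (((2 * kap ^ 2) ^ (n + 1 - r) *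
      ((primorial w ^ (2 * k) : ℕ) : ℝ) ^ r * C0) ^ mK K * dn) := by
    have h1 : 2 * vg / (e1 * cc) ≤ C0 := le_max_right _ _
    rw [div_le_iff₀ (by positivity)] at h1
    have h2 : C0 ≤ C0 ^ mK K := le_self_pow₀ hC01 (mK_pos (K := K)).ne'
    rw [mul_pow]
    calc 2 * vg ≤ C0 * (e1 * cc) := h1
      _ ≤ C0 ^ mK K * (e1 * cc) := mul_le_mul_of_nonneg_right h2 (by positivity)
      _ = _ := by rw [hcc]; ring
  set p : Par K n e := ⟨Ainf, AC, xi, h, u, kap, rho, th1, vg, C0, primorial w,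
    primorial w ^ (2 * k), P, A0, x0⟩ with hpdef
  have hvalid : p.Valid e1 v0 w := by
    refine ⟨hr, hn, he2, hs, he10, he11, hv0, hv1, hw, hkap, hkap1, hrho, hrho'.trans hrho01,
      hth1, hA, hAC, hxile, hxieq, hhid', hhle, hu0, hule, ?_, hvg, hRCv, hWp, ?_, hQp, hP, hH,
      hC01, hC02⟩
    · intro w'
      have h1 := huge w'
      rw [one_mul] at h1
      refine (hv0u.trans h1).trans (le_of_eq ?_)
      congr 1
      exact Finset.sum_congr rfl fun i _ => mul_comm _ _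
    · intro l hl
      show l ∣ primorial w ↔ l ≤ w
      unfold primorial
      rw [Prime.dvd_finsetProd_iff hl.prime]
      constructor
      · rintro ⟨q, hq, hlq⟩
        rw [Finset.mem_filter, Finset.mem_range] at hq
        rw [Nat.prime_dvd_prime_iff_eq hl hq.2] at hlq
        omega
      · intro hlw
        exact ⟨l, Finset.mem_filter.mpr ⟨Finset.mem_range.mpr (by omega), hl⟩, dvd_rfl⟩
  have hsm := second_momentW p hvalid (eps / 40) hE
  have hBev : ∀ᶠ H : ℝ in atTop, 1 ≤ p.B H := by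
    exact (CIHP.Bf_atTop e hr hs p.C0 hC01).eventually_ge_atTop 1
  filter_upwards [hsm, Filter.eventually_ge_atTop 0, hBev] with H hH hH0 hHB
  have e1' : {A : Sys n e (𝓞 K) | (∀ i t j, |(crd (A i t) j : ℝ) - H * AC i t j| ≤ rho * H) ∧
          (∀ i t, (((primorial w) ^ (2 * k) : ℕ) : 𝓞 K) ∣ A i t - A0 i t) ∧
          ¬ NearS w k del xp zi A} ⊆
      {A | A ∈ p.Cl p.rho H ∧ ¬ RegSol p H A} := by
    rintro A ⟨hA1, hA2, hA3⟩
    refine ⟨⟨hA1, hA2⟩, fun ⟨x, hx, hxp, hxF⟩ => hA3 ?_⟩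
    have hB1 : 1 ≤ p.B H := hHB
    have hBpos : (0 : ℝ) < p.B H := by exact_mod_cast hB1
    refine ⟨x, p.B H, hxp, hxF, hB1, fun P' hP' hw' i => hnear P' hP' hw' x hx.2.1 i,
      fun w' i => ?_⟩
    have h1 := mem_XX_k0 p hvalid (p.B H) x hx i w'
    have h2 : lam (p.xi i) w' = zi w' i := hxi i w'
    rw [h2] at h1
    have h3 : sg w' (x i) / ((p.B H : ℕ) : ℂ) - zi w' i =
        (sg w' (x i) - (p.B H : ℂ) * zi w' i) / (p.B H : ℂ) := by
      have : ((p.B H : ℕ) : ℂ) ≠ 0 := by exact_mod_cast hBpos.ne'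
      field_simp
    rw [h3, norm_div, Complex.norm_natCast, div_le_iff₀ hBpos]
    exact h1.trans (mul_le_mul_of_nonneg_right hv0l hBpos.le)
  have e3 : (Set.ncard {A : Sys n e (𝓞 K) |
      (∀ i t j, |(crd (A i t) j : ℝ) - H * AC i t j| ≤ rho * H) ∧
          (∀ i t, (((primorial w) ^ (2 * k) : ℕ) : 𝓞 K) ∣ A i t - A0 i t) ∧
          ¬ NearS w k del xp zi A} : ℝ) ≤
      (Set.ncard {A | A ∈ p.Cl p.rho H ∧ ¬ RegSol p H A} : ℝ) := by
    exact_mod_cast Set.ncard_le_ncard e1' ((Cl_finite p p.rho H).subset fun A hA => hA.1)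
  refine e3.trans ?_
  refine hH.trans ?_
  have e2 : p.XR p.rho H =
      (2 * rho * H / ((primorial w : ℝ)) ^ (2 * k)) ^ (mK K * NS n e) := by
    unfold NKHP.Par.XR
    rw [hpdef]
    push_cast
    rfl
  rw [e2]
  refine mul_le_mul_of_nonneg_right ?_ (by positivity)
  linarith

end NKWHP
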