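import Pool.Agent.Lib.MP_e426f4_ag.NKP.Defs2

/-!
# Weak approximation for systems over the integers of a number field: definitions
-/

namespace NKWHP

open NumberField GenHP NFHP NKHP NKPHP Finset Filter Topology
open CIHP (Sys NS Jac nu Bf)
open CIPHP (PSys NP PJac blk pev)
open IsDedekindDomain

/-! ### One block -/

section one
variable {K : Type} [Field K] [NumberField K] {n r : ℕ} {e : Fin r → ℕ}

/-- `z` is a good local point of the system modulo `P ^ (2 a)`. -/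
def GPS (P : Ideal (𝓞 K)) (a : ℕ) (A : Sys n e (𝓞 K)) (z : Fin (n + 1) → 𝓞 K) : Prop :=
  (∃ j, z j ∉ P) ∧ (∀ i, F (A i) z ∈ P ^ (2 * a)) ∧
    ∃ J : Fin r → Fin (n + 1), (Jac A z J).det ∉ P ^ a

/-- `z` is a good local point of the system at the infinite place `w`. -/
def GIS (w : InfinitePlace K) (f g : ℝ) (A : Sys n e ℂ) (z : Fin (n + 1) → ℂ) : Prop :=
  PtI w z ∧ (∀ i, ‖F (A i) z‖ ≤ f) ∧ ∃ J : Fin r → Fin (n + 1), g ≤ ‖(Jac A z J).det‖

/-- The integral point `x` with the scaling factor `N` is near the given local points. -/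
def Nr (w k : ℕ) (del : ℝ) (xp : Ideal (𝓞 K) → Fin (n + 1) → 𝓞 K)
    (xi : InfinitePlace K → Fin (n + 1) → ℂ) (x : Fin (n + 1) → 𝓞 K) (N : ℕ) : Prop :=
  0 < N ∧ (∀ P : Ideal (𝓞 K), P.IsMaximal → (primorial w : 𝓞 K) ∈ P →
      ∀ i, x i - xp P i ∈ P ^ (k * vW (primorial w) P)) ∧
    ∀ w' i, ‖sg w' (x i) / N - xi w' i‖ ≤ del

/-- The system has a unimodular integral zero near the given local points. -/
def NearS (w k : ℕ) (del : ℝ) (xp : Ideal (𝓞 K) → Fin (n + 1) → 𝓞 K)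
    (xi : InfinitePlace K → Fin (n + 1) → ℂ) (A : Sys n e (𝓞 K)) : Prop :=
  ∃ (x : Fin (n + 1) → 𝓞 K) (N : ℕ), NFHP.Prim x ∧ (∀ i, F (A i) x = 0) ∧ Nr w k del xp xi x N

end one

/-! ### Several blocks -/

section multi
variable {ι : Type} [Fintype ι] [DecidableEq ι]
variable {K : Type} [Field K] [NumberField K] {n : ι → ℕ} {r : ℕ} {d : Fin r → ι → ℕ}

/-- `z` is a good local point modulo `P ^ (2 a)` with respect to block `i0`. -/
def GPP (i0 : ι) (P : Ideal (𝓞 K)) (a : ℕ) (A : PSys n d (𝓞 K)) (z : MVar n → 𝓞 K) : Prop :=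
  BUnitK P z ∧ (∀ j, MF (A j) z ∈ P ^ (2 * a)) ∧
    ∃ J : Fin r → Fin (n i0 + 1), (PJac A z (blk i0 J)).det ∉ P ^ a

/-- `z` is a good local point at the infinite place `w` with respect to block `i0`. -/
def GIP (i0 : ι) (w : InfinitePlace K) (f g : ℝ) (A : PSys n d ℂ) (z : MVar n → ℂ) : Prop :=
  BPtI w z ∧ (∀ j, ‖MF (A j) z‖ ≤ f) ∧
    ∃ J : Fin r → Fin (n i0 + 1), g ≤ ‖(PJac A z (blk i0 J)).det‖

/-- `X` is congruent to `c` modulo `P ^ s` as a point of the product of the projective spaces. -/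
def NearPt (P : Ideal (𝓞 K)) (s : ℕ) (c X : MVar n → 𝓞 K) : Prop :=
  ∀ i, ∃ (g : 𝓞 K) (t : ℕ), g ∈ P ^ t ∧ g ∉ P ^ (t + 1) ∧
    ∀ a, X ⟨i, a⟩ - g * c ⟨i, a⟩ ∈ P ^ (s + t)

/-- `X` is near `x` at the infinite place `w`, as a point of the product of the projective spaces. -/
def NearIt (w : InfinitePlace K) (del : ℝ) (x : MVar n → ℂ) (X : MVar n → 𝓞 K) : Prop :=
  ∀ i, ∃ g : ℂ, g ≠ 0 ∧ (w.IsReal → g.im = 0) ∧
    ∀ a, ‖sg w (X ⟨i, a⟩) - g * x ⟨i, a⟩‖ ≤ del * ‖g‖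

/-- The system has a zero over `K` near the given local points `c P`, `P` dividing the product of the
primes `≤ w`, and `x w'`, `w'` infinite. -/
def SolNear (w s : ℕ) (del : ℝ) (c : Ideal (𝓞 K) → MVar n → 𝓞 K)
    (x : InfinitePlace K → MVar n → ℂ) (A : PSys n d (𝓞 K)) : Prop :=
  ∃ X : MVar n → 𝓞 K, (∀ i, ∃ a, X ⟨i, a⟩ ≠ 0) ∧ (∀ j, MF (A j) X = 0) ∧
    (∀ P : Ideal (𝓞 K), P.IsMaximal → (primorial w : 𝓞 K) ∈ P → NearPt P s (c P) X) ∧
    ∀ w', NearIt w' del (x w') X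

/-- The class theorem with weak approximation with respect to block `i0`: in every class of systems
with given good local points at all infinite places and at all primes dividing the product of the
primes `≤ w`, all but a small proportion have a zero near these points. -/
def PCLSW (K : Type) [Field K] [NumberField K] (n : ι → ℕ) {r : ℕ} (d : Fin r → ι → ℕ) (i0 : ι) :
    Prop :=
  ∀ eps : ℝ, 0 < eps → ∃ w1 : ℕ, ∀ w : ℕ, w1 ≤ w → 2 ≤ w → ∀ bet : ℝ, 0 < bet → bet ≤ 1 →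
    ∀ del : ℝ, 0 < del →
    ∃ rho0 : ℝ, 0 < rho0 ∧ rho0 ≤ 1 ∧ ∀ rho : ℝ, 0 < rho → rho ≤ rho0 → ∀ k : ℕ, 1 ≤ k →
      ∀ (A0 : PSys n d (𝓞 K)) (zp : Ideal (𝓞 K) → MVar n → 𝓞 K),
      (∀ P : Ideal (𝓞 K), P.IsMaximal → (primorial w : 𝓞 K) ∈ P →
        GPP i0 P (k * vW (primorial w) P) A0 (zp P)) →
      ∀ (AC Ainf : PSys n d (IK K → ℝ)) (zi : InfinitePlace K → MVar n → ℂ),
      (∀ j t l, |Ainf j t l| ≤ 1) →
      (∀ j t l, |AC j t l - Ainf j t l| ≤ rho) →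
      (∀ w', GIP i0 w' rho0 bet (sysPC Ainf w') (zi w')) →
      ∀ᶠ H : ℝ in atTop,
        (Set.ncard {A : PSys n d (𝓞 K) |
          (∀ j t l, |(crd (A j t) l : ℝ) - H * AC j t l| ≤ rho * H) ∧
          (∀ j t, (((primorial w) ^ (2 * k) : ℕ) : 𝓞 K) ∣ A j t - A0 j t) ∧
          ¬ SolNear w k del zp zi A} : ℝ) ≤
          eps * (2 * rho * H / ((primorial w : ℝ)) ^ (2 * k)) ^ (mK K * NP n d)

/-- Weak approximation, elementary version: for all residue classes `c P` modulo `P ^ s`, `P` dividing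
the product of the primes `≤ W0`, which contain zeros modulo all powers of `P`, and all zeros at the
infinite places there is a zero over `K` near them. -/
def WAe (W0 s : ℕ) (del : ℝ) (A : PSys n d (𝓞 K)) : Prop :=
  ∀ (c : Ideal (𝓞 K) → MVar n → 𝓞 K) (zi : InfinitePlace K → MVar n → ℂ),
    (∀ P : Ideal (𝓞 K), P.IsMaximal → (primorial W0 : 𝓞 K) ∈ P → BUnitK P (c P) ∧
      ∀ L : ℕ, ∃ z : MVar n → 𝓞 K, (∀ v, z v - c P v ∈ P ^ s) ∧ ∀ j, MF (A j) z ∈ P ^ L) →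
    (∀ w', BPtI w' (zi w') ∧ ∀ j, MF (sgP w' A j) (zi w') = 0) →
    SolNear W0 s del c zi A

end multi

end NKWHP
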