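import Mathlib

/-! NKW-Diag: the diagonal argument. -/

namespace NKWHP

open Filter Topology

theorem diag_small {V : Type*} (Hs : ℕ → Set V) (E : ℕ → Set V)
    (hE : ∀ k : ℕ, ∀ eps : ℝ, 0 < eps → ∀ᶠ H : ℕ in atTop,
      (Set.ncard {A | A ∈ Hs H ∧ A ∈ E k} : ℝ) ≤ eps * ((Hs H).ncard : ℝ)) :
    ∃ W : ℕ → ℕ, Tendsto W atTop atTop ∧ ∀ eps : ℝ, 0 < eps → ∀ᶠ H : ℕ in atTop,
      (Set.ncard {A | A ∈ Hs H ∧ A ∈ E (W H)} : ℝ) ≤ eps * ((Hs H).ncard : ℝ) := by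
  have h1 : ∀ k : ℕ, ∃ N : ℕ, ∀ H : ℕ, N ≤ H →
      (Set.ncard {A | A ∈ Hs H ∧ A ∈ E k} : ℝ) ≤ 1 / ((k : ℝ) + 1) * ((Hs H).ncard : ℝ) :=
    fun k => Filter.eventually_atTop.mp (hE k (1 / ((k : ℝ) + 1)) (by positivity))
  choose N hN using h1
  refine ⟨fun H => Nat.findGreatest (fun k => N k ≤ H) H, ?_, fun eps heps => ?_⟩
  · rw [Filter.tendsto_atTop]
    intro k
    filter_upwards [eventually_ge_atTop k, eventually_ge_atTop (N k)] with H h1 h2
    exact Nat.le_findGreatest h1 h2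
  · obtain ⟨k, hk⟩ := exists_nat_one_div_lt heps
    filter_upwards [eventually_ge_atTop k, eventually_ge_atTop (N k)] with H h1 h2
    have h3 : k ≤ Nat.findGreatest (fun k => N k ≤ H) H := Nat.le_findGreatest h1 h2
    have h4 : N (Nat.findGreatest (fun k => N k ≤ H) H) ≤ H :=
      Nat.findGreatest_spec (P := fun k => N k ≤ H) h1 h2
    refine (hN _ H h4).trans ?_
    refine mul_le_mul_of_nonneg_right ?_ (Nat.cast_nonneg _)
    refine le_trans ?_ hk.le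
    have h5 : (k : ℝ) ≤ (Nat.findGreatest (fun k => N k ≤ H) H : ℕ) := by exact_mod_cast h3
    exact one_div_le_one_div_of_le (by positivity) (by linarith)

end NKWHP
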