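import Pool.Agent.Lib.MP_e426f4_ag.NKW.Defs
import Pool.Agent.Lib.MP_e426f4_ag.NK.Lift
import Pool.Agent.Lib.MP_e426f4_ag.N.ApproxInf
import Pool.Agent.Lib.MP_e426f4_ag.NKP.Basic
import Pool.Agent.Lib.MP_e426f4_ag.NKP.Els

/-!
NKW-Els: weak approximation over the completions from the elementary version.

TEMPLATES: NK/Lift.lean (az_approx is private there: copy it), NKP/Els.lean (plocP_of_completion, plocI_of_completion), N/ApproxInf.lean (ext_algebraMap).
PROOF of pwak_of_WAe. Let y, x be the given points, s = W + 1, del = 1/(W+1). For P maximal with primorial W ∈ P let v = ⟨P, _, _⟩ (P ≠ ⊥) and choose by az_approx (L := s) c P u ∈ 𝓞 K with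
Valued.v (c P u - y v u) ≤ exp (-s) (for other P put c P = 0). BUnitK P (c P): for the a with Valued.v (y v ⟨i,a⟩) = 1 we get Valued.v (c) = 1, so c ∉ P (mem iff Valued.v < 1 / ≤ exp (-1)).
For every L choose z with Valued.v (z u - y v u) ≤ exp (-(max L s)): z - c ∈ P^s, and MF (A j) z ∈ P^L as in plocP_of_completion (az_lift, ideal quotient; y is in the integers, MF (A j) y = 0).
Infinite places: φ = extensionEmbedding w, zi w' u := φ (x w' u): BPtI (norm_extensionEmbedding / isometry; real places: extensionEmbeddingOfIsReal), zero by MF_mapK φ, ext_algebraMap.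
WAe gives X : SolNear. z := X. Nonzero blocks, zero. At v: NearPt: (g, t), X - g c ∈ P^(s+t), Valued.v g = exp (-t): take the scaling g' = (algebraMap g)⁻¹: Valued.v (g' X - c) ≤ exp (-s), and
Valued.v (c - y) ≤ exp (-s): sum ≤ exp (-s) ≤ exp (-W). At w: NearIt (g): ‖φ X - g φ x‖ ≤ del ‖g‖; g⁻¹ = φ g' for some g' (real place: g real, surjectivity
InfinitePlace.Completion.surjective_extensionEmbeddingOfIsReal; complex: surjective_extensionEmbedding_of_isComplex or similar); ‖g' X - x‖ = ‖φ (g' X - x)‖ = ‖g‖⁻¹ ‖φ X - g φ x‖ ≤ del.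
-/

set_option linter.unusedSectionVars false

namespace NKWHP

open NumberField GenHP NFHP NKHP NKPHP Finset Filter Topology
open CIPHP (PSys NP PJac blk pev)
open IsDedekindDomain

variable {ι : Type} [Fintype ι] [DecidableEq ι]
variable {K : Type} [Field K] [NumberField K] {n : ι → ℕ} {r : ℕ} {d : Fin r → ι → ℕ}

/-- Normalised zero over the completion at a prime. -/
def ZeroF (v : HeightOneSpectrum (𝓞 K)) (A : PSys n d (𝓞 K)) (y : MVar n → v.adicCompletion K) :
    Prop :=
  (∀ u, Valued.v (y u) ≤ 1) ∧ (∀ i, ∃ a, Valued.v (y ⟨i, a⟩) = 1) ∧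
    ∀ j, MF (fun t => algebraMap (𝓞 K) (v.adicCompletion K) (A j t)) y = 0

/-- Normalised zero over the completion at an infinite place. -/
def ZeroI (w : InfinitePlace K) (A : PSys n d (𝓞 K)) (x : MVar n → w.Completion) : Prop :=
  (∀ u, ‖x u‖ ≤ 1) ∧ (∀ i, ∃ a, ‖x ⟨i, a⟩‖ = 1) ∧
    ∀ j, MF (fun t => algebraMap (𝓞 K) w.Completion (A j t)) x = 0

/-- Weak approximation at level `W` over the completions. -/
def PWAK (W : ℕ) (A : PSys n d (𝓞 K)) : Prop :=
  ∀ (y : ∀ v : HeightOneSpectrum (𝓞 K), MVar n → v.adicCompletion K)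
    (x : ∀ w : InfinitePlace K, MVar n → w.Completion),
    (∀ v : HeightOneSpectrum (𝓞 K), (primorial W : 𝓞 K) ∈ v.asIdeal → ZeroF v A (y v)) →
    (∀ w, ZeroI w A (x w)) →
    ∃ z : MVar n → 𝓞 K, (∀ i, ∃ a, z ⟨i, a⟩ ≠ 0) ∧ (∀ j, MF (A j) z = 0) ∧
      (∀ v : HeightOneSpectrum (𝓞 K), (primorial W : 𝓞 K) ∈ v.asIdeal →
        ∀ i, ∃ g : v.adicCompletion K, g ≠ 0 ∧
          ∀ a, Valued.v (g * algebraMap (𝓞 K) (v.adicCompletion K) (z ⟨i, a⟩) - y v ⟨i, a⟩) ≤
            WithZero.exp (-(W : ℤ))) ∧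
      ∀ (w : InfinitePlace K) i, ∃ g : w.Completion, g ≠ 0 ∧
        ∀ a, ‖g * algebraMap (𝓞 K) w.Completion (z ⟨i, a⟩) - x w ⟨i, a⟩‖ ≤ 1 / ((W : ℝ) + 1)

private theorem wels_approx (v : HeightOneSpectrum (𝓞 K)) (L : ℕ) (y : v.adicCompletion K)
    (hy : Valued.v y ≤ 1) : ∃ c : 𝓞 K,
      Valued.v (algebraMap (𝓞 K) (v.adicCompletion K) c - y) ≤ WithZero.exp (-(L : ℤ)) := by
  have hexp : WithZero.exp (-(L : ℤ)) ≠ 0 := WithZero.exp_ne_zero
  have hexp1 : WithZero.exp (-(L : ℤ)) ≤ 1 := by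
    rw [← WithZero.exp_zero, WithZero.exp_le_exp]
    omega
  obtain ⟨π, hπ⟩ := HeightOneSpectrum.valuedAdicCompletion_surjective K v (WithZero.exp (-(L : ℤ)))
  have hopen : IsOpen {x : v.adicCompletion K | Valued.v (x - y) < WithZero.exp (-(L : ℤ))} := by
    have h1 := (Valued.isOpen_ball (v.adicCompletion K) (Valued.v.restrict π)).preimage
      (f := fun x => x - y) (continuous_id.sub continuous_const)
    have h2 : {x : v.adicCompletion K | Valued.v (x - y) < WithZero.exp (-(L : ℤ))} =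
        (fun x : v.adicCompletion K => x - y) ⁻¹' {x | Valued.v.restrict x < Valued.v.restrict π} := by
      ext x
      show Valued.v (x - y) < WithZero.exp (-(L : ℤ)) ↔
        Valued.v.restrict (x - y) < Valued.v.restrict π
      rw [Valuation.restrict_lt_iff, hπ]
    rw [h2]
    exact h1
  have hne : {x : v.adicCompletion K | Valued.v (x - y) < WithZero.exp (-(L : ℤ))}.Nonempty := by
    refine ⟨y, ?_⟩
    show Valued.v (y - y) < _
    rw [sub_self, map_zero]
    exact zero_lt_iff.mpr hexp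
  obtain ⟨x, hx⟩ := (HeightOneSpectrum.denseRange_algebraMap K v).exists_mem_open hopen hne
  have hx' : Valued.v ((algebraMap K (v.adicCompletion K)) x - y) < WithZero.exp (-(L : ℤ)) := hx
  have hxv : v.valuation K x ≤ 1 := by
    have h1 : Valued.v ((algebraMap K (v.adicCompletion K)) x) = v.valuation K x :=
      HeightOneSpectrum.valuedAdicCompletion_eq_valuation' v x
    rw [← h1]
    have h2 : (algebraMap K (v.adicCompletion K)) x =
        ((algebraMap K (v.adicCompletion K)) x - y) + y := by ring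
    rw [h2]
    refine (Valuation.map_add _ _ _).trans (max_le (hx'.le.trans hexp1) hy)
  obtain ⟨c, hc⟩ := v.exists_valuation_sub_lt_of_integer hxv (Units.mk0 _ hexp)
  refine ⟨c, ?_⟩
  have h3 : algebraMap (𝓞 K) (v.adicCompletion K) c - y =
      (algebraMap K (v.adicCompletion K)) (algebraMap (𝓞 K) K c - x) +
        ((algebraMap K (v.adicCompletion K)) x - y) := by
    rw [map_sub, ← IsScalarTower.algebraMap_apply (𝓞 K) K (v.adicCompletion K)]
    ring
  rw [h3]
  refine (Valuation.map_add _ _ _).trans (max_le ?_ hx'.le)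
  have h4 : Valued.v ((algebraMap K (v.adicCompletion K)) (algebraMap (𝓞 K) K c - x)) =
      v.valuation K (algebraMap (𝓞 K) K c - x) :=
    HeightOneSpectrum.valuedAdicCompletion_eq_valuation' v _
  rw [h4]
  exact hc.le

private def welsJ (v : HeightOneSpectrum (𝓞 K)) (γ : WithZero (Multiplicative ℤ)) :
    Ideal (v.adicCompletionIntegers K) where
  carrier := {x | Valued.v (x : v.adicCompletion K) ≤ γ}
  add_mem' := fun {a b} ha hb => by
    show Valued.v ((a + b : v.adicCompletionIntegers K) : v.adicCompletion K) ≤ γ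
    rw [AddMemClass.coe_add]
    exact (Valuation.map_add _ _ _).trans (max_le ha hb)
  zero_mem' := by
    show Valued.v ((0 : v.adicCompletionIntegers K) : v.adicCompletion K) ≤ γ
    rw [ZeroMemClass.coe_zero, map_zero]
    exact zero_le
  smul_mem' := fun c x hx => by
    show Valued.v ((c • x : v.adicCompletionIntegers K) : v.adicCompletion K) ≤ γ
    rw [smul_eq_mul, MulMemClass.coe_mul, map_mul]
    exact (mul_le_of_le_one_left' c.2).trans hx

private theorem wels_mem (v : HeightOneSpectrum (𝓞 K)) (r : 𝓞 K) (L : ℕ) :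
    r ∈ v.asIdeal ^ L ↔
      Valued.v (algebraMap (𝓞 K) (v.adicCompletion K) r) ≤ WithZero.exp (-(L : ℤ)) := by
  have h1 : Valued.v (algebraMap (𝓞 K) (v.adicCompletion K) r) =
      v.valuation K (algebraMap (𝓞 K) K r) := HeightOneSpectrum.valuedAdicCompletion_eq_valuation v r
  rw [h1, v.valuation_of_algebraMap, v.intValuation_le_pow_iff_mem]

private theorem wels_exp_le {a b : ℕ} (h : a ≤ b) :
    WithZero.exp (-(b : ℤ)) ≤ WithZero.exp (-(a : ℤ)) := by
  rw [WithZero.exp_le_exp]
  omega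

private theorem wels_sub_le (v : HeightOneSpectrum (𝓞 K)) {a b : v.adicCompletion K}
    {g : WithZero (Multiplicative ℤ)} (ha : Valued.v a ≤ g) (hb : Valued.v b ≤ g) :
    Valued.v (a - b) ≤ g :=
  (Valuation.map_sub _ _ _).trans (max_le ha hb)

/-- the value of the system at an approximation of a zero -/
private theorem wels_eval (v : HeightOneSpectrum (𝓞 K)) (A : PSys n d (𝓞 K))
    (y : MVar n → v.adicCompletion K) (hy : ZeroF v A y) (L : ℕ) (z : MVar n → 𝓞 K)
    (hz : ∀ u, Valued.v (algebraMap (𝓞 K) (v.adicCompletion K) (z u) - y u) ≤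
      WithZero.exp (-(L : ℤ))) (j : Fin r) : MF (A j) z ∈ v.asIdeal ^ L := by
  let y' : MVar n → v.adicCompletionIntegers K := fun l => ⟨y l, hy.1 l⟩
  let J : Ideal (v.adicCompletionIntegers K) := welsJ v (WithZero.exp (-(L : ℤ)))
  have hcJ : ∀ l, azPhi v (z l) - y' l ∈ J := by
    intro l
    show Valued.v ((azPhi v (z l) - y' l : v.adicCompletionIntegers K) : v.adicCompletion K) ≤ _
    rw [AddSubgroupClass.coe_sub]
    exact hz l
  have hy0 : MF (fun t => azPhi v (A j t)) y' = 0 := by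
    have h1 : (v.adicCompletionIntegers K).subtype (MF (fun t => azPhi v (A j t)) y') = 0 := by
      rw [← MF_mapK]
      exact hy.2.2 j
    exact Subtype.ext h1
  have h1 : Ideal.Quotient.mk J (MF (fun t => azPhi v (A j t)) (fun l => azPhi v (z l))) = 0 := by
    rw [← MF_mapK]
    have h2 : (fun l => Ideal.Quotient.mk J (azPhi v (z l))) =
        fun l => Ideal.Quotient.mk J (y' l) := by
      funext l
      exact (Ideal.Quotient.eq).mpr (hcJ l)
    rw [h2, MF_mapK, hy0, map_zero]
  rw [MF_mapK, Ideal.Quotient.eq_zero_iff_mem] at h1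
  exact (wels_mem v _ L).mpr h1

theorem pwak_of_WAe (W : ℕ) (A : PSys n d (𝓞 K)) (h : WAe W (W + 1) (1 / ((W : ℝ) + 1)) A) :
    PWAK W A := by
  classical
  intro y x hy hx
  have hbot : ∀ P : Ideal (𝓞 K), P.IsMaximal → P ≠ ⊥ := fun P hP =>
    Ring.ne_bot_of_isMaximal_of_not_isField hP (RingOfIntegers.not_isField K)
  -- the approximations at the finite places
  have hc0 : ∀ P : Ideal (𝓞 K), ∃ c : MVar n → 𝓞 K, ∀ (hP : P.IsMaximal),
      (primorial W : 𝓞 K) ∈ P → ∀ u,
        Valued.v (algebraMap (𝓞 K) ((⟨P, hP.isPrime, hbot P hP⟩ :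
          HeightOneSpectrum (𝓞 K)).adicCompletion K) (c u) -
            y ⟨P, hP.isPrime, hbot P hP⟩ u) ≤ WithZero.exp (-((W + 1 : ℕ) : ℤ)) := by
    intro P
    by_cases hP : P.IsMaximal
    · by_cases hW : (primorial W : 𝓞 K) ∈ P
      · choose c hc using fun u => wels_approx (⟨P, hP.isPrime, hbot P hP⟩ :
          HeightOneSpectrum (𝓞 K)) (W + 1) (y ⟨P, hP.isPrime, hbot P hP⟩ u)
            ((hy ⟨P, hP.isPrime, hbot P hP⟩ hW).1 u)
        exact ⟨c, fun _ _ => hc⟩
      · exact ⟨0, fun _ h0 => absurd h0 hW⟩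
    · exact ⟨0, fun h0 => absurd h0 hP⟩
  choose c hc using hc0
  let φ : ∀ w : InfinitePlace K, w.Completion →+* ℂ :=
    fun w => InfinitePlace.Completion.extensionEmbedding w
  have hφn : ∀ (w : InfinitePlace K) (t : w.Completion), ‖φ w t‖ = ‖t‖ := fun w t =>
    (InfinitePlace.Completion.isometry_extensionEmbedding w).norm_map_of_map_zero (map_zero _) t
  have hmain := h c (fun w u => φ w (x w u)) ?_ ?_
  · obtain ⟨X, hX, hXF, hXf, hXi⟩ := hmain
    refine ⟨X, hX, hXF, fun v hv i => ?_, fun w i => ?_⟩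
    · have hvm : v.asIdeal.IsMaximal := v.isMaximal
      obtain ⟨g, t, hg1, hg2, hga⟩ := hXf v.asIdeal hvm hv i
      have hcv : ∀ u, Valued.v (algebraMap (𝓞 K) (v.adicCompletion K) (c v.asIdeal u) - y v u) ≤
          WithZero.exp (-((W + 1 : ℕ) : ℤ)) := hc v.asIdeal hvm hv
      have hgn : ¬ Valued.v (algebraMap (𝓞 K) (v.adicCompletion K) g) ≤
          WithZero.exp (-((t + 1 : ℕ) : ℤ)) := fun h0 => hg2 ((wels_mem v g (t + 1)).mpr h0)
      have hg0 : (algebraMap (𝓞 K) (v.adicCompletion K) g) ≠ 0 := by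
        intro h0
        apply hgn
        rw [h0, map_zero]
        exact zero_le
      have hv0 : Valued.v (algebraMap (𝓞 K) (v.adicCompletion K) g) ≠ 0 :=
        (Valuation.ne_zero_iff _).mpr hg0
      have hginv : (Valued.v (algebraMap (𝓞 K) (v.adicCompletion K) g))⁻¹ ≤
          WithZero.exp (t : ℤ) := by
        rw [← WithZero.exp_log hv0, ← WithZero.exp_neg, WithZero.exp_le_exp]
        rw [← WithZero.exp_log hv0, WithZero.exp_le_exp] at hgn
        push_cast at hgn
        omega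
      refine ⟨(algebraMap (𝓞 K) (v.adicCompletion K) g)⁻¹, inv_ne_zero hg0, fun a => ?_⟩
      have h1 : Valued.v (algebraMap (𝓞 K) (v.adicCompletion K)
          (X ⟨i, a⟩ - g * c v.asIdeal ⟨i, a⟩)) ≤ WithZero.exp (-((W + 1 + t : ℕ) : ℤ)) :=
        (wels_mem v _ _).mp (hga a)
      have h2 : (algebraMap (𝓞 K) (v.adicCompletion K) g)⁻¹ *
          algebraMap (𝓞 K) (v.adicCompletion K) (X ⟨i, a⟩) - y v ⟨i, a⟩ =
          (algebraMap (𝓞 K) (v.adicCompletion K) g)⁻¹ * algebraMap (𝓞 K) (v.adicCompletion K)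
            (X ⟨i, a⟩ - g * c v.asIdeal ⟨i, a⟩) +
          (algebraMap (𝓞 K) (v.adicCompletion K) (c v.asIdeal ⟨i, a⟩) - y v ⟨i, a⟩) := by
        rw [map_sub, map_mul, mul_sub, ← mul_assoc, inv_mul_cancel₀ hg0]
        ring
      rw [h2]
      refine (Valuation.map_add _ _ _).trans (max_le ?_ ((hcv _).trans (wels_exp_le (by omega))))
      rw [map_mul, map_inv₀]
      refine (mul_le_mul' hginv h1).trans ?_
      rw [← WithZero.exp_add, WithZero.exp_le_exp]
      push_cast
      omega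
    · obtain ⟨g, hg0, hgr, hga⟩ := hXi w i
      have hsurj : ∃ g' : w.Completion, φ w g' = g⁻¹ := by
        rcases InfinitePlace.isReal_or_isComplex w with hw | hw
        · obtain ⟨g', hg'⟩ := InfinitePlace.Completion.surjective_extensionEmbeddingOfIsReal hw
            (g⁻¹).re
          refine ⟨g', ?_⟩
          have h1 : ((InfinitePlace.Completion.extensionEmbeddingOfIsReal hw g' : ℝ) : ℂ) =
            φ w g' := InfinitePlace.Completion.extensionEmbeddingOfIsReal_apply hw g'
          rw [← h1, hg']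
          refine Complex.ext (by simp) ?_
          rw [Complex.ofReal_im, Complex.inv_im, hgr hw]
          simp
        · exact InfinitePlace.Completion.surjective_extensionEmbedding_of_isComplex hw g⁻¹
      obtain ⟨g', hg'⟩ := hsurj
      refine ⟨g', fun h0 => ?_, fun a => ?_⟩
      · rw [h0, map_zero] at hg'
        exact inv_ne_zero hg0 hg'.symm
      · have h1 := hga a
        rw [← hφn w, map_sub, map_mul, hg', ext_algebraMap w]
        have h2 : g⁻¹ * sg w (X ⟨i, a⟩) - φ w (x w ⟨i, a⟩) =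
            g⁻¹ * (sg w (X ⟨i, a⟩) - g * φ w (x w ⟨i, a⟩)) := by
          rw [mul_sub, ← mul_assoc, inv_mul_cancel₀ hg0, one_mul]
        rw [h2, norm_mul, norm_inv, inv_mul_le_iff₀ (norm_pos_iff.mpr hg0)]
        exact h1.trans (le_of_eq (mul_comm _ _))
  · -- the finite places
    intro P hP hW
    have hv := hy ⟨P, hP.isPrime, hbot P hP⟩ hW
    have hcP := hc P hP hW
    refine ⟨fun i => ?_, fun L => ?_⟩
    · obtain ⟨a, ha⟩ := hv.2.1 i
      refine ⟨a, fun hca => ?_⟩
      have h1 := (wels_mem (⟨P, hP.isPrime, hbot P hP⟩ : HeightOneSpectrum (𝓞 K))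
        (c P ⟨i, a⟩) 1).mp (by rw [pow_one]; exact hca)
      have h2 := (hcP ⟨i, a⟩).trans (wels_exp_le (a := 1) (by omega))
      have h3 := wels_sub_le (⟨P, hP.isPrime, hbot P hP⟩ : HeightOneSpectrum (𝓞 K)) h1 h2
      rw [sub_sub_cancel, ha, ← WithZero.exp_zero, WithZero.exp_le_exp] at h3
      norm_num at h3
    · choose z hz using fun u => wels_approx (⟨P, hP.isPrime, hbot P hP⟩ :
          HeightOneSpectrum (𝓞 K)) (max L (W + 1)) (y ⟨P, hP.isPrime, hbot P hP⟩ u) (hv.1 u)
      refine ⟨z, fun u => ?_, fun j => ?_⟩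
      · refine (wels_mem (⟨P, hP.isPrime, hbot P hP⟩ : HeightOneSpectrum (𝓞 K)) _ _).mpr ?_
        have h1 := wels_sub_le (⟨P, hP.isPrime, hbot P hP⟩ : HeightOneSpectrum (𝓞 K))
          ((hz u).trans (wels_exp_le (le_max_right L (W + 1)))) (hcP u)
        rwa [sub_sub_sub_cancel_right, ← map_sub] at h1
      · exact wels_eval (⟨P, hP.isPrime, hbot P hP⟩ : HeightOneSpectrum (𝓞 K)) A _ hv L z
          (fun u => (hz u).trans (wels_exp_le (le_max_left L (W + 1)))) j
  · -- the infinite places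
    intro w
    obtain ⟨h1, h2, h3⟩ := hx w
    refine ⟨⟨fun hw u => ?_, fun u => ?_, fun i => ?_⟩, fun j => ?_⟩
    · have h4 : ((InfinitePlace.Completion.extensionEmbeddingOfIsReal hw (x w u) : ℝ) : ℂ)
        = φ w (x w u) := InfinitePlace.Completion.extensionEmbeddingOfIsReal_apply hw (x w u)
      show (φ w (x w u)).im = 0
      rw [← h4]
      exact Complex.ofReal_im _
    · show ‖φ w (x w u)‖ ≤ 1
      rw [hφn]
      exact h1 u
    · obtain ⟨a, ha⟩ := h2 i
      refine ⟨a, ?_⟩
      show ‖φ w (x w ⟨i, a⟩)‖ = 1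
      rw [hφn]
      exact ha
    · have h4 := MF_mapK (φ w) (fun t => algebraMap (𝓞 K) w.Completion (A j t)) (x w)
      rw [h3 j, map_zero] at h4
      rw [← h4]
      show MF (fun t => sg w (A j t)) _ = _
      congr 1
      funext t
      exact (ext_algebraMap w (A j t)).symm

end NKWHP
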