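import Pool.Agent.Lib.MP_e426f4_ag.NKW.Defs
import Pool.Agent.Lib.MP_e426f4_ag.NKP.Approx
import Pool.Agent.Lib.MP_e426f4_ag.NKP.AlgC
import Pool.Agent.Lib.MP_e426f4_ag.NKP.Linear
import Pool.Agent.Lib.MP_e426f4_ag.C.Family

/-!
NKW-Linear: the class theorem with weak approximation for one form which is linear in the block `i0`.
-/

set_option linter.unusedSectionVars false

namespace NKWHP

open NumberField GenHP NFHP NKHP NKPHP Finset Filter Topology
open CIPHP (PSys NP PJac blk pev)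
open ConicHP (repl repl_self repl_ne)

/-! ### Forms which are linear in a block -/

section multi
variable {ι : Type} [Fintype ι] [DecidableEq ι] {n d : ι → ℕ}

/-- in a block of degree one the derivatives do not depend on the block -/
private lemma lw_dmon {R : Type*} [CommRing R] (i0 : ι) (h1 : d i0 = 1) (z z' : MVar n → R)
    (h : ∀ v : MVar n, v.1 ≠ i0 → z v = z' v) (a : Fin (n i0 + 1)) (t : MIdx n d) :
    dmon z ⟨i0, a⟩ (mex t) = dmon z' ⟨i0, a⟩ (mex t) := by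
  unfold dmon
  by_cases h0 : mex t (⟨i0, a⟩ : MVar n) = 0
  · rw [h0]
    simp
  · congr 1
    refine Finset.prod_congr rfl (fun v _ => ?_)
    by_cases hv : v.1 = i0
    · obtain ⟨i, b⟩ := v
      simp only at hv
      subst hv
      have hsum : ∑ c, (t i).1 c = 1 := by rw [(t i).2, h1]
      have ha : 1 ≤ (t i).1 a := Nat.one_le_iff_ne_zero.2 h0
      by_cases hb : b = a
      · subst hb
        have h2 : (t i).1 b ≤ 1 :=
          (Finset.single_le_sum (f := fun c => (t i).1 c) (fun _ _ => Nat.zero_le _)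
            (Finset.mem_univ b)).trans (le_of_eq hsum)
        have h3 : mex t (⟨i, b⟩ : MVar n) = 1 := le_antisymm h2 ha
        rw [if_pos rfl, h3]
        simp
      · have h2 : (t i).1 b = 0 := by
          have h4 : (t i).1 a + (t i).1 b ≤ ∑ c, (t i).1 c := by
            rw [← Finset.sum_pair (f := fun c => (t i).1 c) (Ne.symm hb)]
            exact Finset.sum_le_sum_of_subset (Finset.subset_univ _)
          omega
        have h3 : mex t (⟨i, b⟩ : MVar n) = 0 := h2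
        have hne : (⟨i, b⟩ : MVar n) ≠ ⟨i, a⟩ := by
          intro hcon
          apply hb
          simpa using hcon
        rw [if_neg hne, h3]
        simp
    · rw [h v hv]

private lemma lw_MD {R : Type*} [CommRing R] (i0 : ι) (h1 : d i0 = 1) (A : MIdx n d → R)
    (z z' : MVar n → R) (h : ∀ v : MVar n, v.1 ≠ i0 → z v = z' v) (a : Fin (n i0 + 1)) :
    MD A z ⟨i0, a⟩ = MD A z' ⟨i0, a⟩ := by
  unfold MD Dg
  refine Finset.sum_congr rfl (fun t _ => ?_)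
  rw [lw_dmon i0 h1 z z' h a t]

private lemma lw_repl_off {R : Type*} (i0 : ι) (Z : MVar n → R) (x : Fin (n i0 + 1) → R)
    (v : MVar n) (hv : v.1 ≠ i0) : repl i0 Z x v = Z v := by
  obtain ⟨i, a⟩ := v
  exact repl_ne i0 Z x i hv a

/-- the value of a form which is linear in the block `i0` -/
private lemma lw_val {R : Type*} [CommRing R] (i0 : ι) (h1 : d i0 = 1) (A : MIdx n d → R)
    (Z : MVar n → R) (x : Fin (n i0 + 1) → R) :
    MF A (repl i0 Z x) = ∑ a, x a * MD A Z ⟨i0, a⟩ := by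
  have he := m_euler A (repl i0 Z x) i0
  rw [h1, Nat.cast_one, one_mul] at he
  rw [← he]
  refine Finset.sum_congr rfl fun a _ => ?_
  rw [repl_self, lw_MD i0 h1 A (repl i0 Z x) Z (fun v hv => lw_repl_off i0 Z x v hv) a]

private lemma lw_single {R : Type*} [CommRing R] (i0 : ι) (h1 : d i0 = 1) (A : MIdx n d → R)
    (Z : MVar n → R) (a : Fin (n i0 + 1)) :
    MD A Z ⟨i0, a⟩ = MF A (repl i0 Z (Pi.single a 1)) := by
  rw [lw_val i0 h1]
  rw [Finset.sum_eq_single a]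
  · simp
  · intro b _ hb
    simp [Pi.single_eq_of_ne hb]
  · intro h
    exact absurd (Finset.mem_univ _) h

private lemma lw_repl_map {R S : Type*} (f : R → S) (i0 : ι) (Z : MVar n → R)
    (x : Fin (n i0 + 1) → R) :
    (fun v => f (repl i0 Z x v)) = repl i0 (fun v => f (Z v)) (fun a => f (x a)) := by
  funext v
  obtain ⟨i, a⟩ := v
  by_cases hi : i = i0
  · subst hi
    rw [repl_self, repl_self]
  · rw [repl_ne _ _ _ _ hi, repl_ne _ _ _ _ hi]

end multi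

/-! ### Valuations and approximation -/

section approx
variable {K : Type} [Field K] [NumberField K]

private theorem lw_bot (W : ℕ) (hW : 0 < W) (P : Ideal (𝓞 K)) (h : (W : 𝓞 K) ∈ P) : P ≠ ⊥ := by
  have hWne : (W : 𝓞 K) ≠ 0 := by exact_mod_cast hW.ne'
  rintro rfl
  exact hWne (by simpa using h)

private theorem lw_exists_val (P : Ideal (𝓞 K)) (hP : P.IsMaximal) (hP0 : P ≠ ⊥) {x : 𝓞 K}
    (hx : x ≠ 0) : ∃ c : ℕ, x ∈ P ^ c ∧ x ∉ P ^ (c + 1) := by
  have hPp : Prime P := Ideal.prime_of_isPrime hP0 hP.isPrime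
  have hfin : FiniteMultiplicity P (Ideal.span {x}) :=
    FiniteMultiplicity.of_prime_left hPp (by
      rw [Ne, Ideal.zero_eq_bot, Ideal.span_singleton_eq_bot]
      exact hx)
  refine ⟨multiplicity P (Ideal.span {x}), ?_, fun h => ?_⟩
  · exact Ideal.dvd_span_singleton.1 (pow_multiplicity_dvd _ _)
  · exact hfin.not_pow_dvd_of_multiplicity_lt (Nat.lt_succ_self _) (Ideal.dvd_span_singleton.2 h)

private theorem lw_val_mul (P : Ideal (𝓞 K)) (hP : P.IsMaximal) (hP0 : P ≠ ⊥) {x y : 𝓞 K}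
    {a b : ℕ} (hx : x ∈ P ^ a) (hx' : x ∉ P ^ (a + 1)) (hy : y ∈ P ^ b) (hy' : y ∉ P ^ (b + 1)) :
    x * y ∈ P ^ (a + b) ∧ x * y ∉ P ^ (a + b + 1) := by
  have hPp : Prime P := Ideal.prime_of_isPrime hP0 hP.isPrime
  have h1 : emultiplicity P (Ideal.span {x}) = a := emultiplicity_eq_coe.2
    ⟨Ideal.dvd_span_singleton.2 hx, fun h => hx' (Ideal.dvd_span_singleton.1 h)⟩
  have h2 : emultiplicity P (Ideal.span {y}) = b := emultiplicity_eq_coe.2
    ⟨Ideal.dvd_span_singleton.2 hy, fun h => hy' (Ideal.dvd_span_singleton.1 h)⟩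
  have h3 : emultiplicity P (Ideal.span {x * y}) = ((a + b : ℕ) : ℕ∞) := by
    rw [← Ideal.span_singleton_mul_span_singleton, emultiplicity_mul hPp, h1, h2]
    push_cast
    rfl
  have h4 := emultiplicity_eq_coe.1 h3
  exact ⟨Ideal.dvd_span_singleton.1 h4.1, fun h => h4.2 (Ideal.dvd_span_singleton.2 h)⟩

/-- simultaneous congruences modulo powers of the primes containing `W` -/
private theorem lw_approx (W : ℕ) (hW : 0 < W) (m : ℕ) (e : Ideal (𝓞 K) → ℕ)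
    (f : Ideal (𝓞 K) → Fin (m + 1) → 𝓞 K) :
    ∃ (t0 : Fin (m + 1) → 𝓞 K) (Q : ℕ), 0 < Q ∧
      (∀ P : Ideal (𝓞 K), P.IsMaximal → (W : 𝓞 K) ∈ P → (Q : 𝓞 K) ∈ P ^ e P) ∧
      ∀ P : Ideal (𝓞 K), P.IsMaximal → (W : 𝓞 K) ∈ P → ∀ a, t0 a - f P a ∈ P ^ e P := by
  classical
  have hWne : (W : 𝓞 K) ≠ 0 := by exact_mod_cast hW.ne'
  obtain ⟨Wi, hWi⟩ : ∃ Wi : Ideal (𝓞 K), Wi = Ideal.span {(W : 𝓞 K)} := ⟨_, rfl⟩
  have hWi0 : Wi ≠ ⊥ := by
    rw [hWi, Ne, Ideal.span_singleton_eq_bot]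
    exact hWne
  obtain ⟨S, hS⟩ : ∃ S : Finset (Ideal (𝓞 K)),
    S = (UniqueFactorizationMonoid.normalizedFactors Wi).toFinset := ⟨_, rfl⟩
  have hSmem : ∀ P, P ∈ S ↔ P.IsPrime ∧ Wi ≤ P := fun P => by
    rw [hS, Multiset.mem_toFinset, Ideal.mem_normalizedFactors_iff hWi0]
  have hSbot : ∀ P ∈ S, P ≠ ⊥ := by
    intro P hP h0
    have := ((hSmem P).1 hP).2
    rw [h0] at this
    exact hWi0 (le_bot_iff.1 this)
  have hSprime : ∀ P ∈ S, Prime P := fun P hP =>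
    Ideal.prime_of_isPrime (hSbot P hP) ((hSmem P).1 hP).1
  have hSof : ∀ P : Ideal (𝓞 K), P.IsMaximal → (W : 𝓞 K) ∈ P → P ∈ S := fun P hP h => by
    rw [hSmem]
    refine ⟨hP.isPrime, ?_⟩
    rw [hWi, Ideal.span_singleton_le_iff_mem]
    exact h
  choose y hy using fun a : Fin (m + 1) => IsDedekindDomain.exists_forall_sub_mem_ideal (s := S)
    (fun P : Ideal (𝓞 K) => P) e hSprime (fun i _ j _ h => h) (fun P => f P a)
  refine ⟨y, W ^ (∑ P ∈ S, e P), pow_pos hW _, fun P hP h => ?_,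
    fun P hP h a => hy a P (hSof P hP h)⟩
  rw [Nat.cast_pow]
  exact Ideal.pow_le_pow_right (Finset.single_le_sum (fun _ _ => Nat.zero_le _) (hSof P hP h))
    (Ideal.pow_mem_pow h _)

/-- a zero of a linear form near given approximate zeros -/
private theorem lw_solve (W : ℕ) (hW : 0 < W) (m : ℕ) (g : Fin (m + 1) → 𝓞 K)
    (aP : Ideal (𝓞 K) → ℕ) (k : ℕ) (xp : Ideal (𝓞 K) → Fin (m + 1) → 𝓞 K)
    (hP : ∀ P : Ideal (𝓞 K), P.IsMaximal → (W : 𝓞 K) ∈ P → k ≤ aP P ∧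
      (∑ a, xp P a * g a) ∈ P ^ (2 * aP P) ∧ ∃ b, g b ∉ P ^ (aP P))
    (xi : InfinitePlace K → Fin (m + 1) → ℂ)
    (hxi : ∀ w : InfinitePlace K, w.IsReal → ∀ a, (xi w a).im = 0) (del : ℝ) (hdel : 0 < del)
    (hI : ∀ w : InfinitePlace K, ∃ b, g b ≠ 0 ∧
      ‖∑ a, xi w a * sg w (g a)‖ ≤ del / 2 * ‖sg w (g b)‖) :
    ∃ x : Fin (m + 1) → 𝓞 K, (∑ a, x a * g a = 0) ∧
      (∀ P : Ideal (𝓞 K), P.IsMaximal → (W : 𝓞 K) ∈ P → ∃ (c : 𝓞 K) (t : ℕ),
        c ∈ P ^ t ∧ c ∉ P ^ (t + 1) ∧ ∀ a, x a - c * xp P a ∈ P ^ (k + t)) ∧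
      ∀ w : InfinitePlace K, ∃ c : ℂ, c ≠ 0 ∧ (w.IsReal → c.im = 0) ∧
        ∀ a, ‖sg w (x a) - c * xi w a‖ ≤ del * ‖c‖ := by
  classical
  obtain ⟨w0⟩ : Nonempty (InfinitePlace K) := inferInstance
  obtain ⟨b0, hb0, -⟩ := hI w0
  choose bI hbI0 hbI using hI
  -- the indices at the primes
  have hbP' : ∀ P : Ideal (𝓞 K), ∃ b, P.IsMaximal → (W : 𝓞 K) ∈ P → g b ∉ P ^ (aP P) := by
    intro P
    by_cases h : P.IsMaximal ∧ (W : 𝓞 K) ∈ P
    · obtain ⟨-, -, b, hb⟩ := hP P h.1 h.2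
      exact ⟨b, fun _ _ => hb⟩
    · exact ⟨0, fun h1 h2 => absurd ⟨h1, h2⟩ h⟩
  choose bP hbP using hbP'
  have hc0' : ∀ P : Ideal (𝓞 K), ∃ c : ℕ, P.IsMaximal → (W : 𝓞 K) ∈ P →
      g b0 ∈ P ^ c ∧ g b0 ∉ P ^ (c + 1) := by
    intro P
    by_cases h : P.IsMaximal ∧ (W : 𝓞 K) ∈ P
    · obtain ⟨c, hc⟩ := lw_exists_val P h.1 (lw_bot W hW P h.2) hb0
      exact ⟨c, fun _ _ => hc⟩
    · exact ⟨0, fun h1 h2 => absurd ⟨h1, h2⟩ h⟩
  choose c0 hc0 using hc0'
  obtain ⟨xP, hxP⟩ : ∃ xP : Ideal (𝓞 K) → Fin (m + 1) → 𝓞 K, ∀ P a, xP P a =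
      g (bP P) * xp P a - (if a = bP P then ∑ a', xp P a' * g a' else 0) := ⟨_, fun _ _ => rfl⟩
  have hxP0 : ∀ P, ∑ a, xP P a * g a = 0 := by
    intro P
    simp only [hxP, sub_mul, Finset.sum_sub_distrib, ite_mul, zero_mul, Finset.sum_ite_eq',
      Finset.mem_univ, if_true]
    have : ∑ a, g (bP P) * xp P a * g a = g (bP P) * ∑ a, xp P a * g a := by
      rw [Finset.mul_sum]
      exact Finset.sum_congr rfl fun a _ => by ring
    rw [this]
    ring
  obtain ⟨t0, Q, hQ0, hQP, ht0⟩ := lw_approx W hW m (fun P => c0 P + 2 * aP P) xP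
  have hQr : (0 : ℝ) < Q := by exact_mod_cast hQ0
  have hQc : (Q : ℂ) ≠ 0 := by exact_mod_cast hQ0.ne'
  -- the infinite places
  obtain ⟨xw, hxw⟩ : ∃ xw : InfinitePlace K → Fin (m + 1) → ℂ, ∀ w a, xw w a =
      sg w (g (bI w)) * xi w a - (if a = bI w then ∑ a', xi w a' * sg w (g a') else 0) :=
    ⟨_, fun _ _ => rfl⟩
  have hxw0 : ∀ w, ∑ a, xw w a * sg w (g a) = 0 := by
    intro w
    simp only [hxw, sub_mul, Finset.sum_sub_distrib, ite_mul, zero_mul, Finset.sum_ite_eq',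
      Finset.mem_univ, if_true]
    have : ∑ a, sg w (g (bI w)) * xi w a * sg w (g a) =
        sg w (g (bI w)) * ∑ a, xi w a * sg w (g a) := by
      rw [Finset.mul_sum]
      exact Finset.sum_congr rfl fun a _ => by ring
    rw [this]
    ring
  have hxwr : ∀ a, RV fun w => xw w a := by
    intro a
    have h2 : ∀ a', RV fun w : InfinitePlace K => xi w a' := fun a' w hw => hxi w hw a'
    have h4 : RV fun w => ∑ a', xi w a' * sg w (g a') :=
      RV_sum _ fun a' _ => RV_mul (h2 a') (RV_sg _)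
    intro w hw
    show (xw w a).im = 0
    rw [hxw, Complex.sub_im]
    have h5 : (sg w (g (bI w)) * xi w a).im = 0 := by
      rw [Complex.mul_im, RV_sg (g (bI w)) w hw, hxi w hw a, mul_zero, zero_mul, add_zero]
    rw [h5]
    split_ifs
    · rw [h4 w hw, sub_zero]
    · rw [Complex.zero_im, sub_zero]
  have hcK := cK_pos (K := K)
  obtain ⟨E, hE⟩ : ∃ E : InfinitePlace K → ℝ, ∀ w, E w =
      (‖sg w (g b0)‖ + ∑ a, ‖sg w (g a)‖) * (cK K * Q) := ⟨_, fun _ => rfl⟩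
  have hE0 : ∀ w, 0 ≤ E w := fun w => by
    rw [hE]
    exact mul_nonneg (add_nonneg (norm_nonneg _) (Finset.sum_nonneg fun _ _ => norm_nonneg _))
      (by positivity)
  obtain ⟨den, hden⟩ : ∃ den : InfinitePlace K → ℝ, ∀ w, den w =
      del / 2 * (‖sg w (g b0)‖ * ‖sg w (g (bI w))‖) := ⟨_, fun _ => rfl⟩
  have hden0 : ∀ w, 0 < den w := fun w => by
    rw [hden]
    have h1 := norm_sg_pos w hb0
    have h2 := norm_sg_pos w (hbI0 w)
    positivity
  obtain ⟨T, hT⟩ := exists_nat_gt (∑ w, E w / den w)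
  have hT0 : (0 : ℝ) < T :=
    lt_of_le_of_lt (Finset.sum_nonneg fun w _ => div_nonneg (hE0 w) (hden0 w).le) hT
  have hTE : ∀ w, E w ≤ T * den w := by
    intro w
    have h1 : E w / den w ≤ T := (Finset.single_le_sum (f := fun w => E w / den w)
      (fun w _ => div_nonneg (hE0 w) (hden0 w).le) (Finset.mem_univ w)).trans hT.le
    rwa [div_le_iff₀ (hden0 w)] at h1
  have hTc : (T : ℂ) ≠ 0 := by
    have : (T : ℝ) ≠ 0 := hT0.ne'
    exact_mod_cast this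
  have hrv : ∀ a, RV fun w : InfinitePlace K =>
      (((T : ℝ) : ℂ) * xw w a - sg w (t0 a)) / ((Q : ℝ) : ℂ) := fun a =>
    RV_div (RV_sub (RV_mul (RV_ofReal fun _ => (T : ℝ)) (hxwr a)) (RV_sg (t0 a)))
      (RV_ofReal fun _ => (Q : ℝ))
  choose rnd hrnd using fun a => exists_round (hrv a)
  obtain ⟨t, ht⟩ : ∃ t : Fin (m + 1) → 𝓞 K, ∀ a, t a = t0 a + (Q : 𝓞 K) * rnd a :=
    ⟨_, fun _ => rfl⟩
  have ht1 : ∀ w a, ‖sg w (t a) - T * xw w a‖ ≤ cK K * Q := by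
    intro w a
    have h1 := hrnd a w
    have h2 : sg w (t a) - T * xw w a =
        (Q : ℂ) * (sg w (rnd a) - (((T : ℝ) : ℂ) * xw w a - sg w (t0 a)) / ((Q : ℝ) : ℂ)) := by
      rw [ht, map_add, map_mul, sg_natCast]
      push_cast
      field_simp
      ring
    rw [h2, norm_mul, Complex.norm_natCast, mul_comm]
    exact mul_le_mul_of_nonneg_right h1 hQr.le
  have ht2 : ∀ P : Ideal (𝓞 K), P.IsMaximal → (W : 𝓞 K) ∈ P → ∀ a,
      t a - xP P a ∈ P ^ (c0 P + 2 * aP P) := by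
    intro P hP' h a
    have h2 : t a - xP P a = (t0 a - xP P a) + (Q : 𝓞 K) * rnd a := by
      rw [ht]
      ring
    rw [h2]
    exact Ideal.add_mem _ (ht0 P hP' h a) (Ideal.mul_mem_right _ _ (hQP P hP' h))
  obtain ⟨x, hx⟩ : ∃ x : Fin (m + 1) → 𝓞 K, ∀ a, x a =
      g b0 * t a - (if a = b0 then ∑ a', t a' * g a' else 0) := ⟨_, fun _ => rfl⟩
  refine ⟨x, ?_, ?_, ?_⟩
  · simp only [hx, sub_mul, Finset.sum_sub_distrib, ite_mul, zero_mul, Finset.sum_ite_eq',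
      Finset.mem_univ, if_true]
    have : ∑ a, g b0 * t a * g a = g b0 * ∑ a, t a * g a := by
      rw [Finset.mul_sum]
      exact Finset.sum_congr rfl fun a _ => by ring
    rw [this]
    ring
  · intro P hPm hWP
    obtain ⟨hk, hs, -⟩ := hP P hPm hWP
    have hP0 := lw_bot W hW P hWP
    have hgb : g (bP P) ≠ 0 := fun h => hbP P hPm hWP (by rw [h]; exact Ideal.zero_mem _)
    obtain ⟨c, hc1, hc2⟩ := lw_exists_val P hPm hP0 hgb
    have hca : c < aP P := by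
      by_contra hcon
      exact hbP P hPm hWP (Ideal.pow_le_pow_right (not_lt.1 hcon) hc1)
    obtain ⟨h1, h2⟩ := hc0 P hPm hWP
    obtain ⟨h3, h4⟩ := lw_val_mul P hPm hP0 h1 h2 hc1 hc2
    refine ⟨g b0 * g (bP P), c0 P + c, h3, h4, fun a => ?_⟩
    have hle : k + (c0 P + c) ≤ c0 P + 2 * aP P := by omega
    refine Ideal.pow_le_pow_right hle ?_
    have h5 : (∑ a', t a' * g a') ∈ P ^ (c0 P + 2 * aP P) := by
      have h6 : ∑ a', t a' * g a' = ∑ a', (t a' - xP P a') * g a' := by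
        simp only [sub_mul, Finset.sum_sub_distrib, hxP0, sub_zero]
      rw [h6]
      exact Ideal.sum_mem _ fun a' _ => Ideal.mul_mem_right _ _ (ht2 P hPm hWP a')
    have h7 : g b0 * (∑ a', xp P a' * g a') ∈ P ^ (c0 P + 2 * aP P) := by
      rw [pow_add]
      exact Ideal.mul_mem_mul h1 hs
    have h8 : x a - g b0 * g (bP P) * xp P a = g b0 * (t a - xP P a) -
        (if a = b0 then ∑ a', t a' * g a' else 0) -
        (if a = bP P then g b0 * ∑ a', xp P a' * g a' else 0) := by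
      rw [hx, hxP]
      split_ifs <;> ring
    rw [h8]
    refine Ideal.sub_mem _ (Ideal.sub_mem _ (Ideal.mul_mem_left _ _ (ht2 P hPm hWP a)) ?_) ?_
    · split_ifs
      · exact h5
      · exact Ideal.zero_mem _
    · split_ifs
      · exact h7
      · exact Ideal.zero_mem _
  · intro w
    refine ⟨T * sg w (g b0) * sg w (g (bI w)), ?_, ?_, fun a => ?_⟩
    · exact mul_ne_zero (mul_ne_zero hTc (sg_ne_zero w hb0)) (sg_ne_zero w (hbI0 w))
    · intro hw
      have h1 : RV fun w : InfinitePlace K => ((T : ℝ) : ℂ) * sg w (g b0) :=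
        RV_mul (RV_ofReal fun _ => (T : ℝ)) (RV_sg _)
      have h2 := RV_sg (K := K) (g (bI w)) w hw
      have h3 := h1 w hw
      have h4 : ((T : ℂ) * sg w (g b0)).im = 0 := by
        have : ((T : ℝ) : ℂ) = (T : ℂ) := by push_cast; rfl
        rw [← this]
        exact h3
      rw [Complex.mul_im, h4, h2, mul_zero, zero_mul, add_zero]
    · have h1 : sg w (x a) - T * sg w (g b0) * sg w (g (bI w)) * xi w a =
          sg w (g b0) * (sg w (t a) - T * xw w a) -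
          (if a = b0 then ∑ a', (sg w (t a') - T * xw w a') * sg w (g a') else 0) -
          (if a = bI w then T * sg w (g b0) * ∑ a', xi w a' * sg w (g a') else 0) := by
        have h2 : ∑ a', (sg w (t a') - T * xw w a') * sg w (g a') =
            ∑ a', sg w (t a') * sg w (g a') := by
          have h3 : ∑ a', (sg w (t a') - T * xw w a') * sg w (g a') =
              ∑ a', sg w (t a') * sg w (g a') - T * ∑ a', xw w a' * sg w (g a') := by
            rw [Finset.mul_sum, ← Finset.sum_sub_distrib]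
            exact Finset.sum_congr rfl fun a' _ => by ring
          rw [h3, hxw0, mul_zero, sub_zero]
        rw [h2, hx, hxw, map_sub, map_mul]
        have h4 : sg w (if a = b0 then ∑ a', t a' * g a' else 0) =
            if a = b0 then ∑ a', sg w (t a') * sg w (g a') else 0 := by
          split_ifs
          · simp only [map_sum, map_mul]
          · exact map_zero _
        rw [h4]
        split_ifs <;> ring
      have hb1 : ‖sg w (g b0) * (sg w (t a) - T * xw w a)‖ ≤ ‖sg w (g b0)‖ * (cK K * Q) := by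
        rw [norm_mul]
        exact mul_le_mul_of_nonneg_left (ht1 w a) (norm_nonneg _)
      have hb2 : ‖(if a = b0 then ∑ a', (sg w (t a') - T * xw w a') * sg w (g a') else 0)‖ ≤
          (∑ a, ‖sg w (g a)‖) * (cK K * Q) := by
        have h5 : 0 ≤ (∑ a, ‖sg w (g a)‖) * (cK K * Q) :=
          mul_nonneg (Finset.sum_nonneg fun _ _ => norm_nonneg _) (by positivity)
        split_ifs
        · refine (norm_sum_le _ _).trans ?_
          rw [Finset.sum_mul]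
          refine Finset.sum_le_sum fun a' _ => ?_
          rw [norm_mul, mul_comm]
          exact mul_le_mul_of_nonneg_left (ht1 w a') (norm_nonneg _)
        · rw [norm_zero]
          exact h5
      have hb3 : ‖(if a = bI w then T * sg w (g b0) * ∑ a', xi w a' * sg w (g a') else 0)‖ ≤
          T * den w := by
        have h5 : 0 ≤ T * den w := mul_nonneg hT0.le (hden0 w).le
        split_ifs
        · rw [norm_mul, norm_mul, Complex.norm_natCast, hden]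
          have h6 := mul_le_mul_of_nonneg_left (hbI w)
            (mul_nonneg hT0.le (norm_nonneg (sg w (g b0))))
          refine h6.trans (le_of_eq ?_)
          ring
        · rw [norm_zero]
          exact h5
      rw [h1]
      have h9 : ‖sg w (g b0)‖ * (cK K * Q) + (∑ a, ‖sg w (g a)‖) * (cK K * Q) = E w := by
        rw [hE]
        ring
      have h10 : T * den w + T * den w = del * ‖(T : ℂ) * sg w (g b0) * sg w (g (bI w))‖ := by
        rw [norm_mul, norm_mul, Complex.norm_natCast, hden]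
        ring
      calc _ ≤ ‖sg w (g b0) * (sg w (t a) - T * xw w a)‖ +
            ‖(if a = b0 then ∑ a', (sg w (t a') - T * xw w a') * sg w (g a') else 0)‖ +
            ‖(if a = bI w then T * sg w (g b0) * ∑ a', xi w a' * sg w (g a') else 0)‖ :=
            (norm_sub_le _ _).trans (add_le_add_left (norm_sub_le _ _) _)
        _ ≤ E w + T * den w := by linarith
        _ ≤ T * den w + T * den w := by linarith [hTE w]
        _ = _ := h10

end approx

/-! ### The class theorem -/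

section final
variable {ι : Type} [Fintype ι] [DecidableEq ι]

private theorem lw_Q {K : Type} [Field K] [NumberField K] (W k : ℕ) (hW : 0 < W)
    (P : Ideal (𝓞 K)) (hP : P.IsMaximal) (h : (W : 𝓞 K) ∈ P) :
    ((W ^ (2 * k) : ℕ) : 𝓞 K) ∈ P ^ (2 * (k * vW W P)) ∧ 1 ≤ vW W P := by
  have hWne : (W : 𝓞 K) ≠ 0 := by exact_mod_cast hW.ne'
  have hP0 : P ≠ ⊥ := lw_bot W hW P h
  have hPp : Prime P := Ideal.prime_of_isPrime hP0 hP.isPrime
  have h1 : P ^ vW W P ∣ Ideal.span {(W : 𝓞 K)} := pow_multiplicity_dvd _ _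
  have h2 : (W : 𝓞 K) ∈ P ^ vW W P := Ideal.dvd_span_singleton.1 h1
  refine ⟨?_, ?_⟩
  · have h3 := Ideal.pow_mem_pow h2 (2 * k)
    rw [← pow_mul] at h3
    rw [Nat.cast_pow]
    have h4 : vW W P * (2 * k) = 2 * (k * vW W P) := by ring
    rwa [h4] at h3
  · unfold vW
    rw [Nat.one_le_iff_ne_zero]
    intro h3
    rw [multiplicity_eq_zero] at h3
    exact h3 (Ideal.dvd_span_singleton.2 h)

private theorem lw_inf {n d : ι → ℕ} (C : MIdx n d → ℂ) (z : MVar n → ℂ) (v : MVar n)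
    (f f' g g' : ℝ) (hf : f < f') (hg : g' < g) (hF : ‖MF C z‖ ≤ f) (hD : g ≤ ‖MD C z v‖) :
    ∃ delta : ℝ, 0 < delta ∧ ∀ Z : MVar n → ℂ, (∀ u, ‖Z u - z u‖ ≤ delta) →
      ‖MF C Z‖ ≤ f' ∧ g' ≤ ‖MD C Z v‖ := by
  have hc1 : Continuous fun Z : MVar n → ℂ => ‖MD C Z v‖ := by
    unfold MD Dg dmon
    fun_prop
  have hc2 : Continuous fun Z : MVar n → ℂ => ‖MF C Z‖ := by
    unfold MF Fg mon
    fun_prop
  have ho1 : {Z : MVar n → ℂ | g' < ‖MD C Z v‖} ∈ 𝓝 z :=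
    (isOpen_lt continuous_const hc1).mem_nhds (lt_of_lt_of_le hg hD)
  have ho2 : {Z : MVar n → ℂ | ‖MF C Z‖ < f'} ∈ 𝓝 z :=
    (isOpen_lt hc2 continuous_const).mem_nhds (lt_of_le_of_lt hF hf)
  obtain ⟨eps, heps, hball⟩ := Metric.mem_nhds_iff.mp (Filter.inter_mem ho1 ho2)
  refine ⟨eps / 2, by positivity, fun Z hZ => ?_⟩
  have hZ' : Z ∈ Metric.ball z eps := by
    rw [Metric.mem_ball]
    refine lt_of_le_of_lt ((dist_pi_le_iff (by positivity : (0 : ℝ) ≤ eps / 2)).mpr fun v => ?_)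
      (half_lt_self heps)
    rw [dist_eq_norm]
    exact hZ v
  have h := hball hZ'
  exact ⟨h.2.le, le_of_lt h.1⟩

private theorem lw_MD_repl {n d : ι → ℕ} {R : Type*} [CommRing R] (i0 : ι) (h1 : d i0 = 1)
    (A : MIdx n d → R) (Z : MVar n → R) (x : Fin (n i0 + 1) → R) (a : Fin (n i0 + 1)) :
    MD A (repl i0 Z x) ⟨i0, a⟩ = MD A Z ⟨i0, a⟩ :=
  lw_MD i0 h1 A (repl i0 Z x) Z (fun v hv => lw_repl_off i0 Z x v hv) a

/-- the linear form at a prime -/
private theorem lw_local {K : Type} [Field K] [NumberField K] {n d : ι → ℕ} (i0 : ι)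
    (hd0 : d i0 = 1) (P : Ideal (𝓞 K)) (v : ℕ) (A A0 : MIdx n d → 𝓞 K) (Y zp : MVar n → 𝓞 K)
    (hA : ∀ t, A t - A0 t ∈ P ^ (2 * v))
    (hY : ∀ (i : ι) (a : Fin (n i + 1)), i ≠ i0 → Y ⟨i, a⟩ - zp ⟨i, a⟩ ∈ P ^ (2 * v))
    (hF : MF A0 zp ∈ P ^ (2 * v)) (b : Fin (n i0 + 1)) (hD : MD A0 zp ⟨i0, b⟩ ∉ P ^ v) :
    (∑ a, zp ⟨i0, a⟩ * MD A Y ⟨i0, a⟩) ∈ P ^ (2 * v) ∧ MD A Y ⟨i0, b⟩ ∉ P ^ v := by
  obtain ⟨f, hf⟩ : ∃ f : 𝓞 K →+* 𝓞 K ⧸ P ^ (2 * v), f = Ideal.Quotient.mk (P ^ (2 * v)) := ⟨_, rfl⟩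
  have hfA : (fun t => f (A t)) = fun t => f (A0 t) := by
    funext t
    rw [hf]
    exact Ideal.Quotient.eq.mpr (hA t)
  have hfz : (fun v => f (repl i0 Y (fun a => zp ⟨i0, a⟩) v)) = fun v => f (zp v) := by
    funext u
    obtain ⟨i, a⟩ := u
    by_cases hi : i = i0
    · subst hi
      rw [repl_self]
    · rw [repl_ne _ _ _ _ hi, hf]
      exact Ideal.Quotient.eq.mpr (hY i a hi)
  constructor
  · rw [← lw_val i0 hd0]
    have h2 : f (MF A (repl i0 Y (fun a => zp ⟨i0, a⟩))) = f (MF A0 zp) := by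
      rw [← MF_map f, ← MF_map f, hfA, hfz]
    rw [hf] at h2
    have h3 := Ideal.Quotient.eq.mp h2
    have h4 := Ideal.add_mem _ h3 hF
    rwa [sub_add_cancel] at h4
  · intro hcon
    apply hD
    have h2 : f (MD A (repl i0 Y (fun a => zp ⟨i0, a⟩)) ⟨i0, b⟩) = f (MD A0 zp ⟨i0, b⟩) := by
      rw [← MD_map f, ← MD_map f, hfA, hfz]
    rw [lw_MD_repl i0 hd0, hf] at h2
    have h3 := Ideal.pow_le_pow_right (show v ≤ 2 * v by omega) (Ideal.Quotient.eq.mp h2)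
    have h4 := Ideal.sub_mem _ hcon h3
    rwa [sub_sub_cancel] at h4

/-- the value and the derivative of a form near `H C` -/
private theorem lw_place {n d : ι → ℕ} (B C : MIdx n d → ℂ) (Z : MVar n → ℂ) (v : MVar n)
    (H eta rho0 CC bet del : ℝ) (hH : 0 < H) (heta : ∀ t, ‖B t - (H : ℂ) * C t‖ ≤ eta)
    (hZ : ∀ v, ‖Z v‖ ≤ 2) (hMF : ‖MF C Z‖ ≤ 2 * rho0) (hMD : bet / 2 ≤ ‖MD C Z v‖)
    (h1 : (NM n d : ℝ) * eta * 2 ^ (∑ i, d i) ≤ CC * rho0 * H)
    (h2 : (NM n d : ℝ) * (∑ i, d i : ℕ) * eta * 2 ^ (∑ i, d i) ≤ CC * rho0 * H)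
    (hbet : 0 < bet) (hr0 : 0 < rho0) (hr : (2 + CC) * rho0 = del * bet / 8) (hdel : del ≤ 1) :
    ‖MF B Z‖ ≤ (2 + CC) * rho0 * H ∧ bet / 4 * H ≤ ‖MD B Z v‖ := by
  constructor
  · have h3 := MFC_norm_le (fun t => B t - (H : ℂ) * C t) Z eta 2 (by norm_num) heta hZ
    rw [MF_sub, MF_smul] at h3
    have h4 : ‖(H : ℂ) * MF C Z‖ ≤ H * (2 * rho0) := by
      rw [norm_mul, Complex.norm_real, Real.norm_eq_abs, abs_of_pos hH]
      exact mul_le_mul_of_nonneg_left hMF hH.le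
    have h6 := norm_add_le (MF B Z - (H : ℂ) * MF C Z) ((H : ℂ) * MF C Z)
    rw [sub_add_cancel] at h6
    have h7 : (2 + CC) * rho0 * H = CC * rho0 * H + H * (2 * rho0) := by ring
    rw [h7]
    exact h6.trans (add_le_add (h3.trans h1) h4)
  · have h3 := MDC_norm_le (fun t => B t - (H : ℂ) * C t) Z v eta 2 (by norm_num) heta hZ
    rw [MD_sub, MD_smul] at h3
    have h4 : H * (bet / 2) ≤ ‖(H : ℂ) * MD C Z v‖ := by
      rw [norm_mul, Complex.norm_real, Real.norm_eq_abs, abs_of_pos hH]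
      exact mul_le_mul_of_nonneg_left hMD hH.le
    have h7 : ‖(H : ℂ) * MD C Z v‖ ≤ ‖MD B Z v‖ + ‖MD B Z v - (H : ℂ) * MD C Z v‖ := by
      have := norm_sub_le (MD B Z v) (MD B Z v - (H : ℂ) * MD C Z v)
      rwa [sub_sub_cancel] at this
    have h8 : CC * rho0 * H ≤ bet / 4 * H := by
      refine mul_le_mul_of_nonneg_right ?_ hH.le
      nlinarith
    have h9 := h3.trans h2
    linarith

/-- scaling of the blocks -/
private theorem lw_scale {n d : ι → ℕ} (i0 : ι) (hd0 : d i0 = 1) (B : MIdx n d → ℂ)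
    (S Z : MVar n → ℂ) (x : Fin (n i0 + 1) → ℂ) (c : ι → ℂ) (hc : c i0 = 1)
    (hS : repl i0 S x = fun v => c v.1 * Z v) :
    (∑ a, x a * MD B S ⟨i0, a⟩ = (∏ i, c i ^ d i) * MF B Z) ∧
      ∀ b, MD B S ⟨i0, b⟩ = (∏ i, c i ^ d i) * MD B Z ⟨i0, b⟩ := by
  constructor
  · rw [← lw_val i0 hd0, hS, MF_scale]
  · intro b
    have h1 := MD_scale c B Z ⟨i0, b⟩
    rw [← hS, lw_MD_repl i0 hd0] at h1
    have h2 : c (⟨i0, b⟩ : MVar n).1 = 1 := hc
    rw [h2, one_mul] at h1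
    exact h1

theorem cls_of_linearW (K : Type) [Field K] [NumberField K] (n : ι → ℕ) (d : Fin 1 → ι → ℕ)
    (hd : ∀ j i, 1 ≤ d j i) (hn : ∀ i, 1 ≤ n i) (i0 : ι) (hd0 : d 0 i0 = 1) :
    PCLSW K n d i0 := by
  classical
  intro eps heps
  refine ⟨0, fun w _ hw bet hb hb1 del hdel => ?_⟩
  have hcK := cK_pos (K := K)
  -- the constants
  obtain ⟨del', hdel'⟩ : ∃ del' : ℝ, del' = min del (1 / 2) := ⟨_, rfl⟩
  have hd'0 : 0 < del' := by rw [hdel']; exact lt_min hdel (by norm_num)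
  have hd'1 : del' ≤ del := by rw [hdel']; exact min_le_left _ _
  have hd'2 : del' ≤ 1 / 2 := by rw [hdel']; exact min_le_right _ _
  obtain ⟨dd, hdd⟩ : ∃ dd : ℕ, dd = ∑ i, d 0 i := ⟨_, rfl⟩
  obtain ⟨CC, hCC⟩ : ∃ CC : ℝ, CC = NM n (d 0) * (dd + 1 : ℝ) * (2 * cK K) * 2 ^ dd := ⟨_, rfl⟩
  have hCC0 : 0 ≤ CC := by rw [hCC]; positivity
  obtain ⟨rho0, hrho0⟩ : ∃ rho0 : ℝ, rho0 = del' * bet / (8 * (2 + CC)) := ⟨_, rfl⟩
  have hr0 : 0 < rho0 := by rw [hrho0]; positivity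
  have hr1 : (2 + CC) * rho0 = del' * bet / 8 := by
    rw [hrho0]
    field_simp
  have hr2 : rho0 ≤ 1 := by nlinarith
  refine ⟨rho0, hr0, hr2, ?_⟩
  intro rho hrho hrho1 k hk A0 zp hzp AC Ainf zi hAinf hACi hGI
  obtain ⟨W, hWdef⟩ : ∃ W : ℕ, W = primorial w := ⟨_, rfl⟩
  have hW0 : 0 < W := by rw [hWdef]; exact primorial_pos w
  -- the points at the infinite places
  have hz : ∀ w', BPtI w' (zi w') := fun w' => (hGI w').1
  have hD0 : ∀ w', ∃ b : Fin (n i0 + 1), bet ≤ ‖MD (sysPC Ainf w' 0) (zi w') ⟨i0, b⟩‖ := by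
    intro w'
    obtain ⟨-, -, J, hJ⟩ := hGI w'
    rw [Matrix.det_fin_one] at hJ
    exact ⟨J 0, hJ⟩
  choose bI hbI using hD0
  have hpert0 : ∀ w' : InfinitePlace K, ∃ delta : ℝ, 0 < delta ∧ ∀ Z : MVar n → ℂ,
      (∀ v, ‖Z v - zi w' v‖ ≤ delta) →
      ‖MF (sysPC Ainf w' 0) Z‖ ≤ 2 * rho0 ∧
        bet / 2 ≤ ‖MD (sysPC Ainf w' 0) Z ⟨i0, bI w'⟩‖ := fun w' =>
    lw_inf (sysPC Ainf w' 0) (zi w') ⟨i0, bI w'⟩ rho0 (2 * rho0) bet (bet / 2) (by linarith)
      (by linarith) ((hGI w').2.1 0) (hbI w')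
  choose delf hdelf hpert using hpert0
  obtain ⟨del0, hdel0, hdelm⟩ : ∃ del0 : ℝ, 0 < del0 ∧ ∀ w', del0 ≤ delf w' := by
    obtain ⟨v, -, hv⟩ := Finset.exists_min_image (univ : Finset (InfinitePlace K)) delf
      ⟨Classical.arbitrary _, mem_univ _⟩
    exact ⟨delf v, hdelf v, fun w' => hv w' (mem_univ _)⟩
  obtain ⟨delta, hdelta⟩ : ∃ delta : ℝ, delta = min del0 del' := ⟨_, rfl⟩
  have hdl : 0 < delta := by rw [hdelta]; exact lt_min hdel0 hd'0
  have hdl1 : delta ≤ del0 := by rw [hdelta]; exact min_le_left _ _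
  have hdl2 : delta ≤ del' := by rw [hdelta]; exact min_le_right _ _
  -- the integral point
  have hy0 : ∀ i : ι, ∃ (y : Fin (n i + 1) → 𝓞 K) (N : ℕ), 0 < N ∧ NFHP.Prim y ∧
      (∀ P : Ideal (𝓞 K), P.IsMaximal → (primorial w : 𝓞 K) ∈ P →
        ∀ a, y a - zp P ⟨i, a⟩ ∈ P ^ (2 * (k * vW (primorial w) P))) ∧
      ∀ w' a, ‖sg w' (y a) / N - zi w' ⟨i, a⟩‖ ≤ delta := by
    intro i
    exact exists_prim_approx w k (n i) hw hk (hn i) (fun P a => zp P ⟨i, a⟩)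
      (fun P hP hPw => (hzp P hP hPw).1 i) (fun w' a => zi w' ⟨i, a⟩)
      (fun w' => ⟨fun h a => (hz w').1 h _, fun a => (hz w').2.1 _, (hz w').2.2 i⟩) delta hdl
  choose y N hN hyP hyp hyd using hy0
  rw [← hWdef] at hyp hzp ⊢
  obtain ⟨Y, hY⟩ : ∃ Y : MVar n → 𝓞 K, ∀ v, Y v = y v.1 v.2 := ⟨_, fun _ => rfl⟩
  have hNR : ∀ i, (0 : ℝ) < N i := fun i => by exact_mod_cast hN i
  have hNC : ∀ i, (N i : ℂ) ≠ 0 := fun i => by exact_mod_cast (hN i).ne'
  have hNc : ∀ i, ‖(N i : ℂ)‖ = N i := fun i => Complex.norm_natCast _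
  obtain ⟨c, hc⟩ : ∃ c : ι → ℂ, ∀ i, c i = if i = i0 then 1 else (N i : ℂ) := ⟨_, fun _ => rfl⟩
  have hc0 : ∀ i, c i ≠ 0 := by
    intro i
    rw [hc]
    split_ifs
    · exact one_ne_zero
    · exact hNC i
  obtain ⟨V, hV⟩ : ∃ V : ℂ, V = ∏ i, c i ^ d 0 i := ⟨_, rfl⟩
  have hV0 : V ≠ 0 := by
    rw [hV]
    exact Finset.prod_ne_zero_iff.2 fun i _ => pow_ne_zero _ (hc0 i)
  have hVn : 0 < ‖V‖ := norm_pos_iff.2 hV0
  obtain ⟨Z, hZ⟩ : ∃ Z : InfinitePlace K → MVar n → ℂ, ∀ w' u, Z w' u =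
      if u.1 = i0 then zi w' u else sg w' (Y u) / (N u.1 : ℂ) := ⟨_, fun _ _ => rfl⟩
  have hZd : ∀ w' u, ‖Z w' u - zi w' u‖ ≤ delta := by
    rintro w' ⟨i, b⟩
    rw [hZ]
    by_cases hi : i = i0
    · rw [if_pos hi, sub_self, norm_zero]
      exact hdl.le
    · rw [if_neg hi, hY]
      exact hyd i w' b
  have hZ2 : ∀ w' u, ‖Z w' u‖ ≤ 2 := by
    intro w' u
    have h1 := hZd w' u
    have h2 := (hz w').2.1 u
    have h3 : ‖Z w' u‖ ≤ ‖Z w' u - zi w' u‖ + ‖zi w' u‖ := by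
      have := norm_add_le (Z w' u - zi w' u) (zi w' u)
      rwa [sub_add_cancel] at this
    linarith
  have hZrepl : ∀ w', repl i0 (fun v => sg w' (Y v)) (fun a => zi w' ⟨i0, a⟩) =
      fun v => c v.1 * Z w' v := by
    intro w'
    funext v
    obtain ⟨i, a⟩ := v
    by_cases hi : i = i0
    · subst hi
      rw [repl_self, hc, hZ, if_pos rfl, if_pos rfl, one_mul]
    · rw [repl_ne _ _ _ _ hi, hc, hZ, if_neg hi, if_neg hi]
      show sg w' (Y ⟨i, a⟩) = (N i : ℂ) * (sg w' (Y ⟨i, a⟩) / (N i : ℂ))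
      field_simp [hNC i]
  filter_upwards [eventually_gt_atTop 0] with H hH
  suffices hemp : {A : PSys n d (𝓞 K) |
          (∀ j t l, |(crd (A j t) l : ℝ) - H * AC j t l| ≤ rho * H) ∧
          (∀ j t, ((W ^ (2 * k) : ℕ) : 𝓞 K) ∣ A j t - A0 j t) ∧
          ¬ SolNear w k del zp zi A} = ∅ by
    rw [hemp, Set.ncard_empty, Nat.cast_zero]
    positivity
  rw [Set.eq_empty_iff_forall_notMem]
  rintro A ⟨hA1, hA2, hA3⟩
  apply hA3
  -- the linear form
  obtain ⟨g, hg⟩ : ∃ g : Fin (n i0 + 1) → 𝓞 K, ∀ a, g a = MD (A 0) Y ⟨i0, a⟩ := ⟨_, fun _ => rfl⟩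
  obtain ⟨xp, hxp⟩ : ∃ xp : Ideal (𝓞 K) → Fin (n i0 + 1) → 𝓞 K, ∀ P a, xp P a = zp P ⟨i0, a⟩ :=
    ⟨_, fun _ _ => rfl⟩
  have hloc : ∀ P : Ideal (𝓞 K), P.IsMaximal → (W : 𝓞 K) ∈ P → k ≤ k * vW W P ∧
      (∑ a, xp P a * g a) ∈ P ^ (2 * (k * vW W P)) ∧ ∃ b, g b ∉ P ^ (k * vW W P) := by
    intro P hP hWP
    obtain ⟨hQ, hv1⟩ := lw_Q W k hW0 P hP hWP
    obtain ⟨hzu, hF, J, hJ⟩ := hzp P hP hWP
    rw [Matrix.det_fin_one] at hJ
    have h1 := lw_local i0 hd0 P (k * vW W P) (A 0) (A0 0) Y (zp P) (fun t => by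
      obtain ⟨q, hq⟩ := hA2 0 t
      rw [hq]
      exact Ideal.mul_mem_right _ _ hQ) (fun i a _ => by
      rw [hY]
      exact hyp i P hP hWP a) (hF 0) (J 0) hJ
    refine ⟨Nat.le_mul_of_pos_right k hv1, ?_, J 0, ?_⟩
    · have h2 : ∑ a, xp P a * g a = ∑ a, zp P ⟨i0, a⟩ * MD (A 0) Y ⟨i0, a⟩ :=
        Finset.sum_congr rfl fun a _ => by rw [hg, hxp]
      rw [h2]
      exact h1.1
    · rw [hg]
      exact h1.2
  -- the infinite places
  have hinf : ∀ w' : InfinitePlace K, ∃ b, g b ≠ 0 ∧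
      ‖∑ a, zi w' ⟨i0, a⟩ * sg w' (g a)‖ ≤ del' / 2 * ‖sg w' (g b)‖ := by
    intro w'
    obtain ⟨hMFr, hMDr⟩ := hpert w' (Z w') fun u => (hZd w' u).trans (hdl1.trans (hdelm w'))
    -- the difference of the systems
    have hdiff : ∀ t, ‖sg w' (A 0 t) - (H : ℂ) * sysPC Ainf w' 0 t‖ ≤ cK K * (2 * rho * H) := by
      intro t
      have h1 : sg w' (A 0 t) - (H : ℂ) * sysPC Ainf w' 0 t =
          lam (fun l => (crd (A 0 t) l : ℝ) - H * Ainf 0 t l) w' := by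
        rw [lam_sub (fun l => (crd (A 0 t) l : ℝ)) (fun l => H * Ainf 0 t l), lam_crd, lam_smul]
        rfl
      rw [h1]
      refine norm_lam_le _ _ (fun l => ?_) w'
      have h2 := hA1 0 t l
      have h3 := hACi 0 t l
      have h4 : (crd (A 0 t) l : ℝ) - H * Ainf 0 t l =
          ((crd (A 0 t) l : ℝ) - H * AC 0 t l) + H * (AC 0 t l - Ainf 0 t l) := by ring
      rw [h4]
      refine (abs_add_le _ _).trans ?_
      rw [abs_mul, abs_of_pos hH]
      have h5 := mul_le_mul_of_nonneg_left h3 hH.le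
      linarith
    have hb1 : (NM n (d 0) : ℝ) * (cK K * (2 * rho * H)) * 2 ^ (∑ i, d 0 i) ≤ CC * rho0 * H := by
      rw [hCC, ← hdd]
      have h4 : (NM n (d 0) : ℝ) * (cK K * (2 * rho * H)) * 2 ^ dd =
          (NM n (d 0) * 1 * (2 * cK K) * 2 ^ dd) * rho * H := by ring
      rw [h4]
      have h5 : (0 : ℝ) ≤ dd := Nat.cast_nonneg _
      gcongr
      linarith
    have hb2 : (NM n (d 0) : ℝ) * (∑ i, d 0 i : ℕ) * (cK K * (2 * rho * H)) *
        2 ^ (∑ i, d 0 i) ≤ CC * rho0 * H := by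
      rw [hCC, ← hdd]
      have h4 : (NM n (d 0) : ℝ) * dd * (cK K * (2 * rho * H)) * 2 ^ dd =
          (NM n (d 0) * dd * (2 * cK K) * 2 ^ dd) * rho * H := by ring
      rw [h4]
      have h5 : (0 : ℝ) ≤ dd := Nat.cast_nonneg _
      gcongr
      linarith
    obtain ⟨hMF, hMD⟩ := lw_place (fun t => sg w' (A 0 t)) (sysPC Ainf w' 0) (Z w') ⟨i0, bI w'⟩
      H (cK K * (2 * rho * H)) rho0 CC bet del' hH hdiff (hZ2 w') hMFr hMDr hb1 hb2 hb hr0 hr1
      (by linarith)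
    obtain ⟨hval, hder⟩ := lw_scale i0 hd0 (fun t => sg w' (A 0 t)) (fun v => sg w' (Y v)) (Z w')
      (fun a => zi w' ⟨i0, a⟩) c (by rw [hc, if_pos rfl]) (hZrepl w')
    have hsgg : ∀ a, sg w' (g a) =
        MD (fun t => sg w' (A 0 t)) (fun v => sg w' (Y v)) ⟨i0, a⟩ := by
      intro a
      rw [hg]
      exact (MD_map (sg w') (A 0) Y ⟨i0, a⟩).symm
    have hval' : ∑ a, zi w' ⟨i0, a⟩ * sg w' (g a) =
        V * MF (fun t => sg w' (A 0 t)) (Z w') := by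
      rw [hV, ← hval]
      exact Finset.sum_congr rfl fun a _ => by rw [hsgg]
    have hder' : sg w' (g (bI w')) = V * MD (fun t => sg w' (A 0 t)) (Z w') ⟨i0, bI w'⟩ := by
      rw [hsgg, hder, hV]
    obtain ⟨mf, hmf⟩ : ∃ mf : ℂ, mf = MF (fun t => sg w' (A 0 t)) (Z w') := ⟨_, rfl⟩
    obtain ⟨md, hmd⟩ : ∃ md : ℂ, md = MD (fun t => sg w' (A 0 t)) (Z w') ⟨i0, bI w'⟩ := ⟨_, rfl⟩
    rw [← hmf] at hMF hval'
    rw [← hmd] at hMD hder'
    have hpos : 0 < ‖sg w' (g (bI w'))‖ := by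
      rw [hder', norm_mul]
      have : 0 < bet / 4 * H := by positivity
      exact mul_pos hVn (lt_of_lt_of_le this hMD)
    refine ⟨bI w', fun h0 => ?_, ?_⟩
    · rw [h0, map_zero, norm_zero] at hpos
      exact lt_irrefl _ hpos
    · rw [hval', hder', norm_mul, norm_mul]
      have h1 : (2 + CC) * rho0 * H ≤ del' / 2 * (bet / 4 * H) := by
        rw [hr1]
        apply le_of_eq
        ring
      have h2 : del' / 2 * (bet / 4 * H) ≤ del' / 2 * ‖md‖ :=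
        mul_le_mul_of_nonneg_left hMD (by positivity)
      have h3 := mul_le_mul_of_nonneg_left ((hMF.trans h1).trans h2) hVn.le
      refine h3.trans (le_of_eq ?_)
      ring
  obtain ⟨x, hx0, hxP, hxI⟩ := lw_solve W hW0 (n i0) g (fun P => k * vW W P) k xp hloc
    (fun w' a => zi w' ⟨i0, a⟩) (fun w' hw' a => (hz w').1 hw' _) del' hd'0 hinf
  refine ⟨repl i0 Y x, ?_, ?_, ?_, ?_⟩
  · -- nonzero blocks
    intro i
    by_cases hi : i = i0
    · subst hi
      obtain ⟨w0⟩ : Nonempty (InfinitePlace K) := inferInstance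
      obtain ⟨cc, hcc, -, hx1⟩ := hxI w0
      obtain ⟨a, ha⟩ := (hz w0).2.2 i
      refine ⟨a, fun h0 => ?_⟩
      rw [repl_self] at h0
      have h1 := hx1 a
      rw [h0, map_zero, zero_sub, norm_neg, norm_mul, ha, mul_one] at h1
      have h2 : 0 < ‖cc‖ := norm_pos_iff.2 hcc
      nlinarith
    · obtain ⟨cc, hcc⟩ := hyP i
      by_contra hcon
      push Not at hcon
      have h0 : ∀ a, y i a = 0 := by
        intro a
        have := hcon a
        rw [repl_ne _ _ _ _ hi, hY] at this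
        exact this
      have : ∑ a, cc a * y i a = 0 := Finset.sum_eq_zero fun a _ => by rw [h0 a, mul_zero]
      rw [this] at hcc
      exact zero_ne_one hcc
  · -- zero
    intro j
    obtain rfl : j = 0 := Subsingleton.elim _ _
    rw [lw_val i0 hd0, ← hx0]
    exact Finset.sum_congr rfl fun a _ => by rw [hg]
  · -- congruences
    rw [← hWdef]
    intro P hP hWP i
    obtain ⟨-, hv1⟩ := lw_Q W k hW0 P hP hWP
    by_cases hi : i = i0
    · subst hi
      obtain ⟨cc, t, h1, h2, h3⟩ := hxP P hP hWP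
      refine ⟨cc, t, h1, h2, fun a => ?_⟩
      rw [repl_self, ← hxp]
      exact h3 a
    · refine ⟨1, 0, ?_, ?_, fun a => ?_⟩
      · rw [pow_zero, Ideal.one_eq_top]
        exact Submodule.mem_top
      · rw [zero_add, pow_one]
        exact fun h => hP.ne_top ((Ideal.eq_top_iff_one _).2 h)
      · rw [repl_ne _ _ _ _ hi, hY, one_mul, add_zero]
        refine Ideal.pow_le_pow_right ?_ (hyp i P hP hWP a)
        have : k ≤ k * vW W P := Nat.le_mul_of_pos_right k hv1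
        omega
  · -- the infinite places
    intro w' i
    by_cases hi : i = i0
    · subst hi
      obtain ⟨cc, hcc, h1, h2⟩ := hxI w'
      refine ⟨cc, hcc, h1, fun a => ?_⟩
      rw [repl_self]
      exact (h2 a).trans (mul_le_mul_of_nonneg_right hd'1 (norm_nonneg _))
    · refine ⟨(N i : ℂ), hNC i, fun _ => Complex.natCast_im _, fun a => ?_⟩
      rw [repl_ne _ _ _ _ hi, hY, hNc]
      have h1 : sg w' (y i a) - (N i : ℂ) * zi w' ⟨i, a⟩ =
          (N i : ℂ) * (sg w' (y i a) / (N i : ℂ) - zi w' ⟨i, a⟩) := by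
        field_simp [hNC i]
      show ‖sg w' (y i a) - (N i : ℂ) * zi w' ⟨i, a⟩‖ ≤ del * N i
      rw [h1, norm_mul, hNc, mul_comm]
      exact mul_le_mul_of_nonneg_right ((hyd i w' a).trans (hdl2.trans hd'1)) (hNR i).le

end final

end NKWHP
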