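import Pool.Agent.Lib.MP_e426f4_ag.NKW.Global
import Pool.Agent.Lib.MP_e426f4_ag.NKW.ClsOfBlock
import Pool.Agent.Lib.MP_e426f4_ag.NKW.CClsOfConic
import Pool.Agent.Lib.MP_e426f4_ag.NKW.Linear
import Pool.Agent.Lib.MP_e426f4_ag.NKW.Els
import Pool.Agent.Lib.MP_e426f4_ag.NKW.Diag
import Pool.Agent.Lib.MP_e426f4_ag.NKP.Final

/-! NKW-Final: weak approximation for almost all systems over a number field. -/

set_option linter.unusedSectionVars false

namespace NKWHP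

open NumberField GenHP NFHP NKHP NKPHP Finset Filter Topology
open CIPHP (PSys NP PJac blk pev)

/-- the case distinction -/
theorem pclsW (K : Type) [Field K] [NumberField K] {ι : Type} [Fintype ι] [DecidableEq ι]
    (n : ι → ℕ) {r : ℕ} (d : Fin r → ι → ℕ)
    (hr : 1 ≤ r) (hn : ∀ i, 1 ≤ n i) (hd : ∀ j i, 1 ≤ d j i) (i0 : ι)
    (hs : ∑ j, d j i0 ≤ n i0) (h2 : 2 ≤ r → ∀ j, 2 ≤ d j i0)
    (h1 : ¬ (r = 1 ∧ n i0 = 2 ∧ (∀ j, d j i0 = 2) ∧ ∀ i, i = i0)) : PCLSW K n d i0 := by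
  rcases Nat.lt_or_ge r 2 with hr2 | hr2
  · have hr1 : r = 1 := by omega
    subst hr1
    have hs' : d 0 i0 ≤ n i0 := by simpa using hs
    have hall : ∀ {p : Fin 1 → Prop}, p 0 → ∀ j, p j := fun h j => by
      have hj : j = 0 := Subsingleton.elim _ _
      rw [hj]
      exact h
    rcases Nat.lt_or_ge 1 (d 0 i0) with h3 | h3
    · have h3' : ∀ j, 2 ≤ d j i0 := hall (p := fun j => 2 ≤ d j i0) h3
      rcases Nat.lt_or_ge 2 (n i0) with h4 | h4
      · exact cls_of_blockW K n d hr hn i0 (by omega) h3' hs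
      · have h5 : n i0 = 2 := by omega
        have h6 : ∀ j, d j i0 = 2 := hall (p := fun j => d j i0 = 2) (by omega)
        obtain ⟨i1, hi1⟩ : ∃ i1, i1 ≠ i0 := by
          by_contra hcon
          push Not at hcon
          exact h1 ⟨rfl, h5, h6, hcon⟩
        exact cls_of_conicW K n d hd hn i0 i1 hi1 h5 (h6 0)
    · have := hd 0 i0
      exact cls_of_linearW K n d hd hn i0 (by omega)
  · have h3 : ∑ j : Fin r, 2 ≤ ∑ j, d j i0 := Finset.sum_le_sum fun j _ => h2 hr2 j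
    simp only [Finset.sum_const, Finset.card_univ, Fintype.card_fin, smul_eq_mul] at h3
    exact cls_of_blockW K n d hr hn i0 (by omega) (h2 hr2) hs

theorem final_W (K : Type) [Field K] [NumberField K] {ι : Type} [Fintype ι] [DecidableEq ι]
    (n : ι → ℕ) {r : ℕ} (d : Fin r → ι → ℕ)
    (hr : 1 ≤ r) (hn : ∀ i, 1 ≤ n i) (hd : ∀ j i, 1 ≤ d j i) (i0 : ι)
    (hs : ∑ j, d j i0 ≤ n i0) (h2 : 2 ≤ r → ∀ j, 2 ≤ d j i0)
    (h1 : ¬ (r = 1 ∧ n i0 = 2 ∧ (∀ j, d j i0 = 2) ∧ ∀ i, i = i0)) :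
    ∃ W : ℕ → ℕ, Tendsto W atTop atTop ∧ ∀ eps : ℝ, 0 < eps → ∀ᶠ H : ℕ in atTop,
      (Set.ncard {A : PSys n d (𝓞 K) | A ∈ HouseP K n d H ∧ PELSK A ∧ ¬ PWAK (W H) A} : ℝ) ≤
        eps * ((HouseP K n d H).ncard : ℝ) := by
  have hrn : r ≤ n i0 := by
    have h3 : ∑ j : Fin r, 1 ≤ ∑ j, d j i0 := Finset.sum_le_sum fun j _ => hd j i0
    simp only [Finset.sum_const, Finset.card_univ, Fintype.card_fin, smul_eq_mul, mul_one] at h3
    exact h3.trans hs
  have hcls := pclsW K n d hr hn hd i0 hs h2 h1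
  have hc1 : 1 ≤ cK K := one_le_cK
  have hfin : ∀ R : ℕ, (BoxP K n d R).Finite := fun R => BoxP_finite (R : ℝ)
  obtain ⟨W, hW, hsm⟩ := diag_small (fun H : ℕ => HouseP K n d H)
    (fun k => {A : PSys n d (𝓞 K) | PELSK A ∧ ¬ PWAK k A}) fun k eps heps => by
      refine house_small (Bx := fun R : ℕ => BoxP K n d R) (Hs := fun H : ℕ => HouseP K n d H) hc1
        hfin (fun R => card_BoxP R) houseP_sub1 houseP_sub2
        {A : PSys n d (𝓞 K) | PELSK A ∧ ¬ PWAK k A} ?_ eps heps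
      intro eps' heps'
      filter_upwards [global_W hr hd i0 hrn hcls k (k + 1) (by omega) (1 / ((k : ℝ) + 1))
        (by positivity) eps' heps'] with H hH
      refine le_trans ?_ hH
      have h1 : {A : PSys n d (𝓞 K) | A ∈ BoxP K n d H ∧ A ∈ {A | PELSK A ∧ ¬ PWAK k A}} ⊆
          {A | A ∈ BoxP K n d H ∧ PELSeK A ∧ ¬ WAe k (k + 1) (1 / ((k : ℝ) + 1)) A} := by
        rintro A ⟨hA, h2, h3⟩
        exact ⟨hA, PELSeK_of_PELSK A h2, fun h => h3 (pwak_of_WAe k A h)⟩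
      exact_mod_cast Set.ncard_le_ncard h1 ((hfin H).subset fun A hA => hA.1)
  exact ⟨W, hW, hsm⟩

end NKWHP
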