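import Pool.Agent.Lib.MP_e426f4_ag.NKW.Defs
import Pool.Agent.Lib.MP_e426f4_ag.NKP.NetI

/-!
NKW-NormI: normalising an approximate zero near a normalised point.

TEMPLATE: NKPHP.pgoodI_of_approx (NKP/NetI.lean). The point is z' v = c v.1 * z v with c i = 1 / max_a ‖z ⟨i,a⟩‖; since ‖z v - z0 v‖ ≤ del ≤ 1/2 and z0 is
normalised, the maximum is in [1 - del, 1 + del], so ‖z' v - z0 v‖ ≤ |c v.1 - 1| ‖z v‖ + del ≤ 2 del * (3/2) + del = 4 del. The hypotheses ‖z v‖ ≤ 2 and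
∃ a, 1/2 ≤ ‖z ⟨i, a⟩‖ of the template follow.
-/

set_option linter.unusedSectionVars false

namespace NKWHP

open NumberField GenHP NFHP NKHP NKPHP Finset Filter Topology
open CIPHP (PSys NP PJac blk pev)

section multi
variable {ι : Type} [Fintype ι] [DecidableEq ι]
variable {K : Type} [Field K] [NumberField K]

theorem gip_of_approx (n : ι → ℕ) {r : ℕ} (d : Fin r → ι → ℕ) (i0 : ι) (w : InfinitePlace K) :
    ∃ C : ℝ, 1 ≤ C ∧ ∀ (A : PSys n d ℂ) (z z0 : MVar n → ℂ) (f g del : ℝ), 0 ≤ f → 0 ≤ g →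
      0 ≤ del → del ≤ 1 / 2 → (w.IsReal → ∀ v, (z v).im = 0) → BPtI w z0 →
      (∀ v, ‖z v - z0 v‖ ≤ del) → (∀ j, ‖MF (A j) z‖ ≤ f) →
      ∀ J : Fin r → Fin (n i0 + 1), (C * g) ^ r ≤ ‖(PJac A z (blk i0 J)).det‖ →
      ∃ z' : MVar n → ℂ, (∀ v, ‖z' v - z0 v‖ ≤ 4 * del) ∧ GIP i0 w (C * f) (g ^ r) A z' := by
  set DD : ℕ := ∑ j, ∑ i, d j i with hDD
  refine ⟨2 ^ (DD + 1), one_le_pow₀ (by norm_num), ?_⟩
  intro A z z0 f g del hf hg hdel hdel2 hzr hz0 hnear hF J hJ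
  obtain ⟨hz0r, hz01, hz02⟩ := hz0
  have hz1 : ∀ v, ‖z v‖ ≤ 1 + del := fun v => by
    have h1 : z v = z0 v + (z v - z0 v) := by ring
    rw [h1]
    exact (norm_add_le _ _).trans (add_le_add (hz01 v) (hnear v))
  have hz : ∀ v, ‖z v‖ ≤ 2 := fun v => (hz1 v).trans (by linarith)
  have hz3 : ∀ i, ∃ a, 1 - del ≤ ‖z ⟨i, a⟩‖ := fun i => by
    obtain ⟨a, ha⟩ := hz02 i
    refine ⟨a, ?_⟩
    have h1 : ‖z0 ⟨i, a⟩‖ ≤ ‖z ⟨i, a⟩‖ + ‖z ⟨i, a⟩ - z0 ⟨i, a⟩‖ := by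
      have h2 : z0 ⟨i, a⟩ = z ⟨i, a⟩ - (z ⟨i, a⟩ - z0 ⟨i, a⟩) := by ring
      calc ‖z0 ⟨i, a⟩‖ = ‖z ⟨i, a⟩ - (z ⟨i, a⟩ - z0 ⟨i, a⟩)‖ := by rw [← h2]
        _ ≤ _ := norm_sub_le _ _
    have h3 := hnear ⟨i, a⟩
    linarith
  have hz2 : ∀ i, ∃ a, 1 / 2 ≤ ‖z ⟨i, a⟩‖ := fun i => by
    obtain ⟨a, ha⟩ := hz3 i
    exact ⟨a, by linarith⟩
  have hmax : ∀ i, ∃ a : Fin (n i + 1), ∀ b, ‖z ⟨i, b⟩‖ ≤ ‖z ⟨i, a⟩‖ := fun i =>
    Finite.exists_max fun a : Fin (n i + 1) => ‖z ⟨i, a⟩‖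
  choose τ hτ using hmax
  have hlow : ∀ i, 1 / 2 ≤ ‖z ⟨i, τ i⟩‖ := by
    intro i
    obtain ⟨b, hb⟩ := hz2 i
    exact hb.trans (hτ i b)
  have hpos : ∀ i, 0 < ‖z ⟨i, τ i⟩‖ := fun i => lt_of_lt_of_le (by norm_num) (hlow i)
  obtain ⟨c, hc⟩ : ∃ c : ι → ℝ, c = fun i => ‖z ⟨i, τ i⟩‖⁻¹ := ⟨_, rfl⟩
  have hcpos : ∀ i, 0 < c i := fun i => by rw [hc]; exact inv_pos.mpr (hpos i)
  have hc2 : ∀ i, c i ≤ 2 := fun i => by
    have h := inv_anti₀ (by norm_num : (0 : ℝ) < 1 / 2) (hlow i)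
    have h' : ((1 : ℝ) / 2)⁻¹ = 2 := by norm_num
    rw [h'] at h
    rw [hc]
    exact h
  have hc1 : ∀ i, 1 / 2 ≤ c i := fun i => by
    have h := inv_anti₀ (hpos i) (hz ⟨i, τ i⟩)
    have h' : (2 : ℝ)⁻¹ = 1 / 2 := by norm_num
    rw [h'] at h
    rw [hc]
    exact h
  have hcn : ∀ i, ‖((c i : ℝ) : ℂ)‖ = c i := fun i => by
    rw [Complex.norm_real, Real.norm_eq_abs, abs_of_pos (hcpos i)]
  have hP0 : ∀ j, 0 < ∏ i, c i ^ d j i := fun j => Finset.prod_pos fun i _ => pow_pos (hcpos i) _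
  have hPn : ∀ j, ‖∏ i, ((c i : ℝ) : ℂ) ^ d j i‖ = ∏ i, c i ^ d j i := fun j => by
    rw [norm_prod]
    exact Finset.prod_congr rfl fun i _ => by rw [norm_pow, hcn]
  have hP2 : ∀ j, ∏ i, c i ^ d j i ≤ 2 ^ (∑ i, d j i) := by
    intro j
    rw [← Finset.prod_pow_eq_pow_sum]
    exact Finset.prod_le_prod (fun i _ => (pow_pos (hcpos i) _).le)
      fun i _ => pow_le_pow_left₀ (hcpos i).le (hc2 i) _
  have hP1 : ∀ j, (1 / 2 : ℝ) ^ (∑ i, d j i) ≤ ∏ i, c i ^ d j i := by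
    intro j
    rw [← Finset.prod_pow_eq_pow_sum]
    exact Finset.prod_le_prod (fun i _ => by positivity)
      fun i _ => pow_le_pow_left₀ (by norm_num) (hc1 i) _
  have hjD : ∀ j, ∑ i, d j i ≤ DD := fun j =>
    Finset.single_le_sum (f := fun j => ∑ i, d j i) (fun _ _ => Nat.zero_le _) (Finset.mem_univ j)
  refine ⟨fun v => ((c v.1 : ℝ) : ℂ) * z v, ?_, ⟨?_, ?_, ?_⟩, fun j => ?_, J, ?_⟩
  · rintro ⟨i, b⟩
    have hM1 : ‖z ⟨i, τ i⟩‖ ≤ 1 + del := hz1 _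
    have hM2 : 1 - del ≤ ‖z ⟨i, τ i⟩‖ := by
      obtain ⟨a, ha⟩ := hz3 i
      exact ha.trans (hτ i a)
    have h1 : ((c i : ℝ) : ℂ) * z ⟨i, b⟩ - z0 ⟨i, b⟩ =
        (((c i - 1 : ℝ)) : ℂ) * z ⟨i, b⟩ + (z ⟨i, b⟩ - z0 ⟨i, b⟩) := by
      push_cast
      ring
    show ‖((c i : ℝ) : ℂ) * z ⟨i, b⟩ - z0 ⟨i, b⟩‖ ≤ 4 * del
    rw [h1]
    have h2 : ‖(((c i - 1 : ℝ)) : ℂ) * z ⟨i, b⟩‖ ≤ del := by
      rw [norm_mul, Complex.norm_real, Real.norm_eq_abs]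
      calc |c i - 1| * ‖z ⟨i, b⟩‖ ≤ |c i - 1| * ‖z ⟨i, τ i⟩‖ :=
            mul_le_mul_of_nonneg_left (hτ i b) (abs_nonneg _)
        _ = |(c i - 1) * ‖z ⟨i, τ i⟩‖| := by rw [abs_mul, abs_of_pos (hpos i)]
        _ = |1 - ‖z ⟨i, τ i⟩‖| := by
            congr 1
            rw [sub_mul, one_mul, hc]
            show ‖z ⟨i, τ i⟩‖⁻¹ * ‖z ⟨i, τ i⟩‖ - ‖z ⟨i, τ i⟩‖ = 1 - ‖z ⟨i, τ i⟩‖
            rw [inv_mul_cancel₀ (hpos i).ne']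
        _ ≤ del := by
            rw [abs_le]
            constructor <;> linarith
    calc _ ≤ ‖(((c i - 1 : ℝ)) : ℂ) * z ⟨i, b⟩‖ + ‖z ⟨i, b⟩ - z0 ⟨i, b⟩‖ := norm_add_le _ _
      _ ≤ del + del := add_le_add h2 (hnear _)
      _ ≤ 4 * del := by linarith
  · intro hw v
    rw [Complex.im_ofReal_mul, hzr hw v, mul_zero]
  · rintro ⟨i, b⟩
    rw [norm_mul, hcn, hc]
    calc ‖z ⟨i, τ i⟩‖⁻¹ * ‖z ⟨i, b⟩‖ ≤ ‖z ⟨i, τ i⟩‖⁻¹ * ‖z ⟨i, τ i⟩‖ :=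
          mul_le_mul_of_nonneg_left (hτ i b) (inv_nonneg.mpr (norm_nonneg _))
      _ = 1 := inv_mul_cancel₀ (hpos i).ne'
  · intro i
    refine ⟨τ i, ?_⟩
    rw [norm_mul, hcn, hc]
    exact inv_mul_cancel₀ (hpos i).ne'
  · rw [MF_scale (fun i => ((c i : ℝ) : ℂ)) (A j) z, norm_mul, hPn]
    refine mul_le_mul ((hP2 j).trans ?_) (hF j) (norm_nonneg _) (by positivity)
    exact pow_le_pow_right₀ (by norm_num) ((hjD j).trans (Nat.le_succ _))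
  · have h := congrArg norm (CIPHP.PJac_scale (fun i => ((c i : ℝ) : ℂ)) A z (blk i0 J))
    have hPP : 0 < ∏ j, ∏ i, c i ^ d j i := Finset.prod_pos fun j _ => hP0 j
    have hPPn : ‖∏ j, ∏ i, ((c i : ℝ) : ℂ) ^ d j i‖ = ∏ j, ∏ i, c i ^ d j i := by
      rw [norm_prod]
      exact Finset.prod_congr rfl fun j _ => hPn j
    have hPP1 : (1 / 2 : ℝ) ^ DD ≤ ∏ j, ∏ i, c i ^ d j i := by
      rw [hDD, ← Finset.prod_pow_eq_pow_sum]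
      exact Finset.prod_le_prod (fun j _ => by positivity) fun j _ => hP1 j
    have hl : ‖∏ l : Fin r, ((c (blk i0 J l).1 : ℝ) : ℂ)‖ = c i0 ^ r := by
      rw [norm_prod]
      have : ∀ l : Fin r, ‖((c (blk i0 J l).1 : ℝ) : ℂ)‖ = c i0 := fun l => hcn i0
      rw [Finset.prod_congr rfl fun l _ => this l, Finset.prod_const, Finset.card_univ,
        Fintype.card_fin]
    rw [norm_mul, norm_mul, hPPn, hl] at h
    obtain ⟨X, hX⟩ : ∃ X : ℝ, X = ‖(PJac A (fun v => ((c v.1 : ℝ) : ℂ) * z v) (blk i0 J)).det‖ :=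
      ⟨_, rfl⟩
    rw [← hX] at h ⊢
    have hX0 : 0 ≤ X := by rw [hX]; exact norm_nonneg _
    have h1 : (1 / 2 : ℝ) ^ DD * ((2 ^ (DD + 1) * g) ^ r) ≤ c i0 ^ r * X := by
      rw [h]
      exact mul_le_mul hPP1 hJ (by positivity) hPP.le
    have h2 : c i0 ^ r * X ≤ 2 ^ r * X :=
      mul_le_mul_of_nonneg_right (pow_le_pow_left₀ (hcpos i0).le (hc2 i0) r) hX0
    have h3 : (2 : ℝ) ^ r * g ^ r ≤ (1 / 2 : ℝ) ^ DD * ((2 ^ (DD + 1) * g) ^ r) := by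
      rw [mul_pow, ← pow_mul, ← mul_assoc]
      refine mul_le_mul_of_nonneg_right ?_ (by positivity)
      have h4 : DD + r ≤ (DD + 1) * r := by
        rcases Nat.eq_zero_or_pos r with hr | hr
        · subst hr
          simp [hDD]
        · nlinarith
      have h5 : (2 : ℝ) ^ (DD + r) ≤ 2 ^ ((DD + 1) * r) := pow_le_pow_right₀ (by norm_num) h4
      have h6 : (1 / 2 : ℝ) ^ DD * 2 ^ DD = 1 := by
        rw [← mul_pow]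
        norm_num
      calc (2 : ℝ) ^ r = (1 / 2 : ℝ) ^ DD * 2 ^ DD * 2 ^ r := by rw [h6, one_mul]
        _ = (1 / 2 : ℝ) ^ DD * 2 ^ (DD + r) := by rw [mul_assoc, ← pow_add]
        _ ≤ _ := mul_le_mul_of_nonneg_left h5 (by positivity)
    have h7 := h3.trans (h1.trans h2)
    exact le_of_mul_le_mul_left h7 (by positivity)

end multi

end NKWHP
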