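import Pool.Agent.Lib.MP_e426f4_ag.NKW.RExc2
import Pool.Agent.Lib.MP_e426f4_ag.NKP.RExc1
import Pool.Agent.Lib.MP_e426f4_ag.NKP.Basic
import Pool.Agent.Lib.MP_e426f4_ag.NKP.Box

/-!
NKW-PadicExc: systems with a zero `z` modulo `P ^ (2 k)` but without a good point congruent to `z` modulo `P ^ s` are few.

TEMPLATE: NKP/PadicExc.lean word for word. Let A be in the set, with z. If all maximal minors at z are in P^(r ka): A mod P^(r ka) is in the set of ring_exc1.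
Otherwise A mod P^(2k) is in the set of ring_exc2W (with k1 := max (r * ka) s — note k1 ≥ s, k1 ≥ 1, and a minor not in P^(r ka) is not in P^k1).
The good point of ring_exc2W's set is lifted to 𝓞 K (choose z' with mk (z' v) = w v); s ≤ k1 ≤ k ≤ 2k so the congruence mod π^s means z' v - z v ∈ P^s; for BUnitK P z' use
1 ≤ s (z' ≡ z mod P^s, s ≥ 1).
-/

set_option linter.unusedSectionVars false

namespace NKWHP

open NumberField GenHP NFHP NKHP NKPHP Finset Filter Topology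
open CIPHP (PSys NP PJac blk pev)

section multi
variable {K : Type} [Field K] [NumberField K] {ι : Type} [Fintype ι] [DecidableEq ι] {n : ι → ℕ}
  {r : ℕ} {d : Fin r → ι → ℕ}

private theorem py_unit {P : Ideal (𝓞 K)} {L q : ℕ} (hL : 1 ≤ L) {π : 𝓞 K ⧸ P ^ L}
    (hR : PR (𝓞 K ⧸ P ^ L) π q L)
    (hdic : ∀ m : ℕ, m ≤ L → ∀ x : 𝓞 K, π ^ m ∣ Ideal.Quotient.mk (P ^ L) x ↔ x ∈ P ^ m)
    (x : 𝓞 K) : IsUnit (Ideal.Quotient.mk (P ^ L) x) ↔ x ∉ P := by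
  have h := hdic 1 hL x
  rw [pow_one, pow_one] at h
  rw [hR.isUnit_iff, h]

theorem padic_excW (hr : 1 ≤ r) (hd : ∀ j i, 1 ≤ d j i) (i0 : ι) (hn0 : r ≤ n i0)
    (P : Ideal (𝓞 K)) (hP : P.IsMaximal) (s : ℕ) (hs : 1 ≤ s) (eps : ℝ) (he : 0 < eps) :
    ∃ k0 : ℕ, ∀ k : ℕ, k0 ≤ k → ∀ᶠ H : ℕ in atTop,
      (Set.ncard {A : PSys n d (𝓞 K) | A ∈ BoxP K n d H ∧
        ∃ z : MVar n → 𝓞 K, BUnitK P z ∧ (∀ j, MF (A j) z ∈ P ^ (2 * k)) ∧
          ¬ ∃ z' : MVar n → 𝓞 K, (∀ v, z' v - z v ∈ P ^ s) ∧ GPP i0 P k A z'} : ℝ) ≤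
        eps * (2 * H + 1) ^ (mK K * NP n d) := by
  classical
  have hP0 : P ≠ ⊥ := Ring.ne_bot_of_isMaximal_of_not_isField hP (RingOfIntegers.not_isField K)
  have hbne : ∀ a : ℕ, P ^ a ≠ ⊥ := by
    intro a
    rw [← Ideal.zero_eq_bot] at hP0 ⊢
    exact pow_ne_zero _ hP0
  obtain ⟨q, hqdef⟩ : ∃ q : ℕ, q = Ideal.absNorm P := ⟨_, rfl⟩
  have hq2 : 2 ≤ q := by
    obtain ⟨π, hR, -⟩ := exists_PR P hP 1 le_rfl
    rw [hqdef]
    exact hR.q_two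
  have hqR1 : (1 : ℝ) < q := by exact_mod_cast (lt_of_lt_of_le one_lt_two hq2)
  have hqR : (0 : ℝ) < q := zero_lt_one.trans hqR1
  obtain ⟨C, hC⟩ : ∃ C : ℕ, C = r * Fintype.card (∀ i, Fin (n i + 1)) := ⟨_, rfl⟩
  -- the choice of `ka`
  obtain ⟨ka, hka, hka'⟩ : ∃ ka : ℕ, 1 ≤ ka ∧ 2 * (C : ℝ) ≤ eps / 2 * (q : ℝ) ^ ka := by
    have h1 : Tendsto (fun k : ℕ => eps / 2 * (q : ℝ) ^ k) atTop atTop :=
      (tendsto_pow_atTop_atTop_of_one_lt hqR1).const_mul_atTop (by positivity)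
    obtain ⟨k, hk1, hk2⟩ :=
      ((h1.eventually_ge_atTop (2 * (C : ℝ))).and (eventually_ge_atTop 1)).exists
    exact ⟨k, hk2, hk1⟩
  have hrka : 1 ≤ r * ka := Nat.mul_pos hr hka
  obtain ⟨k1, hk1⟩ : ∃ k1 : ℕ, k1 = max (r * ka) s := ⟨_, rfl⟩
  have hk1r : r * ka ≤ k1 := by
    rw [hk1]
    exact le_max_left _ _
  have hk1s : s ≤ k1 := by
    rw [hk1]
    exact le_max_right _ _
  have hk1' : 1 ≤ k1 := hrka.trans hk1r
  have hkak1 : ka ≤ k1 := (Nat.le_mul_of_pos_left _ hr).trans hk1r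
  obtain ⟨k2, hk2, hk2'⟩ := ring_exc2W (n := n) (d := d) hr hd i0 hn0 q k1 s hq2 hk1' hk1s (eps / 4)
    (by positivity)
  refine ⟨max k1 k2, fun k hk => ?_⟩
  have hkk1 : k1 ≤ k := (le_max_left _ _).trans hk
  have hkk2 : k2 ≤ k := (le_max_right _ _).trans hk
  obtain ⟨π1, hR1, hdic1⟩ := exists_PR P hP (r * ka) (by omega)
  obtain ⟨π2, hR2, hdic2⟩ := exists_PR P hP (2 * k) (by omega)
  rw [← hqdef] at hR1 hR2
  have hc1 := ring_exc1 (n := n) (d := d) hr hd hka hR1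
  have hc2 := hk2' k hkk2 (𝓞 K ⧸ P ^ (2 * k)) π2 hR2
  set S1 : Set (PSys n d (𝓞 K ⧸ P ^ (r * ka))) := {A | ∃ z : MVar n → 𝓞 K ⧸ P ^ (r * ka),
    (∀ i, ∃ a, IsUnit (z ⟨i, a⟩)) ∧ (∀ j, π1 ^ ka ∣ MF (A j) z) ∧
      ∀ J : Fin r → MVar n, (PJac A z J).det = 0} with hS1
  set S2 : Set (PSys n d (𝓞 K ⧸ P ^ (2 * k))) := {A |
        ∃ z : MVar n → 𝓞 K ⧸ P ^ (2 * k), (∀ i, ∃ a, IsUnit (z ⟨i, a⟩)) ∧
          (∀ j, π2 ^ (2 * k1) ∣ MF (A j) z) ∧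
          (∃ J : Fin r → MVar n, ¬ π2 ^ k1 ∣ (PJac A z J).det) ∧
          ¬ ∃ z' : MVar n → 𝓞 K ⧸ P ^ (2 * k), (∀ v, π2 ^ s ∣ z' v - z v) ∧
            (∀ j, MF (A j) z' = 0) ∧
            ∃ J : Fin r → Fin (n i0 + 1), ¬ π2 ^ k ∣ (PJac A z' (blk i0 J)).det} with hS2
  filter_upwards [boxP_classes (P ^ (r * ka)) (hbne _) S1, boxP_classes (P ^ (2 * k)) (hbne _) S2]
    with H h1 h2
  set X1 : Set (PSys n d (𝓞 K)) := {A | A ∈ BoxP K n d H ∧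
    (fun j t => Ideal.Quotient.mk (P ^ (r * ka)) (A j t)) ∈ S1} with hX1
  set X2 : Set (PSys n d (𝓞 K)) := {A | A ∈ BoxP K n d H ∧
    (fun j t => Ideal.Quotient.mk (P ^ (2 * k)) (A j t)) ∈ S2} with hX2
  have hsub : {A : PSys n d (𝓞 K) | A ∈ BoxP K n d H ∧
        ∃ z : MVar n → 𝓞 K, BUnitK P z ∧ (∀ j, MF (A j) z ∈ P ^ (2 * k)) ∧
          ¬ ∃ z' : MVar n → 𝓞 K, (∀ v, z' v - z v ∈ P ^ s) ∧ GPP i0 P k A z'} ⊆
      X1 ∪ X2 := by
    rintro A ⟨hA, z, hz, hF, hgood⟩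
    by_cases hD : ∀ J : Fin r → MVar n, (PJac A z J).det ∈ P ^ (r * ka)
    · refine Or.inl ⟨hA, fun v => Ideal.Quotient.mk (P ^ (r * ka)) (z v), fun i => ?_,
        fun j => ?_, fun J => ?_⟩
      · obtain ⟨a, ha⟩ := hz i
        exact ⟨a, (py_unit (by omega) hR1 hdic1 _).mpr ha⟩
      · rw [MF_map, hdic1 ka (Nat.le_mul_of_pos_left _ hr)]
        exact Ideal.pow_le_pow_right (by omega) (hF j)
      · rw [CIPHP.PJac_map, Ideal.Quotient.eq_zero_iff_mem]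
        exact hD J
    · push Not at hD
      obtain ⟨J, hJ⟩ := hD
      refine Or.inr ⟨hA, fun v => Ideal.Quotient.mk (P ^ (2 * k)) (z v), fun i => ?_,
        fun j => ?_, ⟨J, ?_⟩, ?_⟩
      · obtain ⟨a, ha⟩ := hz i
        exact ⟨a, (py_unit (by omega) hR2 hdic2 _).mpr ha⟩
      · rw [MF_map, hdic2 (2 * k1) (by omega)]
        exact Ideal.pow_le_pow_right (by omega) (hF j)
      · rw [CIPHP.PJac_map, hdic2 k1 (by omega)]
        exact fun h => hJ (Ideal.pow_le_pow_right hk1r h)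
      · rintro ⟨w, hw1, hw2, J', hJ'⟩
        choose z' hz' using fun v => Ideal.Quotient.mk_surjective (w v)
        have hw : w = fun v => Ideal.Quotient.mk (P ^ (2 * k)) (z' v) :=
          funext fun v => (hz' v).symm
        have hcong : ∀ v, z' v - z v ∈ P ^ s := by
          intro v
          have h3 := hw1 v
          rw [← hz' v, ← map_sub, hdic2 s (by omega)] at h3
          exact h3
        apply hgood
        refine ⟨z', hcong, fun i => ?_, fun j => ?_, J', ?_⟩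
        · obtain ⟨a, ha⟩ := hz i
          refine ⟨a, fun h => ha ?_⟩
          have h3 : z' ⟨i, a⟩ - z ⟨i, a⟩ ∈ P := Ideal.pow_le_self (by omega) (hcong ⟨i, a⟩)
          have h4 := Ideal.sub_mem _ h h3
          simpa using h4
        · have h3 := hw2 j
          rw [hw, MF_map, Ideal.Quotient.eq_zero_iff_mem] at h3
          exact h3
        · rw [hw, CIPHP.PJac_map, hdic2 k (by omega)] at hJ'
          exact hJ'
  have hf1 : X1.Finite := boxP_finite H fun A =>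
    (fun j t => Ideal.Quotient.mk (P ^ (r * ka)) (A j t)) ∈ S1
  have hf2 : X2.Finite := boxP_finite H fun A =>
    (fun j t => Ideal.Quotient.mk (P ^ (2 * k)) (A j t)) ∈ S2
  have h3 := (Set.ncard_le_ncard hsub (hf1.union hf2)).trans (Set.ncard_union_le X1 X2)
  have h4 : (Set.ncard {A : PSys n d (𝓞 K) | A ∈ BoxP K n d H ∧
        ∃ z : MVar n → 𝓞 K, BUnitK P z ∧ (∀ j, MF (A j) z ∈ P ^ (2 * k)) ∧
          ¬ ∃ z' : MVar n → 𝓞 K, (∀ v, z' v - z v ∈ P ^ s) ∧ GPP i0 P k A z'} : ℝ) ≤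
      (X1.ncard : ℝ) + X2.ncard := by exact_mod_cast h3
  refine h4.trans ((add_le_add h1 h2).trans ?_)
  rw [← add_mul]
  refine mul_le_mul_of_nonneg_right ?_ (by positivity)
  rw [map_pow, map_pow, ← hqdef]
  have e1 : 2 * (S1.ncard : ℝ) / ((q ^ (r * ka) : ℕ) : ℝ) ^ NP n d ≤ eps / 2 := by
    rw [div_le_iff₀ (by positivity)]
    have h5 : (S1.ncard : ℝ) * (q : ℝ) ^ ka ≤ C * ((q : ℝ) ^ (r * ka)) ^ NP n d := by
      rw [hC]
      exact_mod_cast hc1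
    push_cast
    have h6 : (0 : ℝ) < (q : ℝ) ^ ka := by positivity
    have h7 : 2 * (S1.ncard : ℝ) * (q : ℝ) ^ ka ≤
        eps / 2 * ((q : ℝ) ^ (r * ka)) ^ NP n d * (q : ℝ) ^ ka := by
      calc 2 * (S1.ncard : ℝ) * (q : ℝ) ^ ka = 2 * ((S1.ncard : ℝ) * (q : ℝ) ^ ka) := by ring
        _ ≤ 2 * (C * ((q : ℝ) ^ (r * ka)) ^ NP n d) := by gcongr
        _ = (2 * (C : ℝ)) * ((q : ℝ) ^ (r * ka)) ^ NP n d := by ring
        _ ≤ (eps / 2 * (q : ℝ) ^ ka) * ((q : ℝ) ^ (r * ka)) ^ NP n d := by gcongr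
        _ = _ := by ring
    exact le_of_mul_le_mul_right h7 h6
  have e2 : 2 * (S2.ncard : ℝ) / ((q ^ (2 * k) : ℕ) : ℝ) ^ NP n d ≤ eps / 2 := by
    rw [div_le_iff₀ (by positivity)]
    push_cast
    linarith
  linarith

end multi

end NKWHP
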