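import Pool.Agent.Lib.MP_e426f4_ag.NKW.Trans
import Pool.Agent.Lib.MP_e426f4_ag.NKW.PadicExc
import Pool.Agent.Lib.MP_e426f4_ag.NKW.InfExc
import Pool.Agent.Lib.MP_e426f4_ag.NKP.Basic
import Pool.Agent.Lib.MP_e426f4_ag.N.Ideals
import Pool.Agent.Lib.MP_e426f4_ag.N.Sg
import Pool.Agent.Lib.MP_e426f4_ag.P.Alg

/-!
NKW-Global: from classes to all systems, weak approximation.

TEMPLATE: NKP/Global.lean (exceptional_small with gl_cell, gl_class). New: TYPES of local points. Fix Q0 = primorial W0 ^ s (Q0 ∈ P^s if primorial W0 ∈ P), R' with 1/R' ≤ del/8, the finite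
set Pr0 of the maximal ideals containing primorial W0 (empty if W0 < 2), and the finite type of types
Ty = ({P // P ∈ Pr0} -> MVar n -> IK K -> Fin Q0) × (InfinitePlace K -> MVar n -> Fin R' × Fin R').
(zp, zi) has type τ if for all P ∈ Pr0, v, l: (Q0 : ℤ) ∣ crd (zp P v) l - τ.1 P v l, and re, im of zi w' v are within 1/R' of -1 + (2 a + 1)/R' (a = the two entries of τ.2; gl_cell with H = 1).
T = Fintype.card Ty is fixed before w: eps' = eps / (4 T), w1 from hcls eps', w = max 2 (max w1 W0), del' = del / 2 for PCLSW, bet from inf_excW with radius del / 8 at all w' (minimum),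
rho0, R (1/R ≤ rho0), k with k ≥ s and all k vW ≥ k0 of padic_excW s (eps / (4 (M'+1))), cells (a, b) as in the template.
glW τ a b := ∃ H A, 1 ≤ H ∧ A ∈ BoxP H ∧ (cell a) ∧ (residue b) ∧ ∃ zp zi, (zp, zi) has type τ ∧ (∀ P | primorial w, GPP i0 P (k vW) A (zp P)) ∧ ∀ w', GIP i0 w' (rho0 H) ((bet H)^r) (sgP w' A) (zi w').
For (τ, a, b) with glW choose such zp, zi; the exceptional set is {A' in the cell | ¬ SolNear w k (del/2) zp zi A'}, at most eps' * (cell) for large H by hcls (apply it to A0 := A, Ainf := A / H as in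
the template; GIP for sysPC Ainf by MF_smul, PJac_smul, same point zi w').
Covering: A in the box, PELSeK A, ¬ WAe W0 s del A, not in the exceptional sets of inf_excW (radius del/8) and padic_excW. ¬ WAe gives c, x (local classes and zeros). Good points: zi w' within del/8 of
x w' (inf_excW); zp P for P | primorial w: if primorial W0 ∈ P take L = 2 k vW in the hypothesis on c P: z ≡ c P mod P^s with MF ∈ P^(2 k vW), BUnitK P z (s ≥ 1), so by padic_excW a good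
zp P ≡ z mod P^s; otherwise PLocP P A gives z. Let τ be the type of (zp, zi). With the chosen zp'', zi'' of (τ, a, b): zp'' ≡ zp mod Q0, so mod P^s, so ≡ c; |zi'' - zi| ≤ 4/R' ≤ del/2 - del/8...:
choose R' so that 4/R' + del/8 ≤ del/2. solNear_trans: SolNear w k (del/2) zp'' zi'' A would give SolNear W0 s del c x A. So A is in the exceptional set of (τ, a, b).
Sum: T * eps' * (2H)^(m NP) + (eps/4 + eps/4) (2H+1)^(m NP).
-/

set_option linter.unusedSectionVars false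

namespace NKWHP

open NumberField GenHP NFHP NKHP NKPHP Finset Filter Topology
open CIPHP (PSys NP PJac blk pev PJac_smul)

variable {K : Type} [Field K] [NumberField K] {ι : Type} [Fintype ι] [DecidableEq ι] {n : ι → ℕ}
  {r : ℕ} {d : Fin r → ι → ℕ}

/-- the centre of the cell `a` -/
private noncomputable def gwC (R : ℕ) (a : ∀ i : Fin r, MIdx n (d i) → IK K → Fin R) :
    PSys n d (IK K → ℝ) :=
  fun i t j => -1 + (2 * (a i t j : ℝ) + 1) / R

/-- the systems of a class without a zero near the given points -/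
private def gwS (w k : ℕ) (del : ℝ) (R Q : ℕ) (a : ∀ i : Fin r, MIdx n (d i) → IK K → Fin R)
    (b : ∀ i : Fin r, MIdx n (d i) → IK K → Fin Q) (zp : Ideal (𝓞 K) → MVar n → 𝓞 K)
    (zi : InfinitePlace K → MVar n → ℂ) (H : ℕ) : Set (PSys n d (𝓞 K)) :=
  {A | (∀ i t j, |(crd (A i t) j : ℝ) - H * gwC R a i t j| ≤ 1 / R * H) ∧
    (∀ i t j, (Q : ℤ) ∣ crd (A i t) j - ((b i t j : ℕ) : ℤ)) ∧ ¬ SolNear w k del zp zi A}

/-- the class has a witness with the given local points -/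
private def gwW (i0 : ι) (w k R Q : ℕ) (th bet : ℝ) (a : ∀ i : Fin r, MIdx n (d i) → IK K → Fin R)
    (b : ∀ i : Fin r, MIdx n (d i) → IK K → Fin Q) (zp : Ideal (𝓞 K) → MVar n → 𝓞 K)
    (zi : InfinitePlace K → MVar n → ℂ) : Prop :=
  ∃ (H : ℕ) (A : PSys n d (𝓞 K)), 1 ≤ H ∧ A ∈ BoxP K n d H ∧
    (∀ i t j, |(crd (A i t) j : ℝ) - H * gwC R a i t j| ≤ 1 / R * H) ∧
    (∀ i t j, (Q : ℤ) ∣ crd (A i t) j - ((b i t j : ℕ) : ℤ)) ∧
    (∀ w', GIP i0 w' (th * H) ((bet * H) ^ r) (sgP w' A) (zi w')) ∧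
    (∀ P : Ideal (𝓞 K), P.IsMaximal → (primorial w : 𝓞 K) ∈ P →
        GPP i0 P (k * vW (primorial w) P) A (zp P))

private theorem gw_cell (H R : ℕ) (hH : 1 ≤ H) (hR : 1 ≤ R) (z : ℝ) (hz : |z| ≤ H) :
    ∃ a : Fin R, |z - H * (-1 + (2 * (a : ℝ) + 1) / R)| ≤ 1 / R * H := by
  have hH0 : (0 : ℝ) < H := by exact_mod_cast hH
  have hR0 : (0 : ℝ) < R := by exact_mod_cast hR
  rw [abs_le] at hz
  set t : ℝ := (z / H + 1) * R / 2 with ht
  have ht0 : 0 ≤ t := by
    have : -1 ≤ z / H := by rw [le_div_iff₀ hH0]; linarith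
    rw [ht]
    have : 0 ≤ z / H + 1 := by linarith
    positivity
  have ht1 : t ≤ R := by
    have h1 : z / H ≤ 1 := by rw [div_le_iff₀ hH0]; linarith
    rw [ht]
    nlinarith
  have hkey : ∀ a : ℝ, |t - (a + 1 / 2)| ≤ 1 / 2 → |z - H * (-1 + (2 * a + 1) / R)| ≤ 1 / R * H := by
    intro a ha
    have e : z - H * (-1 + (2 * a + 1) / R) = (2 * H / R) * (t - (a + 1 / 2)) := by
      rw [ht]
      field_simp
      ring
    rw [e, abs_mul, abs_of_pos (by positivity : 0 < 2 * (H : ℝ) / R)]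
    calc 2 * (H : ℝ) / R * |t - (a + 1 / 2)| ≤ 2 * (H : ℝ) / R * (1 / 2) :=
          mul_le_mul_of_nonneg_left ha (by positivity)
      _ = 1 / R * H := by ring
  rcases lt_or_ge t R with hlt | hge
  · refine ⟨⟨⌊t⌋₊, (Nat.floor_lt ht0).mpr hlt⟩, hkey _ ?_⟩
    have h1 := Nat.floor_le ht0
    have h2 := Nat.lt_floor_add_one t
    simp only
    rw [abs_le]
    constructor <;> linarith
  · have htR : t = R := le_antisymm ht1 hge
    refine ⟨⟨R - 1, by omega⟩, hkey _ ?_⟩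
    simp only
    rw [Nat.cast_sub hR, htR, abs_le]
    push_cast
    constructor <;> linarith

private theorem gw_cell1 (R : ℕ) (hR : 1 ≤ R) (z : ℝ) (hz : |z| ≤ 1) :
    ∃ a : Fin R, |z - (-1 + (2 * (a : ℝ) + 1) / R)| ≤ 1 / R := by
  obtain ⟨a, ha⟩ := gw_cell 1 R le_rfl hR z (by simpa using hz)
  refine ⟨a, ?_⟩
  rwa [Nat.cast_one, one_mul, mul_one] at ha

private theorem gw_S_finite (w k : ℕ) (del : ℝ) (R Q : ℕ)
    (a : ∀ i : Fin r, MIdx n (d i) → IK K → Fin R)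
    (b : ∀ i : Fin r, MIdx n (d i) → IK K → Fin Q) (zp : Ideal (𝓞 K) → MVar n → 𝓞 K)
    (zi : InfinitePlace K → MVar n → ℂ) (H : ℕ) : (gwS w k del R Q a b zp zi H).Finite := by
  refine (BoxP_finite (K := K) (n := n) (d := d)
    (∑ i, ∑ t, ∑ j, |(H : ℝ) * gwC R a i t j| + 1 / R * H)).subset ?_
  intro A hA i t j
  have h1 := hA.1 i t j
  have h2 : |(H : ℝ) * gwC R a i t j| ≤ ∑ i, ∑ t, ∑ j, |(H : ℝ) * gwC R a i t j| := by
    refine le_trans ?_ (Finset.single_le_sum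
      (f := fun i => ∑ t, ∑ m, |(H : ℝ) * gwC R a i t m|)
      (fun _ _ => Finset.sum_nonneg fun _ _ => Finset.sum_nonneg fun _ _ => abs_nonneg _)
      (Finset.mem_univ i))
    refine le_trans ?_ (Finset.single_le_sum (f := fun t => ∑ m, |(H : ℝ) * gwC R a i t m|)
      (fun _ _ => Finset.sum_nonneg fun _ _ => abs_nonneg _) (Finset.mem_univ t))
    exact Finset.single_le_sum (f := fun m => |(H : ℝ) * gwC R a i t m|) (fun _ _ => abs_nonneg _)
      (Finset.mem_univ j)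
  calc |(crd (A i t) j : ℝ)| =
      |H * gwC R a i t j + ((crd (A i t) j : ℝ) - H * gwC R a i t j)| := by
        ring_nf
    _ ≤ |(H : ℝ) * gwC R a i t j| + |(crd (A i t) j : ℝ) - H * gwC R a i t j| := abs_add_le _ _
    _ ≤ _ := add_le_add h2 h1

private theorem gw_class (i0 : ι) (w k R : ℕ) (hk : 1 ≤ k) (hR : 1 ≤ R) (eps bet del : ℝ)
    (rho0 : ℝ)
    (hcl : ∀ rho : ℝ, 0 < rho → rho ≤ rho0 → ∀ k : ℕ, 1 ≤ k →
      ∀ (A0 : PSys n d (𝓞 K)) (zp : Ideal (𝓞 K) → MVar n → 𝓞 K),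
      (∀ P : Ideal (𝓞 K), P.IsMaximal → (primorial w : 𝓞 K) ∈ P →
        GPP i0 P (k * vW (primorial w) P) A0 (zp P)) →
      ∀ (AC Ainf : PSys n d (IK K → ℝ)) (zi : InfinitePlace K → MVar n → ℂ),
      (∀ j t l, |Ainf j t l| ≤ 1) →
      (∀ j t l, |AC j t l - Ainf j t l| ≤ rho) →
      (∀ w', GIP i0 w' rho0 (bet ^ r) (sysPC Ainf w') (zi w')) →
      ∀ᶠ H : ℝ in atTop,
        (Set.ncard {A : PSys n d (𝓞 K) |
          (∀ j t l, |(crd (A j t) l : ℝ) - H * AC j t l| ≤ rho * H) ∧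
          (∀ j t, (((primorial w) ^ (2 * k) : ℕ) : 𝓞 K) ∣ A j t - A0 j t) ∧
          ¬ SolNear w k del zp zi A} : ℝ) ≤
          eps * (2 * rho * H / ((primorial w : ℝ)) ^ (2 * k)) ^ (mK K * NP n d))
    (hrho : (1 : ℝ) / R ≤ rho0) (a : ∀ i : Fin r, MIdx n (d i) → IK K → Fin R)
    (b : ∀ i : Fin r, MIdx n (d i) → IK K → Fin (primorial w ^ (2 * k)))
    (zp : Ideal (𝓞 K) → MVar n → 𝓞 K) (zi : InfinitePlace K → MVar n → ℂ)
    (hW : gwW i0 w k R (primorial w ^ (2 * k)) rho0 bet a b zp zi) :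
    ∀ᶠ H : ℕ in atTop, ((gwS w k del R (primorial w ^ (2 * k)) a b zp zi H).ncard : ℝ) ≤
      eps * (2 * (1 / R) * H / (primorial w : ℝ) ^ (2 * k)) ^ (mK K * NP n d) := by
  obtain ⟨H0, A, hH0, hbox, hcell, hres, hgI, hp⟩ := hW
  have hR0 : (0 : ℝ) < R := by exact_mod_cast hR
  have hH0' : (0 : ℝ) < H0 := by exact_mod_cast hH0
  have h := hcl (1 / R) (by positivity) hrho k hk A zp hp (gwC R a)
    (fun i t j => (H0 : ℝ)⁻¹ * (crd (A i t) j : ℝ)) zi ?_ ?_ ?_
  · refine (tendsto_natCast_atTop_atTop.eventually h).mono fun H hH => ?_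
    refine le_trans ?_ hH
    have heq : gwS w k del R (primorial w ^ (2 * k)) a b zp zi H =
        {A' : PSys n d (𝓞 K) | (∀ i t j, |(crd (A' i t) j : ℝ) - (H : ℝ) * gwC R a i t j| ≤
          1 / R * (H : ℝ)) ∧
          (∀ i t, (((primorial w) ^ (2 * k) : ℕ) : 𝓞 K) ∣ A' i t - A i t) ∧
          ¬ SolNear w k del zp zi A'} := by
      ext A'
      unfold gwS
      refine and_congr_right fun _ => and_congr_left fun _ => forall_congr' fun i =>
        forall_congr' fun t => ?_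
      rw [natCast_dvd_iff]
      refine forall_congr' fun j => ?_
      have h1 := hres i t j
      rw [crd_sub]
      constructor
      · intro h2
        have := dvd_sub h2 h1
        simpa using this
      · intro h2
        have := dvd_add h2 h1
        simpa using this
    rw [heq]
  · intro i t j
    have h2 : |(crd (A i t) j : ℝ)| ≤ H0 := hbox i t j
    rw [abs_mul, abs_inv, abs_of_pos hH0', inv_mul_le_iff₀ hH0', mul_one]
    exact h2
  · intro i t j
    have h1 := hcell i t j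
    have e1 : gwC R a i t j - (H0 : ℝ)⁻¹ * (crd (A i t) j : ℝ) =
        -((H0 : ℝ)⁻¹ * ((crd (A i t) j : ℝ) - H0 * gwC R a i t j)) := by
      field_simp
      ring
    rw [e1, abs_neg, abs_mul, abs_inv, abs_of_pos hH0', inv_mul_le_iff₀ hH0']
    linarith
  · intro w'
    obtain ⟨hz, hF, J, hD⟩ := hgI w'
    have hlam : sysPC (fun i t j => (H0 : ℝ)⁻¹ * (crd (A i t) j : ℝ)) w' =
        fun i t => ((H0 : ℂ))⁻¹ * sgP w' A i t := by
      funext i t
      show lam (fun j => (H0 : ℝ)⁻¹ * (crd (A i t) j : ℝ)) w' = ((H0 : ℂ))⁻¹ * sg w' (A i t)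
      rw [lam_smul, lam_crd]
      push_cast
      rfl
    have hnorm : ‖((H0 : ℂ))⁻¹‖ = (H0 : ℝ)⁻¹ := by
      rw [norm_inv, Complex.norm_natCast]
    rw [hlam]
    refine ⟨hz, fun i => ?_, J, ?_⟩
    · rw [MF_smul, norm_mul, hnorm, inv_mul_le_iff₀ hH0']
      have h1 := hF i
      linarith
    · rw [PJac_smul, norm_mul, norm_pow, hnorm, inv_pow, le_inv_mul_iff₀ (by positivity)]
      rw [mul_pow] at hD
      linarith

/-- the maximal ideals containing the product of the primes `≤ w` -/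
private theorem gw_primes (K : Type) [Field K] [NumberField K] (w : ℕ) :
    {P : Ideal (𝓞 K) | P.IsMaximal ∧ (primorial w : 𝓞 K) ∈ P}.Finite := by
  have hprim0 : (primorial w : 𝓞 K) ≠ 0 := by
    exact_mod_cast (primorial_pos w).ne'
  have hspan0 : Ideal.span {(primorial w : 𝓞 K)} ≠ ⊥ := by
    rw [Ne, Ideal.span_singleton_eq_bot]
    exact hprim0
  refine (finite_ideals (K := K) (Ideal.absNorm (Ideal.span {(primorial w : 𝓞 K)}))).subset ?_
  rintro P ⟨-, hPw⟩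
  have hle : Ideal.span {(primorial w : 𝓞 K)} ≤ P := (Ideal.span_singleton_le_iff_mem P).2 hPw
  refine ⟨?_, ?_⟩
  · rintro rfl
    exact hspan0 (le_bot_iff.1 hle)
  · exact Nat.le_of_dvd (absNorm_pos hspan0) (Ideal.absNorm_dvd_absNorm_of_le hle)

/-- the local points have the type `t` -/
private def gwT (Pr0 : Finset (Ideal (𝓞 K))) (Q0 R' : ℕ)
    (t : ({P // P ∈ Pr0} → MVar n → IK K → Fin Q0) × (InfinitePlace K → MVar n → Fin R' × Fin R'))
    (zp : Ideal (𝓞 K) → MVar n → 𝓞 K) (zi : InfinitePlace K → MVar n → ℂ) : Prop :=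
  (∀ (P : {P // P ∈ Pr0}) v l, (Q0 : ℤ) ∣ crd (zp P.1 v) l - ((t.1 P v l : ℕ) : ℤ)) ∧
    ∀ w' v, |(zi w' v).re - (-1 + (2 * ((t.2 w' v).1 : ℝ) + 1) / R')| ≤ 1 / R' ∧
      |(zi w' v).im - (-1 + (2 * ((t.2 w' v).2 : ℝ) + 1) / R')| ≤ 1 / R'

private theorem gwT_exists (Pr0 : Finset (Ideal (𝓞 K))) (Q0 R' : ℕ) (hQ0 : 0 < Q0) (hR' : 1 ≤ R')
    (zp : Ideal (𝓞 K) → MVar n → 𝓞 K) (zi : InfinitePlace K → MVar n → ℂ)
    (hzi : ∀ w' v, ‖zi w' v‖ ≤ 1) : ∃ t, gwT Pr0 Q0 R' t zp zi := by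
  have hbex : ∀ z : ℤ, ∃ b : Fin Q0, (Q0 : ℤ) ∣ z - ((b : ℕ) : ℤ) := by
    intro z
    have hQz : (0 : ℤ) < Q0 := by exact_mod_cast hQ0
    have h0 : 0 ≤ z % Q0 := Int.emod_nonneg _ hQz.ne'
    have h1 : z % Q0 < Q0 := Int.emod_lt_of_pos _ hQz
    refine ⟨⟨(z % Q0).toNat, by omega⟩, ?_⟩
    simp only
    rw [Int.toNat_of_nonneg h0]
    exact Int.dvd_self_sub_emod
  choose f hf using hbex
  choose g1 hg1 using fun (w' : InfinitePlace K) (v : MVar n) => gw_cell1 R' hR' (zi w' v).re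
    ((Complex.abs_re_le_norm _).trans (hzi w' v))
  choose g2 hg2 using fun (w' : InfinitePlace K) (v : MVar n) => gw_cell1 R' hR' (zi w' v).im
    ((Complex.abs_im_le_norm _).trans (hzi w' v))
  exact ⟨(fun P v l => f (crd (zp P.1 v) l), fun w' v => (g1 w' v, g2 w' v)),
    fun P v l => hf _, fun w' v => ⟨hg1 w' v, hg2 w' v⟩⟩

private theorem gwT_p (Pr0 : Finset (Ideal (𝓞 K))) (Q0 R' : ℕ)
    (t : ({P // P ∈ Pr0} → MVar n → IK K → Fin Q0) × (InfinitePlace K → MVar n → Fin R' × Fin R'))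
    (zp zp' : Ideal (𝓞 K) → MVar n → 𝓞 K) (zi zi' : InfinitePlace K → MVar n → ℂ)
    (h : gwT Pr0 Q0 R' t zp zi) (h' : gwT Pr0 Q0 R' t zp' zi') (P : Ideal (𝓞 K)) (hP : P ∈ Pr0)
    (v : MVar n) : (Q0 : 𝓞 K) ∣ zp' P v - zp P v := by
  rw [natCast_dvd_iff]
  intro l
  rw [crd_sub]
  have h1 := h.1 ⟨P, hP⟩ v l
  have h2 := h'.1 ⟨P, hP⟩ v l
  have := dvd_sub h2 h1
  simpa using this

private theorem gwT_i (Pr0 : Finset (Ideal (𝓞 K))) (Q0 R' : ℕ)
    (t : ({P // P ∈ Pr0} → MVar n → IK K → Fin Q0) × (InfinitePlace K → MVar n → Fin R' × Fin R'))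
    (zp zp' : Ideal (𝓞 K) → MVar n → 𝓞 K) (zi zi' : InfinitePlace K → MVar n → ℂ)
    (h : gwT Pr0 Q0 R' t zp zi) (h' : gwT Pr0 Q0 R' t zp' zi') (w' : InfinitePlace K)
    (v : MVar n) : ‖zi' w' v - zi w' v‖ ≤ 4 * (1 / R') := by
  obtain ⟨h1, h2⟩ := h.2 w' v
  obtain ⟨h3, h4⟩ := h'.2 w' v
  refine (Complex.norm_le_abs_re_add_abs_im _).trans ?_
  rw [Complex.sub_re, Complex.sub_im]
  rw [abs_le] at h1 h2 h3 h4
  have h5 : |(zi' w' v).re - (zi w' v).re| ≤ 2 * (1 / R') := by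
    rw [abs_le]
    constructor <;> linarith [h1.1, h1.2, h3.1, h3.2]
  have h6 : |(zi' w' v).im - (zi w' v).im| ≤ 2 * (1 / R') := by
    rw [abs_le]
    constructor <;> linarith [h2.1, h2.2, h4.1, h4.2]
  linarith

theorem global_W (hr : 1 ≤ r) (hd : ∀ j i, 1 ≤ d j i) (i0 : ι) (hn0 : r ≤ n i0)
    (hcls : PCLSW K n d i0) (W0 s : ℕ) (hs : 1 ≤ s) (del : ℝ) (hdel : 0 < del) (eps : ℝ)
    (heps : 0 < eps) :
    ∀ᶠ H : ℕ in atTop,
      (Set.ncard {A : PSys n d (𝓞 K) | A ∈ BoxP K n d H ∧ PELSeK A ∧ ¬ WAe W0 s del A} : ℝ) ≤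
        eps * (2 * H + 1) ^ (mK K * NP n d) := by
  classical
  set M : ℝ := (Fintype.card (InfinitePlace K) : ℝ) with hM
  have hM0 : 0 ≤ M := Nat.cast_nonneg _
  -- the types
  obtain ⟨R', hR', hR'd⟩ : ∃ R' : ℕ, 1 ≤ R' ∧ (1 : ℝ) / R' ≤ del / 16 := by
    obtain ⟨m, hm⟩ := exists_nat_one_div_lt (show 0 < del / 16 by positivity)
    refine ⟨m + 1, by omega, ?_⟩
    push_cast
    exact hm.le
  set Q0 : ℕ := primorial W0 ^ s with hQ0
  have hQ0pos : 0 < Q0 := pow_pos (primorial_pos W0) _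
  set Pr0 : Finset (Ideal (𝓞 K)) := (gw_primes K W0).toFinset with hPr0
  have hPr0m : ∀ P, P ∈ Pr0 ↔ P.IsMaximal ∧ (primorial W0 : 𝓞 K) ∈ P := fun P =>
    Set.Finite.mem_toFinset _
  have hQ0mem : ∀ P ∈ Pr0, (Q0 : 𝓞 K) ∈ P ^ s := by
    intro P hP
    rw [hQ0]
    push_cast
    exact Ideal.pow_mem_pow ((hPr0m P).1 hP).2 s
  have fT : Finite (({P // P ∈ Pr0} → MVar n → IK K → Fin Q0) ×
    (InfinitePlace K → MVar n → Fin R' × Fin R')) := inferInstance
  have iT : Fintype (({P // P ∈ Pr0} → MVar n → IK K → Fin Q0) ×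
    (InfinitePlace K → MVar n → Fin R' × Fin R')) := Fintype.ofFinite _
  obtain ⟨T, hT⟩ : ∃ T : ℝ, T = (@Fintype.card (({P // P ∈ Pr0} → MVar n → IK K → Fin Q0) ×
    (InfinitePlace K → MVar n → Fin R' × Fin R')) iT : ℝ) := ⟨_, rfl⟩
  have hT0 : 0 ≤ T := by rw [hT]; exact Nat.cast_nonneg _
  have heT : 0 < eps / (4 * (T + 1)) := by positivity
  -- w
  obtain ⟨w1, hw1⟩ := hcls (eps / (4 * (T + 1))) heT
  set w : ℕ := max 2 (max w1 W0) with hw
  have hw2 : 2 ≤ w := le_max_left _ _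
  have hww : w1 ≤ w := (le_max_left _ _).trans (le_max_right _ _)
  have hwW : W0 ≤ w := (le_max_right _ _).trans (le_max_right _ _)
  -- bet
  have hinf : ∀ w' : InfinitePlace K, ∃ bet : ℝ, 0 < bet ∧ bet ≤ 1 ∧ ∀ th : ℝ, 0 < th →
      ∀ᶠ H : ℕ in atTop,
      (Set.ncard {A : PSys n d (𝓞 K) | A ∈ BoxP K n d H ∧ ∃ z : MVar n → ℂ, BPtI w' z ∧
        (∀ j, MF (sgP w' A j) z = 0) ∧
        ¬ ∃ z' : MVar n → ℂ, (∀ v, ‖z' v - z v‖ ≤ del / 8) ∧
          GIP i0 w' (th * H) ((bet * H) ^ r) (sgP w' A) z'} : ℝ) ≤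
        (eps / (4 * (M + 1))) * (2 * H + 1) ^ (mK K * NP n d) := fun w' =>
    inf_excW w' hr hd i0 hn0 (del / 8) (by positivity) _ (by positivity)
  choose betf hbf0 hbf1 hbf using hinf
  obtain ⟨bet, hb, hb1, hbm⟩ : ∃ bet : ℝ, 0 < bet ∧ bet ≤ 1 ∧ ∀ w', bet ≤ betf w' := by
    obtain ⟨v, -, hv⟩ := Finset.exists_min_image (univ : Finset (InfinitePlace K)) betf
      ⟨Classical.arbitrary _, mem_univ _⟩
    exact ⟨betf v, hbf0 v, hbf1 v, fun w' => hv w' (mem_univ _)⟩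
  obtain ⟨rho0, hrho0, hrho01, hcl⟩ := hw1 w hww hw2 (bet ^ r) (by positivity)
    (pow_le_one₀ hb.le hb1) (del / 2) (by positivity)
  -- R
  obtain ⟨R, hR, hRrho⟩ : ∃ R : ℕ, 1 ≤ R ∧ (1 : ℝ) / R ≤ rho0 := by
    obtain ⟨m, hm⟩ := exists_nat_one_div_lt hrho0
    refine ⟨m + 1, by omega, ?_⟩
    push_cast
    exact hm.le
  have hR0 : (0 : ℝ) < R := by exact_mod_cast hR
  -- the primes dividing `primorial w`
  set Pr : Finset (Ideal (𝓞 K)) := (gw_primes K w).toFinset with hPr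
  have hPrm : ∀ P, P ∈ Pr ↔ P.IsMaximal ∧ (primorial w : 𝓞 K) ∈ P := fun P =>
    Set.Finite.mem_toFinset _
  set M' : ℝ := (Pr.card : ℝ) with hM'
  have hM'0 : 0 ≤ M' := Nat.cast_nonneg _
  have hpad : ∀ P : Ideal (𝓞 K), ∃ k0 : ℕ, P.IsMaximal → ∀ a : ℕ, k0 ≤ a →
      ∀ᶠ H : ℕ in atTop,
      (Set.ncard {A : PSys n d (𝓞 K) | A ∈ BoxP K n d H ∧
        ∃ z : MVar n → 𝓞 K, BUnitK P z ∧ (∀ j, MF (A j) z ∈ P ^ (2 * a)) ∧
          ¬ ∃ z' : MVar n → 𝓞 K, (∀ v, z' v - z v ∈ P ^ s) ∧ GPP i0 P a A z'} : ℝ) ≤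
        eps / (4 * (M' + 1)) * (2 * H + 1) ^ (mK K * NP n d) := by
    intro P
    by_cases hP : P.IsMaximal
    · obtain ⟨k0, h⟩ := padic_excW (n := n) (d := d) hr hd i0 hn0 P hP s hs
        (eps / (4 * (M' + 1))) (by positivity)
      exact ⟨k0, fun _ => h⟩
    · exact ⟨0, fun h => absurd h hP⟩
  choose kf hkf using hpad
  -- k
  set kc : ℕ := 1 + s + ∑ P ∈ Pr, kf P with hkc
  have hkc1 : 1 ≤ kc := by omega
  have hkcs : s ≤ kc := by omega
  have hkck : ∀ P ∈ Pr, kf P ≤ kc := by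
    intro P hP
    have h1 := Finset.single_le_sum (f := kf) (fun _ _ => Nat.zero_le _) hP
    omega
  set Q : ℕ := primorial w ^ (2 * kc) with hQ
  have hQpos : 0 < Q := pow_pos (primorial_pos w) _
  have hQ0' : (0 : ℝ) < Q := by exact_mod_cast hQpos
  have hQcast : (primorial w : ℝ) ^ (2 * kc) = Q := by rw [hQ]; push_cast; rfl
  have hv1 : ∀ P ∈ Pr, 1 ≤ vW (primorial w) P := by
    intro P hP
    unfold vW
    apply multiplicity_pos_of_dvd
    rw [Ideal.dvd_span_singleton]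
    exact ((hPrm P).1 hP).2
  have hkv : ∀ P ∈ Pr, kf P ≤ kc * vW (primorial w) P := fun P hP =>
    (hkck P hP).trans (Nat.le_mul_of_pos_right kc (hv1 P hP))
  have iR : Fintype (∀ i : Fin r, MIdx n (d i) → IK K → Fin R) := inferInstance
  have iQ : Fintype (∀ i : Fin r, MIdx n (d i) → IK K → Fin Q) := inferInstance
  -- the chosen points
  have hpick : ∀ q : (({P // P ∈ Pr0} → MVar n → IK K → Fin Q0) ×
      (InfinitePlace K → MVar n → Fin R' × Fin R')) ×
      ((∀ i : Fin r, MIdx n (d i) → IK K → Fin R) × (∀ i : Fin r, MIdx n (d i) → IK K → Fin Q)),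
      ∃ (zp : Ideal (𝓞 K) → MVar n → 𝓞 K) (zi : InfinitePlace K → MVar n → ℂ),
        (∃ zp zi, gwT Pr0 Q0 R' q.1 zp zi ∧ gwW i0 w kc R Q rho0 bet q.2.1 q.2.2 zp zi) →
        gwT Pr0 Q0 R' q.1 zp zi ∧ gwW i0 w kc R Q rho0 bet q.2.1 q.2.2 zp zi := by
    intro q
    by_cases h : ∃ zp zi, gwT Pr0 Q0 R' q.1 zp zi ∧ gwW i0 w kc R Q rho0 bet q.2.1 q.2.2 zp zi
    · obtain ⟨zp, zi, h1⟩ := h
      exact ⟨zp, zi, fun _ => h1⟩
    · exact ⟨fun _ _ => 0, fun _ _ => 0, fun h1 => absurd h1 h⟩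
  choose ZP ZI hZ using hpick
  -- eventual bounds
  have h1 : ∀ᶠ H : ℕ in atTop, ∀ q : (({P // P ∈ Pr0} → MVar n → IK K → Fin Q0) ×
      (InfinitePlace K → MVar n → Fin R' × Fin R')) ×
      ((∀ i : Fin r, MIdx n (d i) → IK K → Fin R) × (∀ i : Fin r, MIdx n (d i) → IK K → Fin Q)),
      gwW i0 w kc R Q rho0 bet q.2.1 q.2.2 (ZP q) (ZI q) →
      ((gwS w kc (del / 2) R Q q.2.1 q.2.2 (ZP q) (ZI q) H).ncard : ℝ) ≤
        eps / (4 * (T + 1)) * (2 * (1 / R) * H / Q) ^ (mK K * NP n d) := by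
    rw [Filter.eventually_all]
    intro q
    by_cases hW : gwW i0 w kc R Q rho0 bet q.2.1 q.2.2 (ZP q) (ZI q)
    · have := gw_class i0 w kc R hkc1 hR (eps / (4 * (T + 1))) bet (del / 2) rho0 hcl hRrho
        q.2.1 q.2.2 (ZP q) (ZI q) hW
      rw [hQcast] at this
      exact this.mono fun H hH _ => hH
    · exact Filter.Eventually.of_forall fun H h => absurd h hW
  have h2 : ∀ᶠ H : ℕ in atTop, ∀ w' : InfinitePlace K,
      (Set.ncard {A : PSys n d (𝓞 K) | A ∈ BoxP K n d H ∧ ∃ z : MVar n → ℂ, BPtI w' z ∧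
        (∀ j, MF (sgP w' A j) z = 0) ∧
        ¬ ∃ z' : MVar n → ℂ, (∀ v, ‖z' v - z v‖ ≤ del / 8) ∧
          GIP i0 w' (rho0 * H) ((betf w' * H) ^ r) (sgP w' A) z'} : ℝ) ≤
        (eps / (4 * (M + 1))) * (2 * H + 1) ^ (mK K * NP n d) := by
    rw [Filter.eventually_all]
    exact fun w' => hbf w' rho0 hrho0
  have h3 : ∀ᶠ H : ℕ in atTop, ∀ P ∈ Pr,
      (Set.ncard {A : PSys n d (𝓞 K) | A ∈ BoxP K n d H ∧
        ∃ z : MVar n → 𝓞 K, BUnitK P z ∧
          (∀ j, MF (A j) z ∈ P ^ (2 * (kc * vW (primorial w) P))) ∧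
          ¬ ∃ z' : MVar n → 𝓞 K, (∀ v, z' v - z v ∈ P ^ s) ∧
            GPP i0 P (kc * vW (primorial w) P) A z'} : ℝ) ≤
        eps / (4 * (M' + 1)) * (2 * H + 1) ^ (mK K * NP n d) := by
    rw [Filter.eventually_all_finset]
    intro P hP
    exact hkf P ((hPrm P).1 hP).1 _ (hkv P hP)
  filter_upwards [h1, h2, h3, Filter.eventually_ge_atTop 1] with H h1 h2 h3 hH
  have hbfin : (BoxP K n d H).Finite := BoxP_finite (H : ℝ)
  have hbm' : ∀ A, A ∈ hbfin.toFinset ↔ A ∈ BoxP K n d H := fun A => Set.Finite.mem_toFinset _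
  -- the finsets
  set E : Finset (PSys n d (𝓞 K)) := hbfin.toFinset.filter (fun A => PELSeK A ∧ ¬ WAe W0 s del A)
    with hE
  set EI : InfinitePlace K → Finset (PSys n d (𝓞 K)) := fun w' => hbfin.toFinset.filter (fun A =>
      ∃ z : MVar n → ℂ, BPtI w' z ∧ (∀ j, MF (sgP w' A j) z = 0) ∧
        ¬ ∃ z' : MVar n → ℂ, (∀ v, ‖z' v - z v‖ ≤ del / 8) ∧
          GIP i0 w' (rho0 * H) ((betf w' * H) ^ r) (sgP w' A) z') with hEI
  set EP : Ideal (𝓞 K) → Finset (PSys n d (𝓞 K)) := fun P => hbfin.toFinset.filter (fun A =>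
      ∃ z : MVar n → 𝓞 K, BUnitK P z ∧
          (∀ j, MF (A j) z ∈ P ^ (2 * (kc * vW (primorial w) P))) ∧
          ¬ ∃ z' : MVar n → 𝓞 K, (∀ v, z' v - z v ∈ P ^ s) ∧
            GPP i0 P (kc * vW (primorial w) P) A z') with hEP
  set GW : Finset ((({P // P ∈ Pr0} → MVar n → IK K → Fin Q0) ×
      (InfinitePlace K → MVar n → Fin R' × Fin R')) ×
      ((∀ i : Fin r, MIdx n (d i) → IK K → Fin R) ×
      (∀ i : Fin r, MIdx n (d i) → IK K → Fin Q))) :=
    Finset.univ.filter (fun q => gwW i0 w kc R Q rho0 bet q.2.1 q.2.2 (ZP q) (ZI q)) with hGW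
  have hfin : ∀ q : (({P // P ∈ Pr0} → MVar n → IK K → Fin Q0) ×
      (InfinitePlace K → MVar n → Fin R' × Fin R')) ×
      ((∀ i : Fin r, MIdx n (d i) → IK K → Fin R) × (∀ i : Fin r, MIdx n (d i) → IK K → Fin Q)),
    (gwS w kc (del / 2) R Q q.2.1 q.2.2 (ZP q) (ZI q) H).Finite :=
      fun q => gw_S_finite w kc (del / 2) R Q q.2.1 q.2.2 (ZP q) (ZI q) H
  have hsub : E ⊆ (GW.biUnion fun q => (hfin q).toFinset) ∪
      ((univ : Finset (InfinitePlace K)).biUnion EI) ∪ (Pr.biUnion EP) := by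
    intro A hA
    rw [hE, Finset.mem_filter, hbm'] at hA
    obtain ⟨hAbox, ⟨hpad0, hinf0⟩, hns⟩ := hA
    by_cases hr' : ∃ w', A ∈ EI w'
    · obtain ⟨w', hw'⟩ := hr'
      exact Finset.mem_union_left _ (Finset.mem_union_right _
        (Finset.mem_biUnion.mpr ⟨w', mem_univ _, hw'⟩))
    by_cases hpp : ∃ P ∈ Pr, A ∈ EP P
    · exact Finset.mem_union_right _ (Finset.mem_biUnion.mpr hpp)
    refine Finset.mem_union_left _ (Finset.mem_union_left _ ?_)
    -- the local points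
    unfold WAe at hns
    push Not at hns
    obtain ⟨c, x, hc, hx, hnear⟩ := hns
    have hzi : ∀ w', ∃ z' : MVar n → ℂ, (∀ v, ‖z' v - x w' v‖ ≤ del / 8) ∧
        GIP i0 w' (rho0 * H) ((betf w' * H) ^ r) (sgP w' A) z' := by
      intro w'
      by_contra hcon
      exact hr' ⟨w', Finset.mem_filter.mpr ⟨(hbm' A).2 hAbox, x w', (hx w').1, (hx w').2, hcon⟩⟩
    choose zi hzi1 hzi2 using hzi
    have hgoodP : ∀ P ∈ Pr, ∀ z : MVar n → 𝓞 K, BUnitK P z →
        (∀ j, MF (A j) z ∈ P ^ (2 * (kc * vW (primorial w) P))) →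
        ∃ z' : MVar n → 𝓞 K, (∀ v, z' v - z v ∈ P ^ s) ∧
          GPP i0 P (kc * vW (primorial w) P) A z' := by
      intro P hP z hz1 hz2
      by_contra hcon
      exact hpp ⟨P, hP, Finset.mem_filter.mpr ⟨(hbm' A).2 hAbox, z, hz1, hz2, hcon⟩⟩
    have hzp : ∀ P : Ideal (𝓞 K), ∃ zP : MVar n → 𝓞 K,
        (P ∈ Pr → GPP i0 P (kc * vW (primorial w) P) A zP) ∧
        (P ∈ Pr0 → ∀ v, zP v - c P v ∈ P ^ s) := by
      intro P
      by_cases hP0 : P ∈ Pr0
      · obtain ⟨hPm, hPW⟩ := (hPr0m P).1 hP0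
        have hP : P ∈ Pr := (hPrm P).2 ⟨hPm, primorial_mem hwW P hPW⟩
        obtain ⟨hcu, hcL⟩ := hc P hPm hPW
        obtain ⟨z, hz1, hz2⟩ := hcL (2 * (kc * vW (primorial w) P))
        have hzu : BUnitK P z := by
          intro i
          obtain ⟨a, ha⟩ := hcu i
          refine ⟨a, fun hza => ha ?_⟩
          have h5 : z ⟨i, a⟩ - c P ⟨i, a⟩ ∈ P := Ideal.pow_le_self (by omega) (hz1 ⟨i, a⟩)
          have h6 : c P ⟨i, a⟩ = z ⟨i, a⟩ - (z ⟨i, a⟩ - c P ⟨i, a⟩) := by ring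
          rw [h6]
          exact P.sub_mem hza h5
        obtain ⟨z', hz'1, hz'2⟩ := hgoodP P hP z hzu hz2
        refine ⟨z', fun _ => hz'2, fun _ v => ?_⟩
        have h6 : z' v - c P v = (z' v - z v) + (z v - c P v) := by ring
        rw [h6]
        exact (P ^ s).add_mem (hz'1 v) (hz1 v)
      · by_cases hP : P ∈ Pr
        · obtain ⟨z, hz1, hz2⟩ := hpad0 P ((hPrm P).1 hP).1 (2 * (kc * vW (primorial w) P))
          obtain ⟨z', -, hz'2⟩ := hgoodP P hP z hz1 hz2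
          exact ⟨z', fun _ => hz'2, fun h => absurd h hP0⟩
        · exact ⟨fun _ => 0, fun h => absurd h hP, fun h => absurd h hP0⟩
    choose zp hzp1 hzp2 using hzp
    -- the type
    obtain ⟨ty, hty⟩ := gwT_exists Pr0 Q0 R' hQ0pos hR' zp zi (fun w' v => (hzi2 w').1.2.1 v)
    -- the cell
    choose a ha using fun i t j => gw_cell H R hH hR (crd (A i t) j : ℝ) (hAbox i t j)
    have hbex : ∀ i t j, ∃ b : Fin Q, (Q : ℤ) ∣ crd (A i t) j - ((b : ℕ) : ℤ) := by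
      intro i t j
      have hQz : (0 : ℤ) < Q := by exact_mod_cast hQpos
      have h0 : 0 ≤ crd (A i t) j % Q := Int.emod_nonneg _ hQz.ne'
      have h1 : crd (A i t) j % Q < Q := Int.emod_lt_of_pos _ hQz
      refine ⟨⟨(crd (A i t) j % Q).toNat, by omega⟩, ?_⟩
      simp only
      rw [Int.toNat_of_nonneg h0]
      exact Int.dvd_self_sub_emod
    choose b hb' using hbex
    have hWit : gwW i0 w kc R Q rho0 bet a b zp zi := by
      refine ⟨H, A, hH, hAbox, ha, hb', ?_, ?_⟩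
      · intro w'
        obtain ⟨hz, hF, J, hJ⟩ := hzi2 w'
        refine ⟨hz, hF, J, le_trans ?_ hJ⟩
        exact pow_le_pow_left₀ (by positivity)
          (mul_le_mul_of_nonneg_right (hbm w') (Nat.cast_nonneg _)) _
      · intro P hP hPw
        exact hzp1 P ((hPrm P).2 ⟨hP, hPw⟩)
    obtain ⟨hT1, hW1⟩ := hZ (ty, (a, b)) ⟨zp, zi, hty, hWit⟩
    refine Finset.mem_biUnion.mpr ⟨(ty, (a, b)), ?_, ?_⟩
    · rw [hGW, Finset.mem_filter]
      exact ⟨Finset.mem_univ _, hW1⟩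
    · rw [Set.Finite.mem_toFinset]
      refine ⟨ha, hb', fun hsol => hnear ?_⟩
      refine solNear_trans hwW hkcs (by linarith : del / 2 + del / 2 ≤ del) c (ZP (ty, (a, b))) x
        (ZI (ty, (a, b))) A hsol ?_ ?_
      · intro P hPm hPW v
        have hP0 : P ∈ Pr0 := (hPr0m P).2 ⟨hPm, hPW⟩
        have h5 := gwT_p Pr0 Q0 R' ty zp (ZP (ty, (a, b))) zi (ZI (ty, (a, b))) hty hT1 P hP0 v
        have h6 : ZP (ty, (a, b)) P v - c P v =
            (ZP (ty, (a, b)) P v - zp P v) + (zp P v - c P v) := by ring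
        rw [h6]
        exact (P ^ s).add_mem (Ideal.mem_of_dvd _ h5 (hQ0mem P hP0)) (hzp2 P hP0 v)
      · intro w' v
        have h5 := gwT_i Pr0 Q0 R' ty zp (ZP (ty, (a, b))) zi (ZI (ty, (a, b))) hty hT1 w' v
        have h6 : ZI (ty, (a, b)) w' v - x w' v =
            (ZI (ty, (a, b)) w' v - zi w' v) + (zi w' v - x w' v) := by ring
        rw [h6]
        refine (norm_add_le _ _).trans ?_
        have h7 := hzi1 w' v
        linarith
  have hcardE : Set.ncard {A : PSys n d (𝓞 K) | A ∈ BoxP K n d H ∧ PELSeK A ∧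
      ¬ WAe W0 s del A} = E.card := by
    rw [← Set.ncard_coe_finset]
    congr 1
    ext A
    rw [Finset.mem_coe, hE, Finset.mem_filter, hbm']
    rfl
  have hpos : 0 ≤ (2 * (H : ℝ) + 1) ^ (mK K * NP n d) := by positivity
  have hcardI : ∀ w', ((EI w').card : ℝ) ≤
      (eps / (4 * (M + 1))) * (2 * H + 1) ^ (mK K * NP n d) := by
    intro w'
    refine le_trans (le_of_eq ?_) (h2 w')
    rw [← Set.ncard_coe_finset]
    congr 2
    ext A
    rw [Finset.mem_coe, hEI]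
    simp only [Finset.mem_filter, hbm']
    rfl
  have hcardP : ∀ P ∈ Pr, ((EP P).card : ℝ) ≤ eps / (4 * (M' + 1)) *
      (2 * H + 1) ^ (mK K * NP n d) := by
    intro P hP
    refine le_trans (le_of_eq ?_) (h3 P hP)
    rw [← Set.ncard_coe_finset]
    congr 2
    ext A
    rw [Finset.mem_coe, hEP]
    simp only [Finset.mem_filter, hbm']
    rfl
  have hcardS : ∀ q ∈ GW, (((hfin q).toFinset).card : ℝ) ≤
      eps / (4 * (T + 1)) * (2 * (1 / R) * H / Q) ^ (mK K * NP n d) := by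
    intro q hq
    rw [← Set.ncard_eq_toFinset_card _ (hfin q)]
    exact h1 q (Finset.mem_filter.mp hq).2
  rw [hcardE]
  have hcS : ∀ M : ℕ, Fintype.card (∀ i : Fin r, MIdx n (d i) → IK K → Fin M) =
      M ^ (mK K * NP n d) := by
    intro M
    rw [Fintype.card_pi]
    unfold NP NM
    rw [Finset.mul_sum, ← Finset.prod_pow_eq_pow_sum]
    refine Finset.prod_congr rfl fun i _ => ?_
    rw [Fintype.card_fun, Fintype.card_fun, Fintype.card_fin, card_IK, ← pow_mul]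
  have hcR : ∀ (M : ℕ) (i : Fintype (∀ i : Fin r, MIdx n (d i) → IK K → Fin M)),
      @Fintype.card _ i = M ^ (mK K * NP n d) := by
    intro M i
    rw [← hcS M]
    exact congrArg (fun i => @Fintype.card _ i) (Subsingleton.elim _ _)
  have hGWcard : (GW.card : ℝ) ≤ T * ((R : ℝ) ^ (mK K * NP n d) * (Q : ℝ) ^ (mK K * NP n d)) := by
    have h6 : GW.card ≤ (@Fintype.card (({P // P ∈ Pr0} → MVar n → IK K → Fin Q0) ×
        (InfinitePlace K → MVar n → Fin R' × Fin R')) iT) *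
        (R ^ (mK K * NP n d) * Q ^ (mK K * NP n d)) := by
      refine (Finset.card_le_univ _).trans (le_of_eq ?_)
      rw [Fintype.card_prod, Fintype.card_prod]
      exact congrArg₂ (· * ·) (congrArg (fun i => @Fintype.card _ i) (Subsingleton.elim _ _))
        (congrArg₂ (· * ·) (hcR R iR) (hcR Q iQ))
    have h7 : (GW.card : ℝ) ≤ ((@Fintype.card (({P // P ∈ Pr0} → MVar n → IK K → Fin Q0) ×
        (InfinitePlace K → MVar n → Fin R' × Fin R')) iT *
        (R ^ (mK K * NP n d) * Q ^ (mK K * NP n d)) : ℕ) : ℝ) := by exact_mod_cast h6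
    refine h7.trans (le_of_eq ?_)
    rw [hT]
    push_cast
    rfl
  have hsumS : ((GW.biUnion fun q => (hfin q).toFinset).card : ℝ) ≤
      eps / 4 * (2 * H + 1) ^ (mK K * NP n d) := by
    calc ((GW.biUnion fun q => (hfin q).toFinset).card : ℝ)
        ≤ ∑ q ∈ GW, (((hfin q).toFinset).card : ℝ) := by exact_mod_cast Finset.card_biUnion_le
      _ ≤ ∑ q ∈ GW, (eps / (4 * (T + 1)) * (2 * (1 / R) * H / Q) ^ (mK K * NP n d) : ℝ) :=
          Finset.sum_le_sum hcardS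
      _ = (GW.card : ℝ) * (eps / (4 * (T + 1)) * (2 * (1 / R) * H / Q) ^ (mK K * NP n d)) := by
          rw [Finset.sum_const, nsmul_eq_mul]
      _ ≤ (T * ((R : ℝ) ^ (mK K * NP n d) * (Q : ℝ) ^ (mK K * NP n d))) *
            (eps / (4 * (T + 1)) * (2 * (1 / R) * H / Q) ^ (mK K * NP n d)) :=
          mul_le_mul_of_nonneg_right hGWcard (by positivity)
      _ = (T * (eps / (4 * (T + 1)))) * (2 * H) ^ (mK K * NP n d) := by
          have h7 : (2 * (H : ℝ)) = R * Q * (2 * (1 / R) * H / Q) := by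
            field_simp
          rw [h7, mul_pow, mul_pow]
          ring
      _ ≤ eps / 4 * (2 * H) ^ (mK K * NP n d) := by
          refine mul_le_mul_of_nonneg_right ?_ (by positivity)
          rw [mul_div_assoc', div_le_div_iff₀ (by positivity) (by positivity)]
          nlinarith
      _ ≤ eps / 4 * (2 * H + 1) ^ (mK K * NP n d) := by
          refine mul_le_mul_of_nonneg_left ?_ (by positivity)
          exact pow_le_pow_left₀ (by positivity) (by linarith) _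
  have hsumI : (((univ : Finset (InfinitePlace K)).biUnion EI).card : ℝ) ≤
      eps / 4 * (2 * H + 1) ^ (mK K * NP n d) := by
    calc (((univ : Finset (InfinitePlace K)).biUnion EI).card : ℝ) ≤
        ∑ w' : InfinitePlace K, ((EI w').card : ℝ) := by
          exact_mod_cast Finset.card_biUnion_le
      _ ≤ ∑ _w' : InfinitePlace K, (eps / (4 * (M + 1))) * (2 * H + 1) ^ (mK K * NP n d) :=
          Finset.sum_le_sum fun w' _ => hcardI w'
      _ = M * ((eps / (4 * (M + 1))) * (2 * H + 1) ^ (mK K * NP n d)) := by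
          rw [Finset.sum_const, Finset.card_univ, nsmul_eq_mul]
      _ = (M * (eps / (4 * (M + 1)))) * (2 * H + 1) ^ (mK K * NP n d) := by ring
      _ ≤ eps / 4 * (2 * H + 1) ^ (mK K * NP n d) := by
          apply mul_le_mul_of_nonneg_right _ hpos
          rw [mul_div_assoc', div_le_div_iff₀ (by positivity) (by positivity)]
          nlinarith
  have hsumP : ((Pr.biUnion EP).card : ℝ) ≤ eps / 4 * (2 * H + 1) ^ (mK K * NP n d) := by
    calc ((Pr.biUnion EP).card : ℝ) ≤ ∑ P ∈ Pr, ((EP P).card : ℝ) := by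
          exact_mod_cast Finset.card_biUnion_le
      _ ≤ ∑ _P ∈ Pr, (eps / (4 * (M' + 1)) * (2 * H + 1) ^ (mK K * NP n d) : ℝ) :=
          Finset.sum_le_sum hcardP
      _ = M' * (eps / (4 * (M' + 1)) * (2 * H + 1) ^ (mK K * NP n d)) := by
          rw [Finset.sum_const, nsmul_eq_mul]
      _ = (M' * (eps / (4 * (M' + 1)))) * (2 * H + 1) ^ (mK K * NP n d) := by ring
      _ ≤ eps / 4 * (2 * H + 1) ^ (mK K * NP n d) := by
          apply mul_le_mul_of_nonneg_right _ hpos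
          rw [mul_div_assoc', div_le_div_iff₀ (by positivity) (by positivity)]
          nlinarith
  have hfinal : (E.card : ℝ) ≤ ((GW.biUnion fun q => (hfin q).toFinset).card : ℝ) +
      (((univ : Finset (InfinitePlace K)).biUnion EI).card : ℝ) +
      ((Pr.biUnion EP).card : ℝ) := by
    have h7 : E.card ≤ (GW.biUnion fun q => (hfin q).toFinset).card +
        ((univ : Finset (InfinitePlace K)).biUnion EI).card + (Pr.biUnion EP).card := by
      refine (Finset.card_le_card hsub).trans ((Finset.card_union_le _ _).trans ?_)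
      exact Nat.add_le_add_right (Finset.card_union_le _ _) _
    exact_mod_cast h7
  have hX : 0 ≤ eps * (2 * (H : ℝ) + 1) ^ (mK K * NP n d) := mul_nonneg heps.le hpos
  linarith

end NKWHP
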