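import Pool.Agent.Lib.MP_e426f4_ag.NKW.Defs
import Pool.Agent.Lib.MP_e426f4_ag.NKP.GridI
import Pool.Agent.Lib.MP_e426f4_ag.NKP.ExcI1

/-!
NKW-GridI: many grid points within `del` of a nonsingular zero at an infinite place.

TEMPLATES: (1) zero_nearW: the proof of NKPHP.zero_near (NKP/ZeroI.lean, with its private lemmas zi_...), kap replaced by the minimum of the old kap and del
(the proof uses only the upper bounds kap ≤ 1/20, Lam K (r+2) kap ≤ 1/4, Lam K kap ≤ 1/4).
(2) grid_iW: the proof of NKPHP.grid_i (NKP/GridI.lean) with kap ≤ del / 2 from zero_nearW and th1 = min (1/4) (del / 2) (so rho = th / Q ≤ del / 2,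
‖u v - z0 v‖ ≤ rho + kap ≤ del). (3) grid_iAW: NKPHP.grid_iA (NKP/ExcI2.lean).
-/

set_option linter.unusedSectionVars false

namespace NKWHP

open NumberField GenHP NFHP NKHP NKPHP Finset Filter Topology
open CIPHP (PSys NP PJac blk pev)

section multi
variable {ι : Type} [Fintype ι] [DecidableEq ι]
variable {K : Type} [Field K] [NumberField K]

private theorem zi_adj {r : ℕ} (L : Matrix (Fin r) (Fin r) ℂ) (K : ℝ) (hK : 1 ≤ K)
    (hL : ∀ i l, ‖L i l‖ ≤ K) (i l : Fin r) :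
    ‖L.adjugate i l‖ ≤ (Nat.factorial r : ℝ) * K ^ r := by
  rw [Matrix.adjugate_apply]
  have h := Matrix.det_le (A := L.updateRow l (Pi.single i 1)) (abv := (⟨⟨fun z : ℂ => ‖z‖,
      fun a b => norm_mul a b⟩, fun a => norm_nonneg a, fun a => norm_eq_zero,
      fun a b => norm_add_le a b⟩ : AbsoluteValue ℂ ℝ))
    (x := K) (fun a b => by
      rw [Matrix.updateRow_apply]
      split_ifs with hab
      · change ‖(Pi.single i (1 : ℂ) : Fin r → ℂ) b‖ ≤ K
        rcases eq_or_ne b i with rfl | hbi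
        · rw [Pi.single_eq_same, norm_one]
          exact hK
        · rw [Pi.single_eq_of_ne hbi, norm_zero]
          linarith
      · exact hL a b)
  rw [Fintype.card_fin, nsmul_eq_mul] at h
  exact h

theorem zero_nearW (n : ι → ℕ) {r : ℕ} (d : Fin r → ι → ℕ) (hr : 1 ≤ r) (bet : ℝ) (hb : 0 < bet)
    (del : ℝ) (hdel : 0 < del) :
    ∃ kap : ℝ, 0 < kap ∧ kap ≤ 1 / 20 ∧ kap ≤ del ∧ ∀ B : PSys n d ℂ, (∀ j t, ‖B j t‖ ≤ 1) →
      ∀ xi y : MVar n → ℂ, ∀ J : Fin r → MVar n, Function.Injective J → (∀ v, ‖xi v‖ ≤ 1) →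
      (∀ j, MF (B j) xi = 0) → bet ≤ ‖(PJac B xi J).det‖ →
      (∀ v, (∀ l, J l ≠ v) → ‖y v - xi v‖ ≤ kap ^ 2) →
      ∃ t : Fin r → ℂ, ((∀ l, ‖t l - xi (J l)‖ ≤ kap) ∧
        ∀ j, MF (B j) (Function.extend J t y) = 0) ∧
        ∀ t' : Fin r → ℂ, (∀ l, ‖t' l - xi (J l)‖ ≤ kap) →
          (∀ j, MF (B j) (Function.extend J t' y) = 0) → t' = t := by
  classical
  have hK := kM_one n d
  obtain ⟨K, hKdef⟩ : ∃ K, K = kM n d := ⟨_, rfl⟩
  rw [← hKdef] at hK
  have hr' : (0 : ℝ) < r := by exact_mod_cast hr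
  have hfac : (0 : ℝ) < Nat.factorial r := by exact_mod_cast Nat.factorial_pos r
  obtain ⟨c2, hc2⟩ : ∃ c2 : ℝ, c2 = (Nat.factorial r : ℝ) * K ^ r / bet := ⟨_, rfl⟩
  have hc2pos : 0 < c2 := by rw [hc2]; positivity
  obtain ⟨Lam, hLam⟩ : ∃ Lam : ℝ, Lam = r * c2 := ⟨_, rfl⟩
  have hLampos : 0 < Lam := by rw [hLam]; positivity
  obtain ⟨D1, hD1⟩ : ∃ D1 : ℝ, D1 = Lam * (K * (r + 2)) * 4 := ⟨_, rfl⟩
  have hD1pos : 0 < D1 := by rw [hD1]; positivity
  obtain ⟨kap, hkap⟩ : ∃ kap : ℝ, kap = min (min (1 / 20) del) (1 / D1) := ⟨_, rfl⟩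
  have hkpos : 0 < kap := by rw [hkap]; positivity
  have hk1 : kap ≤ 1 / 20 := by rw [hkap]; exact (min_le_left _ _).trans (min_le_left _ _)
  have hk0 : kap ≤ del := by rw [hkap]; exact (min_le_left _ _).trans (min_le_right _ _)
  have hk2 : Lam * (K * (r + 2)) * kap ≤ 1 / 4 := by
    have h1 : kap ≤ 1 / D1 := by rw [hkap]; exact min_le_right _ _
    rw [le_div_iff₀ hD1pos, hD1] at h1
    linarith
  have hk3 : Lam * K * kap ≤ 1 / 4 := by
    refine le_trans ?_ hk2
    have h0 : 0 < Lam * K * kap := by positivity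
    have h1 : Lam * (K * (r + 2)) * kap = (Lam * K * kap) * (r + 2) := by ring
    rw [h1]
    nlinarith
  refine ⟨kap, hkpos, hk1, hk0, fun B hB xi y J hJ hxi hF hD hy => ?_⟩
  obtain ⟨L, hL⟩ : ∃ L, L = PJac B xi J := ⟨_, rfl⟩
  rw [← hL] at hD
  have hdet : L.det ≠ 0 := by
    intro h
    rw [h, norm_zero] at hD
    linarith
  have hxi2 : ∀ v, ‖xi v‖ ≤ 2 := fun v => (hxi v).trans (by norm_num)
  have hLb : ∀ i l, ‖L i l‖ ≤ K := by
    intro i l
    have h1 := kM_MD B xi 1 hB hxi2 i (J l)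
    rw [mul_one, ← hKdef] at h1
    rw [hL]
    exact h1
  obtain ⟨Li, hLi⟩ : ∃ Li : Matrix (Fin r) (Fin r) ℂ, Li = (L.det)⁻¹ • L.adjugate := ⟨_, rfl⟩
  have hLiL : Li * L = 1 := by
    rw [hLi, Matrix.smul_mul, Matrix.adjugate_mul, smul_smul, inv_mul_cancel₀ hdet, one_smul]
  have hLLi : L * Li = 1 := by
    rw [hLi, Matrix.mul_smul, Matrix.mul_adjugate, smul_smul, inv_mul_cancel₀ hdet, one_smul]
  have hLib : ∀ i l, ‖Li i l‖ ≤ c2 := by
    intro i l
    have h1 := zi_adj L K hK hLb i l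
    have h2 : Li i l = (L.det)⁻¹ * L.adjugate i l := by rw [hLi]; rfl
    rw [h2, norm_mul, norm_inv, hc2, div_eq_inv_mul]
    exact mul_le_mul (inv_anti₀ hb hD) h1 (norm_nonneg _) (by positivity)
  have hmv : ∀ (v : Fin r → ℂ) (Y : ℝ), 0 ≤ Y → (∀ m, ‖v m‖ ≤ Y) → ∀ i,
      ‖(Li.mulVec v) i‖ ≤ Lam * Y := by
    intro v Y hY hv i
    have e : (Li.mulVec v) i = ∑ m, Li i m * v m := rfl
    rw [e]
    calc ‖∑ m, Li i m * v m‖ ≤ ∑ m, ‖Li i m * v m‖ := norm_sum_le _ _
      _ ≤ ∑ _m : Fin r, c2 * Y := by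
          refine Finset.sum_le_sum fun m _ => ?_
          rw [norm_mul]
          exact mul_le_mul (hLib i m) (hv m) (norm_nonneg _) hc2pos.le
      _ = Lam * Y := by
          rw [Finset.sum_const, Finset.card_univ, Fintype.card_fin, nsmul_eq_mul, hLam]
          ring
  -- the map
  obtain ⟨xJ, hxJ⟩ : ∃ xJ : Fin r → ℂ, xJ = fun l => xi (J l) := ⟨_, rfl⟩
  obtain ⟨Phi, hPhi⟩ : ∃ Phi : (Fin r → ℂ) → Fin r → ℂ,
    Phi = fun t j => MF (B j) (Function.extend J t y) := ⟨_, rfl⟩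
  obtain ⟨T, hT⟩ : ∃ T : (Fin r → ℂ) → Fin r → ℂ, T = fun t => t - Li.mulVec (Phi t) := ⟨_, rfl⟩
  obtain ⟨s, hs⟩ : ∃ s : Set (Fin r → ℂ), s = Metric.closedBall xJ kap := ⟨_, rfl⟩
  have hmem : ∀ t, t ∈ s ↔ ∀ l, ‖t l - xi (J l)‖ ≤ kap := by
    intro t
    rw [hs, Metric.mem_closedBall, dist_eq_norm, pi_norm_le_iff_of_nonneg hkpos.le, hxJ]
    rfl
  -- distance of the extended points
  have hPx : ∀ t, t ∈ s → ∀ v, ‖Function.extend J t y v - xi v‖ ≤ kap := by
    intro t ht v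
    by_cases hv : ∃ l, J l = v
    · obtain ⟨l, rfl⟩ := hv
      rw [hJ.extend_apply]
      exact (hmem t).1 ht l
    · rw [Function.extend_apply' _ _ _ hv]
      refine (hy v fun l hl => hv ⟨l, hl⟩).trans ?_
      nlinarith
  have hP2 : ∀ t, t ∈ s → ∀ v, ‖Function.extend J t y v‖ ≤ 2 := by
    intro t ht v
    have h1 := hPx t ht v
    have h2 : Function.extend J t y v = (Function.extend J t y v - xi v) + xi v := by ring
    rw [h2]
    refine (norm_add_le _ _).trans ?_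
    linarith [hxi v]
  have hPP : ∀ t t' : Fin r → ℂ, ∀ v,
      Function.extend J t y v - Function.extend J t' y v =
        Function.extend J (t - t') 0 v := by
    intro t t' v
    by_cases hv : ∃ l, J l = v
    · obtain ⟨l, rfl⟩ := hv
      rw [hJ.extend_apply, hJ.extend_apply, hJ.extend_apply]
      rfl
    · rw [Function.extend_apply' _ _ _ hv, Function.extend_apply' _ _ _ hv,
        Function.extend_apply' _ _ _ hv, sub_self]
      rfl
  have hkey : ∀ t ∈ s, ∀ t' ∈ s, ∀ j,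
      ‖Phi t j - Phi t' j - (L.mulVec (t - t')) j‖ ≤ K * (r + 2) * kap * ‖t - t'‖ := by
    intro t ht t' ht' j
    obtain ⟨dl, hde⟩ : ∃ dl : ℝ, dl = ‖t - t'‖ := ⟨_, rfl⟩
    have hde0 : 0 ≤ dl := by rw [hde]; exact norm_nonneg _
    have hde1 : dl ≤ 2 * kap := by
      rw [hde, ← dist_eq_norm]
      rw [hs, Metric.mem_closedBall] at ht ht'
      have := dist_triangle_right t t' xJ
      linarith
    have hdl : ∀ l, ‖(t - t') l‖ ≤ dl := fun l => by rw [hde]; exact norm_le_pi_norm (t - t') l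
    have hy' : ∀ v, ‖Function.extend J t y v - Function.extend J t' y v‖ ≤ dl := by
      intro v
      rw [hPP]
      by_cases hv : ∃ l, J l = v
      · obtain ⟨l, rfl⟩ := hv
        rw [hJ.extend_apply]
        exact hdl l
      · rw [Function.extend_apply' _ _ _ hv]
        simpa using hde0
    have h1 := kM_MFT B (Function.extend J t' y) (Function.extend J t y) 1 dl hB (hP2 t' ht')
      (by linarith) hy' hde0 j
    rw [mul_one, ← hKdef] at h1
    have h2 : ∑ v, MD (B j) (Function.extend J t' y) v *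
        (Function.extend J t y v - Function.extend J t' y v) =
        ∑ l, MD (B j) (Function.extend J t' y) (J l) * (t - t') l := by
      symm
      refine Fintype.sum_of_injective J hJ _ _ ?_ ?_
      · intro v hv
        have hv' : ¬ ∃ l, J l = v := fun ⟨l, hl⟩ => hv ⟨l, hl⟩
        rw [hPP, Function.extend_apply' _ _ _ hv']
        simp
      · intro l
        rw [hPP, hJ.extend_apply]
    rw [h2] at h1
    have h3 : ∀ l, ‖MD (B j) (Function.extend J t' y) (J l) - L j l‖ ≤ K * kap := by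
      intro l
      have h4 := kM_MDT B xi (Function.extend J t' y) 1 kap hB hxi2 (by linarith)
        (hPx t' ht') hkpos.le j (J l)
      rw [mul_one, ← hKdef] at h4
      rw [hL]
      exact h4
    have h5 : ‖∑ l, (MD (B j) (Function.extend J t' y) (J l) - L j l) * (t - t') l‖ ≤
        r * (K * kap * dl) := by
      refine (norm_sum_le _ _).trans ?_
      calc ∑ l, ‖(MD (B j) (Function.extend J t' y) (J l) - L j l) * (t - t') l‖
          ≤ ∑ _l : Fin r, K * kap * dl := by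
            refine Finset.sum_le_sum fun l _ => ?_
            rw [norm_mul]
            exact mul_le_mul (h3 l) (hdl l) (norm_nonneg _) (by positivity)
        _ = r * (K * kap * dl) := by
            rw [Finset.sum_const, Finset.card_univ, Fintype.card_fin, nsmul_eq_mul]
    have h6 : Phi t j - Phi t' j - (L.mulVec (t - t')) j =
        (MF (B j) (Function.extend J t y) - MF (B j) (Function.extend J t' y) -
          ∑ l, MD (B j) (Function.extend J t' y) (J l) * (t - t') l) +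
        ∑ l, (MD (B j) (Function.extend J t' y) (J l) - L j l) * (t - t') l := by
      have e : (L.mulVec (t - t')) j = ∑ l, L j l * (t - t') l := rfl
      rw [e, hPhi]
      simp only [sub_mul, Finset.sum_sub_distrib]
      ring
    rw [h6]
    refine (norm_add_le _ _).trans ((add_le_add h1 h5).trans ?_)
    rw [← hde]
    have h7 : K * dl ^ 2 ≤ K * (2 * kap) * dl := by
      rw [sq]
      calc K * (dl * dl) ≤ K * (2 * kap * dl) :=
            mul_le_mul_of_nonneg_left (mul_le_mul_of_nonneg_right hde1 hde0) (by linarith)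
        _ = _ := by ring
    calc K * dl ^ 2 + r * (K * kap * dl) ≤ K * (2 * kap) * dl + r * (K * kap * dl) := by
          linarith
      _ = K * (r + 2) * kap * dl := by ring
  have hcontr : ∀ t ∈ s, ∀ t' ∈ s, ‖T t - T t'‖ ≤ 1 / 4 * ‖t - t'‖ := by
    intro t ht t' ht'
    rw [pi_norm_le_iff_of_nonneg (by positivity)]
    intro i
    have h1 : (T t - T t') i =
        -(Li.mulVec (fun j => Phi t j - Phi t' j - (L.mulVec (t - t')) j)) i := by
      have e1 : (fun j => Phi t j - Phi t' j - (L.mulVec (t - t')) j) =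
          Phi t - Phi t' - L.mulVec (t - t') := rfl
      rw [e1, Matrix.mulVec_sub, Matrix.mulVec_sub, Matrix.mulVec_mulVec, hLiL, Matrix.one_mulVec,
        hT]
      simp only [Pi.sub_apply]
      ring
    rw [h1, norm_neg]
    refine (hmv _ (K * (r + 2) * kap * ‖t - t'‖) (by positivity) (hkey t ht t' ht') i).trans ?_
    calc Lam * (K * (r + 2) * kap * ‖t - t'‖) = (Lam * (K * (r + 2)) * kap) * ‖t - t'‖ := by ring
      _ ≤ 1 / 4 * ‖t - t'‖ := mul_le_mul_of_nonneg_right hk2 (norm_nonneg _)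
  have hxs : xJ ∈ s := by
    rw [hs]
    exact Metric.mem_closedBall_self hkpos.le
  have hx0 : ‖T xJ - xJ‖ ≤ kap / 4 := by
    rw [pi_norm_le_iff_of_nonneg (by positivity)]
    intro i
    have h1 : (T xJ - xJ) i = -(Li.mulVec (Phi xJ)) i := by
      rw [hT]
      simp only [Pi.sub_apply]
      ring
    rw [h1, norm_neg]
    have h2 : ∀ m, ‖Phi xJ m‖ ≤ K * kap ^ 2 := by
      intro m
      have h3 : ∀ v, ‖Function.extend J xJ y v - xi v‖ ≤ kap ^ 2 := by
        intro v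
        by_cases hv : ∃ l, J l = v
        · obtain ⟨l, rfl⟩ := hv
          rw [hJ.extend_apply, hxJ, sub_self, norm_zero]
          positivity
        · rw [Function.extend_apply' _ _ _ hv]
          exact hy v fun l hl => hv ⟨l, hl⟩
      have h4 := kM_lip B xi (Function.extend J xJ y) 1 (kap ^ 2) hB hxi2 (by nlinarith) h3
        (by positivity) m
      rw [hF m, sub_zero, mul_one, ← hKdef] at h4
      rw [hPhi]
      exact h4
    refine (hmv _ (K * kap ^ 2) (by positivity) h2 i).trans ?_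
    calc Lam * (K * kap ^ 2) = (Lam * K * kap) * kap := by ring
      _ ≤ 1 / 4 * kap := mul_le_mul_of_nonneg_right hk3 hkpos.le
      _ = kap / 4 := by ring
  have hmaps : Set.MapsTo T s s := by
    intro t ht
    have h1 := hcontr t ht xJ hxs
    have h2 : ‖t - xJ‖ ≤ kap := by
      rw [hs, Metric.mem_closedBall, dist_eq_norm] at ht
      exact ht
    rw [hs, Metric.mem_closedBall, dist_eq_norm]
    have h3 : T t - xJ = (T t - T xJ) + (T xJ - xJ) := by abel
    rw [h3]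
    refine (norm_add_le _ _).trans ?_
    linarith
  have hzero : ∀ t, T t = t ↔ ∀ j, MF (B j) (Function.extend J t y) = 0 := by
    intro t
    have e0 : T t = t - Li.mulVec (Phi t) := by rw [hT]
    constructor
    · intro h
      rw [e0, sub_eq_self] at h
      have h1 : L.mulVec (Li.mulVec (Phi t)) = Phi t := by
        rw [Matrix.mulVec_mulVec, hLLi, Matrix.one_mulVec]
      rw [h, Matrix.mulVec_zero] at h1
      intro j
      have h2 := congrFun h1 j
      rw [hPhi] at h2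
      exact h2.symm
    · intro h
      have h1 : Phi t = 0 := by
        rw [hPhi]
        funext j
        exact h j
      rw [e0, h1, Matrix.mulVec_zero, sub_zero]
  have hcw : ContractingWith (1 / 4 : NNReal) (hmaps.restrict T s s) := by
    refine ⟨by
      rw [← NNReal.coe_lt_coe]
      norm_num, LipschitzWith.of_dist_le_mul fun x y => ?_⟩
    rw [Subtype.dist_eq, Subtype.dist_eq, dist_eq_norm, dist_eq_norm]
    have := hcontr x.1 x.2 y.1 y.2
    simpa using this
  have hcomp : IsComplete s := by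
    rw [hs]
    exact Metric.isClosed_closedBall.isComplete
  obtain ⟨t, ht, hfix, -⟩ := ContractingWith.exists_fixedPoint' hcomp hmaps hcw hxs
    (edist_ne_top _ _)
  refine ⟨t, ⟨(hmem t).1 ht, (hzero t).1 hfix⟩, fun t' ht' hF' => ?_⟩
  have ht's : t' ∈ s := (hmem t').2 ht'
  have h1 : T t' = t' := (hzero t').2 hF'
  have h2 := hcontr t' ht's t ht
  rw [h1, hfix] at h2
  have h3 : ‖t' - t‖ = 0 := by linarith [norm_nonneg (t' - t)]
  exact sub_eq_zero.1 (norm_eq_zero.1 h3)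

open Classical in
private theorem gi_prod {V : Type*} [Fintype V] (S : Finset V) (f : V → ℕ) (a : ℝ) (ha : 0 ≤ a)
    (h1 : ∀ v ∈ S, a ≤ f v) (h2 : ∀ v, v ∉ S → 1 ≤ f v) :
    a ^ S.card ≤ ((∏ v, f v : ℕ) : ℝ) := by
  rw [Nat.cast_prod]
  calc a ^ S.card = ∏ v : V, (if v ∈ S then a else 1) := by
        rw [Finset.prod_ite_mem, Finset.univ_inter, Finset.prod_const]
    _ ≤ _ := by
        refine Finset.prod_le_prod (fun v _ => by split_ifs <;> positivity) fun v _ => ?_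
        split_ifs with hv
        · exact h1 v hv
        · exact_mod_cast h2 v hv

open Classical in
theorem grid_iW (n : ι → ℕ) {r : ℕ} (d : Fin r → ι → ℕ) (hr : 1 ≤ r) (w : InfinitePlace K)
    (bet : ℝ) (hb : 0 < bet) (del : ℝ) (hdel : 0 < del) :
    ∃ c th1 : ℝ, 0 < c ∧ 0 < th1 ∧ ∀ th : ℝ, 0 < th → th ≤ th1 → ∃ R0 : ℕ, ∀ R : ℕ, R0 ≤ R →
      ∀ B : PSys n d ℂ, (∀ j t, ‖B j t‖ ≤ 1) → (w.IsReal → ∀ j t, (B j t).im = 0) →
      ∀ z0 : MVar n → ℂ, BPtI w z0 → (∀ j, MF (B j) z0 = 0) → ∀ J : Fin r → MVar n,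
      bet ≤ ‖(PJac B z0 J).det‖ →
      c * (th ^ w.mult) ^ r * ((R : ℝ) ^ w.mult) ^ Fintype.card (MVar n) ≤
        (((Fintype.piFinset fun _ : MVar n => gset w R).filter fun u =>
          (∀ v, ‖u v - z0 v‖ ≤ del) ∧ ∀ j, ‖MF (B j) u‖ ≤ th).card : ℝ) := by
  obtain ⟨kap, hkpos, hk1, hk0, hzero⟩ := zero_nearW n d hr bet hb (del / 2) (by positivity)
  have hK := kM_one n d
  obtain ⟨Q, hQ⟩ : ∃ Q, Q = kM n d := ⟨_, rfl⟩
  rw [← hQ] at hK
  have hQpos : 0 < Q := by linarith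
  obtain ⟨V, hV⟩ : ∃ V, V = Fintype.card (MVar n) := ⟨_, rfl⟩
  refine ⟨((kap ^ 2 / 4) ^ w.mult) ^ (V - r) * ((1 / (4 * Q)) ^ w.mult) ^ r, min (1 / 4) (del / 2),
    by positivity, by positivity, fun th hth hth0 => ?_⟩
  have hth1 : th ≤ 1 / 4 := hth0.trans (min_le_left _ _)
  have hth2 : th ≤ del / 2 := hth0.trans (min_le_right _ _)
  obtain ⟨rho, hrho⟩ : ∃ rho : ℝ, rho = th / Q := ⟨_, rfl⟩
  have hrpos : 0 < rho := by rw [hrho]; positivity
  have hr4 : rho ≤ 1 / 4 := by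
    rw [hrho, div_le_iff₀ hQpos]
    nlinarith
  have hrd : rho ≤ del / 2 := by
    rw [hrho, div_le_iff₀ hQpos]
    nlinarith
  obtain ⟨R0, hR0⟩ := exists_nat_ge (4 / kap ^ 2 + 4 / rho)
  refine ⟨R0, fun R hR B hB hBr z0 hz0 hF J hD => ?_⟩
  have hR1 : 4 / kap ^ 2 + 4 / rho ≤ (R : ℝ) := hR0.trans (by exact_mod_cast hR)
  have hRk : 4 ≤ kap ^ 2 * R := by
    have h1 : 4 / kap ^ 2 ≤ (R : ℝ) := by
      have : 0 < 4 / rho := by positivity
      linarith
    rw [div_le_iff₀ (by positivity)] at h1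
    linarith
  have hRr : 4 ≤ rho * R := by
    have h1 : 4 / rho ≤ (R : ℝ) := by
      have : 0 < 4 / kap ^ 2 := by positivity
      linarith
    rw [div_le_iff₀ (by positivity)] at h1
    linarith
  have hRpos : (0 : ℝ) < R := by
    by_contra h
    push Not at h
    nlinarith
  obtain ⟨hzr, hz1, -⟩ := hz0
  have hdet0 : (PJac B z0 J).det ≠ 0 := by
    intro h
    rw [h, norm_zero] at hD
    linarith
  have hJ : Function.Injective J := CIPHP.PJac_injective B z0 J hdet0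
  have hkap2 : kap ^ 2 ≤ 1 / 2 := by nlinarith
  -- the neighbourhoods
  obtain ⟨N, hN⟩ : ∃ N : ℂ → ℝ → Finset ℂ, N = fun a q => (gset w R).filter fun z => ‖z - a‖ ≤ q :=
    ⟨_, rfl⟩
  have hNm : ∀ a q z, z ∈ N a q ↔ z ∈ gset w R ∧ ‖z - a‖ ≤ q := by
    intro a q z
    rw [hN]
    exact Finset.mem_filter
  have hNc : ∀ (a : ℂ) (q : ℝ), (w.IsReal → a.im = 0) → ‖a‖ ≤ 3 / 2 → 0 < q → q ≤ 1 / 2 → 4 ≤ q * R →
      (q * R / 4) ^ w.mult ≤ ((N a q).card : ℝ) := by
    intro a q h1 h2 h3 h4 h5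
    rw [hN]
    exact gset_near w R a h1 h2 q h3 h4 h5
  obtain ⟨RJ, hRJ⟩ : ∃ RJ : Finset (MVar n), RJ = univ.image J := ⟨_, rfl⟩
  have hRJm : ∀ v, v ∈ RJ ↔ ∃ l, J l = v := by
    intro v
    rw [hRJ, Finset.mem_image]
    simp
  have hRJc : RJ.card = r := by
    rw [hRJ, Finset.card_image_of_injective _ hJ, Finset.card_univ, Fintype.card_fin]
  have hrV : r ≤ V := by
    rw [← hRJc, hV]
    exact Finset.card_le_univ _
  -- the values off `J`
  obtain ⟨PY, hPY⟩ : ∃ PY : Finset (MVar n → ℂ), PY = Fintype.piFinset fun v =>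
    if v ∈ RJ then {0} else N (z0 v) (kap ^ 2) := ⟨_, rfl⟩
  have hPYm : ∀ y ∈ PY, ∀ v, v ∉ RJ → y v ∈ N (z0 v) (kap ^ 2) := by
    intro y hy v hv
    rw [hPY, Fintype.mem_piFinset] at hy
    have := hy v
    rwa [if_neg hv] at this
  have hPYm0 : ∀ y ∈ PY, ∀ v, v ∈ RJ → y v = 0 := by
    intro y hy v hv
    rw [hPY, Fintype.mem_piFinset] at hy
    have := hy v
    rwa [if_pos hv, Finset.mem_singleton] at this
  have hPYc : ((kap ^ 2 * R / 4) ^ w.mult) ^ (V - r) ≤ (PY.card : ℝ) := by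
    have h1 : (RJᶜ).card = V - r := by rw [Finset.card_compl, hRJc, hV]
    rw [hPY, Fintype.card_piFinset, ← h1]
    refine gi_prod RJᶜ _ _ (by positivity) (fun v hv => ?_) (fun v hv => ?_)
    · rw [Finset.mem_compl] at hv
      rw [if_neg hv]
      exact hNc (z0 v) (kap ^ 2) (fun hw => hzr hw v) ((hz1 v).trans (by norm_num))
        (by positivity) hkap2 hRk
    · rw [Finset.mem_compl, not_not] at hv
      rw [if_pos hv, Finset.card_singleton]
  -- the zeros
  have hex : ∀ y ∈ PY, ∃ t : Fin r → ℂ, (∀ l, ‖t l - z0 (J l)‖ ≤ kap) ∧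
      (∀ j, MF (B j) (Function.extend J t y) = 0) ∧ (w.IsReal → ∀ l, (t l).im = 0) := by
    intro y hy
    obtain ⟨t, ⟨ht1, ht2⟩, ht3⟩ := hzero B hB z0 y J hJ hz1 hF hD (fun v hv =>
      ((hNm _ _ _).1 (hPYm y hy v (fun h => by
        obtain ⟨l, hl⟩ := (hRJm v).1 h
        exact hv l hl))).2)
    refine ⟨t, ht1, ht2, fun hw l => ?_⟩
    have hyr : ∀ v, (y v).im = 0 := by
      intro v
      by_cases hv : v ∈ RJ
      · rw [hPYm0 y hy v hv]
        simp
      · exact gset_real w R hw _ ((hNm _ _ _).1 (hPYm y hy v hv)).1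
    have h1 : (fun l => (starRingEnd ℂ) (t l)) = t := by
      refine ht3 _ (fun l => ?_) (fun j => ?_)
      · have h2 : (starRingEnd ℂ) (t l) - z0 (J l) = (starRingEnd ℂ) (t l - z0 (J l)) := by
          rw [map_sub, Complex.conj_eq_iff_im.2 (hzr hw (J l))]
        rw [h2, RCLike.norm_conj]
        exact ht1 l
      · have h2 : (Function.extend J (fun l => (starRingEnd ℂ) (t l)) y) =
            fun v => (starRingEnd ℂ) (Function.extend J t y v) := by
          funext v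
          by_cases hv : ∃ l, J l = v
          · obtain ⟨l, rfl⟩ := hv
            rw [hJ.extend_apply, hJ.extend_apply]
          · rw [Function.extend_apply' _ _ _ hv, Function.extend_apply' _ _ _ hv,
              Complex.conj_eq_iff_im.2 (hyr v)]
        have h3 : B j = fun s => (starRingEnd ℂ) (B j s) := by
          funext s
          rw [Complex.conj_eq_iff_im.2 (hBr hw j s)]
        rw [h2, h3, MF_map, ht2 j, map_zero]
    have h2 := congrFun h1 l
    exact Complex.conj_eq_iff_im.1 h2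
  choose! t ht1 ht2 ht3 using hex
  -- the points for one `y`
  obtain ⟨TT, hTT⟩ : ∃ TT : (MVar n → ℂ) → Finset (MVar n → ℂ), TT = fun y =>
    Fintype.piFinset fun v => if v ∈ RJ then N (Function.extend J (t y) y v) rho else {y v} :=
    ⟨_, rfl⟩
  have hTm : ∀ y u, u ∈ TT y → ∀ v, v ∈ RJ → u v ∈ N (Function.extend J (t y) y v) rho := by
    intro y u hu v hv
    rw [hTT] at hu
    have := Fintype.mem_piFinset.1 hu v
    rwa [if_pos hv] at this
  have hTm0 : ∀ y u, u ∈ TT y → ∀ v, v ∉ RJ → u v = y v := by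
    intro y u hu v hv
    rw [hTT] at hu
    have := Fintype.mem_piFinset.1 hu v
    rwa [if_neg hv, Finset.mem_singleton] at this
  have hTc : ∀ y ∈ PY, ((rho * R / 4) ^ w.mult) ^ r ≤ ((TT y).card : ℝ) := by
    intro y hy
    rw [hTT]
    show _ ≤ ((Fintype.piFinset fun v => if v ∈ RJ then
      N (Function.extend J (t y) y v) rho else {y v}).card : ℝ)
    rw [Fintype.card_piFinset]
    have h0 := gi_prod RJ (fun v => (if v ∈ RJ then
      N (Function.extend J (t y) y v) rho else {y v}).card) ((rho * R / 4) ^ w.mult)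
      (by positivity) (fun v hv => ?_) (fun v hv => ?_)
    · rw [hRJc] at h0
      exact h0
    · obtain ⟨l, rfl⟩ := (hRJm v).1 hv
      rw [if_pos hv, hJ.extend_apply]
      refine hNc (t y l) rho (fun hw => ht3 y hy hw l) ?_ hrpos (by linarith) hRr
      have h1 : t y l = (t y l - z0 (J l)) + z0 (J l) := by ring
      rw [h1]
      refine (norm_add_le _ _).trans ?_
      linarith [ht1 y hy l, hz1 (J l)]
    · rw [if_neg hv, Finset.card_singleton]
  -- the union
  have hdisj : ∀ y ∈ PY, ∀ y' ∈ PY, y ≠ y' → Disjoint (TT y) (TT y') := by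
    intro y hy y' hy' hne
    rw [Finset.disjoint_left]
    intro u hu hu'
    apply hne
    funext v
    by_cases hv : v ∈ RJ
    · rw [hPYm0 y hy v hv, hPYm0 y' hy' v hv]
    · rw [← hTm0 y u hu v hv, ← hTm0 y' u hu' v hv]
  have hcard : ((kap ^ 2 * R / 4) ^ w.mult) ^ (V - r) * ((rho * R / 4) ^ w.mult) ^ r ≤
      ((PY.biUnion TT).card : ℝ) := by
    rw [Finset.card_biUnion hdisj, Nat.cast_sum]
    calc ((kap ^ 2 * R / 4) ^ w.mult) ^ (V - r) * ((rho * R / 4) ^ w.mult) ^ r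
        ≤ PY.card * ((rho * R / 4) ^ w.mult) ^ r :=
          mul_le_mul_of_nonneg_right hPYc (by positivity)
      _ = ∑ _y ∈ PY, ((rho * R / 4) ^ w.mult) ^ r := by rw [Finset.sum_const, nsmul_eq_mul]
      _ ≤ _ := Finset.sum_le_sum fun y hy => hTc y hy
  have hsub : PY.biUnion TT ⊆ (Fintype.piFinset fun _ : MVar n => gset w R).filter fun u =>
          (∀ v, ‖u v - z0 v‖ ≤ del) ∧ ∀ j, ‖MF (B j) u‖ ≤ th := by
    intro u hu
    obtain ⟨y, hy, hu⟩ := Finset.mem_biUnion.1 hu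
    have hx : ∀ v, ‖Function.extend J (t y) y v - z0 v‖ ≤ kap := by
      intro v
      by_cases hv : v ∈ RJ
      · obtain ⟨l, rfl⟩ := (hRJm v).1 hv
        rw [hJ.extend_apply]
        exact ht1 y hy l
      · rw [Function.extend_apply' _ _ _ (fun h => hv ((hRJm v).2 h))]
        refine ((hNm _ _ _).1 (hPYm y hy v hv)).2.trans ?_
        nlinarith
    have hux : ∀ v, ‖u v - Function.extend J (t y) y v‖ ≤ rho := by
      intro v
      by_cases hv : v ∈ RJ
      · exact ((hNm _ _ _).1 (hTm y u hu v hv)).2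
      · rw [hTm0 y u hu v hv, Function.extend_apply' _ _ _ (fun h => hv ((hRJm v).2 h)), sub_self,
          norm_zero]
        exact hrpos.le
    rw [Finset.mem_filter, Fintype.mem_piFinset]
    refine ⟨fun v => ?_, fun v => ?_, fun j => ?_⟩
    · by_cases hv : v ∈ RJ
      · exact ((hNm _ _ _).1 (hTm y u hu v hv)).1
      · rw [hTm0 y u hu v hv]
        exact ((hNm _ _ _).1 (hPYm y hy v hv)).1
    · have h1 : u v - z0 v = (u v - Function.extend J (t y) y v) +
        (Function.extend J (t y) y v - z0 v) := by ring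
      rw [h1]
      refine (norm_add_le _ _).trans ?_
      linarith [hux v, hx v]
    · have h2 : ∀ v, ‖Function.extend J (t y) y v‖ ≤ 2 := by
        intro v
        have h3 : Function.extend J (t y) y v = (Function.extend J (t y) y v - z0 v) + z0 v := by
          ring
        rw [h3]
        refine (norm_add_le _ _).trans ?_
        linarith [hx v, hz1 v]
      have h4 := kM_lip B (Function.extend J (t y) y) u 1 rho hB h2 (by linarith) hux hrpos.le j
      rw [ht2 y hy j, sub_zero, mul_one, ← hQ, hrho] at h4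
      refine h4.trans (le_of_eq ?_)
      field_simp
  have hfin : ((PY.biUnion TT).card : ℝ) ≤ (((Fintype.piFinset fun _ : MVar n => gset w R).filter
      fun u => (∀ v, ‖u v - z0 v‖ ≤ del) ∧ ∀ j, ‖MF (B j) u‖ ≤ th).card : ℝ) := by
    exact_mod_cast Finset.card_le_card hsub
  refine le_trans (le_of_eq ?_) (hcard.trans hfin)
  rw [← hV]
  have h5 : ((R : ℝ) ^ w.mult) ^ V = ((R : ℝ) ^ w.mult) ^ (V - r) * ((R : ℝ) ^ w.mult) ^ r := by
    rw [← pow_add, Nat.sub_add_cancel hrV]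
  rw [h5]
  have e1 : kap ^ 2 * (R : ℝ) / 4 = (kap ^ 2 / 4) * R := by ring
  have e2 : rho * (R : ℝ) / 4 = (1 / (4 * Q)) * th * R := by
    rw [hrho]
    field_simp
  rw [e1, e2, mul_pow (kap ^ 2 / 4), mul_pow ((kap ^ 2 / 4) ^ w.mult), mul_pow (1 / (4 * Q) * th),
    mul_pow (1 / (4 * Q)), mul_pow ((1 / (4 * Q)) ^ w.mult * th ^ w.mult),
    mul_pow ((1 / (4 * Q)) ^ w.mult)]
  ring

open Classical in
theorem grid_iAW (n : ι → ℕ) {r : ℕ} (d : Fin r → ι → ℕ) (hr : 1 ≤ r) (w : InfinitePlace K)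
    (bet : ℝ) (hb : 0 < bet) (del : ℝ) (hdel : 0 < del) :
    ∃ c th1 : ℝ, 0 < c ∧ 0 < th1 ∧ ∀ th : ℝ, 0 < th → th ≤ th1 → ∃ R0 : ℕ, ∀ R : ℕ, R0 ≤ R →
      ∀ H : ℕ, 1 ≤ H → ∀ A : PSys n d (𝓞 K), A ∈ BoxP K n d H →
      ∀ z0 : MVar n → ℂ, BPtI w z0 → (∀ j, MF (sgP w A j) z0 = 0) → ∀ J : Fin r → MVar n,
      (bet * H) ^ r ≤ ‖(PJac (sgP w A) z0 J).det‖ →
      c * (th ^ w.mult) ^ r * ((R : ℝ) ^ w.mult) ^ Fintype.card (MVar n) ≤
        (((Fintype.piFinset fun _ : MVar n => gset w R).filter fun u =>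
          (∀ v, ‖u v - z0 v‖ ≤ del) ∧ ∀ j, ‖MF (sgP w A j) u‖ ≤ th * H).card : ℝ) := by
  have hcK1 := one_le_cK (K := K)
  have hcK : 0 < cK K := by linarith
  obtain ⟨c, th1, hc, hth1, hgrid⟩ := grid_iW n d hr w ((bet / cK K) ^ r) (by positivity) del hdel
  refine ⟨c * ((1 / cK K) ^ w.mult) ^ r, th1 * cK K, by positivity, by positivity,
    fun th hth hth' => ?_⟩
  obtain ⟨R0, hR0⟩ := hgrid (th / cK K) (by positivity) (by rwa [div_le_iff₀ hcK])
  refine ⟨R0, fun R hR H hH A hA z0 hz0 hF0 J hD => ?_⟩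
  have hHpos : (0 : ℝ) < H := by exact_mod_cast hH
  obtain ⟨s, hs⟩ : ∃ s : ℝ, s = cK K * H := ⟨_, rfl⟩
  have hspos : 0 < s := by rw [hs]; positivity
  have hsn : ‖((s⁻¹ : ℝ) : ℂ)‖ = s⁻¹ := by
    rw [Complex.norm_real, Real.norm_eq_abs, abs_of_pos (inv_pos.2 hspos)]
  let B : PSys n d ℂ := fun j t => ((s⁻¹ : ℝ) : ℂ) * sgP w A j t
  have hB : ∀ j t, ‖B j t‖ ≤ 1 := by
    intro j t
    show ‖((s⁻¹ : ℝ) : ℂ) * sgP w A j t‖ ≤ 1
    rw [norm_mul, hsn, inv_mul_le_iff₀ hspos, mul_one, hs]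
    exact norm_sgP_le hA w j t
  have hBr : w.IsReal → ∀ j t, (B j t).im = 0 := by
    intro hw j t
    show (((s⁻¹ : ℝ) : ℂ) * sgP w A j t).im = 0
    rw [Complex.im_ofReal_mul, im_sgP A w hw, mul_zero]
  have hMF : ∀ j z, MF (B j) z = ((s⁻¹ : ℝ) : ℂ) * MF (sgP w A j) z := fun j z =>
    MF_smul ((s⁻¹ : ℝ) : ℂ) (sgP w A j) z
  have h1 := hR0 R hR B hB hBr z0 hz0 (fun j => by rw [hMF, hF0 j, mul_zero]) J (by
    have e1 : (PJac B z0 J).det = ((s⁻¹ : ℝ) : ℂ) ^ r * (PJac (sgP w A) z0 J).det :=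
      CIPHP.PJac_smul ((s⁻¹ : ℝ) : ℂ) (sgP w A) z0 J
    rw [e1, norm_mul, norm_pow, hsn]
    calc (bet / cK K) ^ r = (s⁻¹) ^ r * (bet * H) ^ r := by
          rw [← mul_pow]
          congr 1
          rw [hs]
          field_simp
      _ ≤ _ := mul_le_mul_of_nonneg_left hD (by positivity))
  have h2 : c * ((1 / cK K) ^ w.mult) ^ r * (th ^ w.mult) ^ r *
      ((R : ℝ) ^ w.mult) ^ Fintype.card (MVar n) = c * ((th / cK K) ^ w.mult) ^ r *
      ((R : ℝ) ^ w.mult) ^ Fintype.card (MVar n) := by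
    have : th / cK K = 1 / cK K * th := by ring
    rw [this, mul_pow (1 / cK K), mul_pow ((1 / cK K) ^ w.mult)]
    ring
  rw [h2]
  refine h1.trans ?_
  refine Nat.cast_le.2 (Finset.card_le_card fun u hu => ?_)
  rw [Finset.mem_filter] at hu ⊢
  refine ⟨hu.1, hu.2.1, fun j => ?_⟩
  have h3 := hu.2.2 j
  rw [hMF, norm_mul, hsn, inv_mul_le_iff₀ hspos, hs] at h3
  refine h3.trans (le_of_eq ?_)
  field_simp

end multi

end NKWHP
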