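import Pool.Agent.Lib.MP_e426f4_ag.NKW.Defs
import Pool.Agent.Lib.MP_e426f4_ag.NKP.RCond
import Pool.Agent.Lib.MP_e426f4_ag.NKP.RKernel
import Pool.Agent.Lib.MP_e426f4_ag.NKP.RHens

/-!
NKW-RExc2: systems over the finite ring with a nonsingular zero `z`, but without a zero congruent to `z` modulo `π ^ s` which is nonsingular with
respect to block `i0`, are few.

TEMPLATES: (1) hens_zeros_ringW: the proof of NKPHP.hens_zeros_ring (NKP/RHens.lean, end), keeping π^k1 (hens_ring gives π^(k1+1) ∣ t v, the free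
variables move by multiples of π^(2 k1)); private lemmas det_congr_R, Fg_congr_R, Dg_congr_R have to be copied.
(2) ring_exc2W: the proof of NKPHP.ring_exc2 (NKP/RExc2.lean) word for word: for a bad A fix the zero z0 of its definition; the zeros counted in `habove`
are those ≡ z0 mod π^k1, hence mod π^s (s ≤ k1); all of them have all minors of block i0 divisible by π^k (otherwise A is not bad). So use
rel A z := (∀ j, MF (A j) z = 0) ∧ ∀ J : Fin r → Fin (n i0 + 1), π ^ k ∣ (PJac A z (blk i0 J)).det in the double counting.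
-/

set_option linter.unusedSectionVars false

namespace NKWHP

open NumberField GenHP NFHP NKHP NKPHP Finset Filter Topology
open CIPHP (PSys NP PJac blk pev)

/-- determinants of congruent matrices are congruent -/
private theorem det_congr_R {R : Type} [CommRing R] {m : Type*} [Fintype m] [DecidableEq m] (N : R)
    (M M' : Matrix m m R) (h : ∀ i j, N ∣ M i j - M' i j) : N ∣ M.det - M'.det := by
  set f : R →+* R ⧸ Ideal.span {N} := Ideal.Quotient.mk (Ideal.span {N}) with hf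
  have h1 : f.mapMatrix M = f.mapMatrix M' := by
    ext i j
    rw [RingHom.mapMatrix_apply, RingHom.mapMatrix_apply, Matrix.map_apply, Matrix.map_apply, hf,
      Ideal.Quotient.eq, Ideal.mem_span_singleton]
    exact h i j
  have h2 : f M.det = f M'.det := by
    rw [RingHom.map_det, RingHom.map_det, h1]
  rw [hf, Ideal.Quotient.eq, Ideal.mem_span_singleton] at h2
  exact h2

private theorem Fg_congr_R {R : Type} [CommRing R] {I ι : Type} [Fintype I] [Fintype ι]
    (e : I → ι → ℕ) (N : R) (A : I → R) (x x' : ι → R) (hx : ∀ i, N ∣ x i - x' i) :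
    N ∣ Fg e A x - Fg e A x' := by
  set f : R →+* R ⧸ Ideal.span {N} := Ideal.Quotient.mk (Ideal.span {N}) with hf
  have h1 : (fun i => f (x i)) = fun i => f (x' i) := by
    funext i
    rw [hf, Ideal.Quotient.eq, Ideal.mem_span_singleton]
    exact hx i
  have h2 : f (Fg e A x) = f (Fg e A x') := by
    rw [← Fg_map, ← Fg_map, h1]
  rw [hf, Ideal.Quotient.eq, Ideal.mem_span_singleton] at h2
  exact h2

private theorem Dg_congr_R {R : Type} [CommRing R] {I ι : Type} [Fintype I] [Fintype ι]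
    [DecidableEq ι] (e : I → ι → ℕ) (N : R) (A : I → R) (x x' : ι → R) (j : ι)
    (hx : ∀ i, N ∣ x i - x' i) : N ∣ Dg e A x j - Dg e A x' j := by
  set f : R →+* R ⧸ Ideal.span {N} := Ideal.Quotient.mk (Ideal.span {N}) with hf
  have h1 : (fun i => f (x i)) = fun i => f (x' i) := by
    funext i
    rw [hf, Ideal.Quotient.eq, Ideal.mem_span_singleton]
    exact hx i
  have h2 : f (Dg e A x j) = f (Dg e A x' j) := by
    rw [← Dg_map, ← Dg_map, h1]
  rw [hf, Ideal.Quotient.eq, Ideal.mem_span_singleton] at h2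
  exact h2

section ring
variable {R : Type} [CommRing R] {π : R} {q L : ℕ}
variable {V : Type} [Fintype V] [DecidableEq V] {r : ℕ} {I : Fin r → Type} [∀ j, Fintype (I j)]

theorem hens_zeros_ringW {k : ℕ} (hR : PR R π q (2 * k)) (e : ∀ j, I j → V → ℕ)
    (A : ∀ j, I j → R) (k1 : ℕ) (hk1 : 1 ≤ k1) (hk : k1 ≤ k) (z0 : V → R) (J : Fin r → V)
    (h0 : ∀ j, π ^ (2 * k1) ∣ Fg (e j) (A j) z0)
    (h1 : ¬ π ^ k1 ∣ (Matrix.of fun j l => Dg (e j) (A j) z0 (J l)).det) :
    (q ^ (2 * k - 2 * k1)) ^ (Fintype.card V - r) ≤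
      Set.ncard {z : V → R | (∀ v, π ^ k1 ∣ z v - z0 v) ∧ ∀ j, Fg (e j) (A j) z = 0} := by
  classical
  have : Finite R := hR.fin
  have hJ : Function.Injective J := by
    intro a b hab
    by_contra hne
    apply h1
    have : (Matrix.of fun j l => Dg (e j) (A j) z0 (J l)).det = 0 :=
      Matrix.det_zero_of_column_eq hne fun i => by simp only [Matrix.of_apply, hab]
    rw [this]
    exact dvd_zero _
  set K := {v : V // ∀ l, J l ≠ v} with hK
  have hcardK : Fintype.card K = Fintype.card V - r := by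
    have h2 : Fintype.card {v : V // ¬ ∃ l, J l = v} = Fintype.card V - Fintype.card {v : V // ∃ l, J l = v} :=
      Fintype.card_subtype_compl _
    have h3 : Fintype.card {v : V // ∃ l, J l = v} = r := by
      have e1 : {v : V // ∃ l, J l = v} ≃ Fin r :=
        (Equiv.ofInjective J hJ).symm
      rw [Fintype.card_congr e1, Fintype.card_fin]
    rw [h3] at h2
    rw [← h2]
    exact Fintype.card_congr (Equiv.subtypeEquivRight fun v => by push Not; rfl)
  set X := {x : R // π ^ (2 * k1) ∣ x} with hX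
  have hcardX : Nat.card X = q ^ (2 * k - 2 * k1) := by
    have := hR.card_dvd (2 * k1) (by omega)
    rw [← this]
    rfl
  have hlift : ∀ h : K → X, ∃ z : V → R, (∀ v, π ^ k1 ∣ z v - z0 v) ∧
      (∀ j, Fg (e j) (A j) z = 0) ∧ ∀ v : K, z v = z0 v + (h v : R) := by
    intro h
    set u : V → R := fun v => z0 v + (if hv : ∀ l, J l ≠ v then ((h ⟨v, hv⟩ : X) : R) else 0) with hu
    have hu0 : ∀ v, π ^ (2 * k1) ∣ u v - z0 v := by
      intro v
      rw [hu]
      simp only [add_sub_cancel_left]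
      split_ifs with hv
      · exact (h ⟨v, hv⟩).2
      · exact dvd_zero _
    have hFu : ∀ j, π ^ (2 * k1) ∣ Fg (e j) (A j) u := by
      intro j
      have h2 := Fg_congr_R (e j) (π ^ (2 * k1)) (A j) u z0 hu0
      have h3 := dvd_add h2 (h0 j)
      simpa using h3
    have hDu : ¬ π ^ (k1 - 1 + 1) ∣
        (Matrix.of fun j l => Dg (e j) (A j) u (J l)).det := by
      rw [show k1 - 1 + 1 = k1 by omega]
      intro h2
      apply h1
      have h3 : π ^ (2 * k1) ∣ (Matrix.of fun j l => Dg (e j) (A j) u (J l)).det -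
          (Matrix.of fun j l => Dg (e j) (A j) z0 (J l)).det :=
        det_congr_R _ _ _ fun j l => Dg_congr_R (e j) _ (A j) _ _ (J l) hu0
      have h4 := dvd_sub h2 ((pow_dvd_pow π (by omega : k1 ≤ 2 * k1)).trans h3)
      simpa using h4
    obtain ⟨t, ht0, ht1, ht2⟩ := hens_ring hR e A (k1 - 1) (2 * k1) (2 * k) (by omega) (by omega)
      le_rfl u J hFu hDu
    refine ⟨fun v => u v + t v, fun v => ?_, fun j => ?_, fun v => ?_⟩
    · have h2 : π ^ k1 ∣ t v := (pow_dvd_pow π (by omega)).trans (ht1 v)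
      have h3 : π ^ k1 ∣ u v - z0 v := (pow_dvd_pow π (by omega)).trans (hu0 v)
      have h4 := dvd_add h3 h2
      have h5 : u v - z0 v + t v = u v + t v - z0 v := by ring
      rw [h5] at h4
      exact h4
    · have h2 := ht2 j
      rw [hR.nil, zero_dvd_iff] at h2
      exact h2
    · have h3 : t v = 0 := ht0 v v.2
      show u v + t v = z0 v + (h v : R)
      rw [h3, add_zero, hu]
      simp only [dif_pos v.2]
      rfl
  choose zz hz1 hz2 hz3 using hlift
  have hinj : Function.Injective zz := by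
    intro h h' hh
    funext v
    have h2 := hz3 h v
    have h3 := hz3 h' v
    rw [← hh, h2] at h3
    exact Subtype.ext (add_left_cancel h3)
  have hcard : Nat.card (K → X) = (q ^ (2 * k - 2 * k1)) ^ (Fintype.card V - r) := by
    rw [Nat.card_fun, hcardX, Nat.card_eq_fintype_card, hcardK]
  rw [← hcard, ← Set.ncard_univ, ← Set.ncard_image_of_injective _ hinj]
  refine Set.ncard_le_ncard ?_ (Set.toFinite _)
  rintro _ ⟨h, -, rfl⟩
  exact ⟨hz1 h, hz2 h⟩

end ring

section multi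
variable {ι : Type} [Fintype ι] [DecidableEq ι] {n : ι → ℕ} {r : ℕ} {d : Fin r → ι → ℕ}

private theorem ry_card {R : Type} {α : Type} [Fintype α] [DecidableEq α] (T : Finset R) (o : R)
    (P : α → Prop) [DecidablePred P] :
    (Fintype.piFinset fun v : α => if P v then T else {o}).card = T.card ^ (univ.filter P).card := by
  rw [Fintype.card_piFinset]
  have h1 : ∀ v : α, (if P v then T else {o}).card = if P v then T.card else 1 := by
    intro v
    split_ifs <;> simp
  rw [Finset.prod_congr rfl fun v _ => h1 v, Finset.prod_ite, Finset.prod_const_one, mul_one,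
    Finset.prod_const]

private theorem ry_card_ne {r : ℕ} (j0 : Fin r) :
    (univ.filter fun j : Fin r => j ≠ j0).card = r - 1 := by
  rw [Finset.filter_ne', Finset.card_erase_of_mem (Finset.mem_univ _), Finset.card_univ,
    Fintype.card_fin]

theorem ring_exc2W (hr : 1 ≤ r) (hd : ∀ j i, 1 ≤ d j i) (i0 : ι) (hn0 : r ≤ n i0) (q k1 s : ℕ)
    (hq : 2 ≤ q) (hk1 : 1 ≤ k1) (hs : s ≤ k1) (eps : ℝ) (he : 0 < eps) :
    ∃ k0 : ℕ, 1 ≤ k0 ∧ ∀ k : ℕ, k0 ≤ k → ∀ (R : Type) [CommRing R] (π : R), PR R π q (2 * k) →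
      (Set.ncard {A : PSys n d R |
        ∃ z : MVar n → R, (∀ i, ∃ a, IsUnit (z ⟨i, a⟩)) ∧ (∀ j, π ^ (2 * k1) ∣ MF (A j) z) ∧
          (∃ J : Fin r → MVar n, ¬ π ^ k1 ∣ (PJac A z J).det) ∧
          ¬ ∃ z' : MVar n → R, (∀ v, π ^ s ∣ z' v - z v) ∧ (∀ j, MF (A j) z' = 0) ∧
            ∃ J : Fin r → Fin (n i0 + 1), ¬ π ^ k ∣ (PJac A z' (blk i0 J)).det} : ℝ) ≤
        eps * ((q : ℝ) ^ (2 * k)) ^ NP n d := by
  classical
  have hqR : (0 : ℝ) < q := by exact_mod_cast (lt_of_lt_of_le two_pos hq)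
  have hqR1 : (1 : ℝ) < q := by exact_mod_cast (lt_of_lt_of_le one_lt_two hq)
  have hrR : (0 : ℝ) < r := by exact_mod_cast hr
  set V := Fintype.card (MVar n) with hV
  have hV1 : r ≤ V := by
    have h1 : Fintype.card (Fin (n i0 + 1)) ≤ Fintype.card (MVar n) :=
      Fintype.card_le_of_injective (fun a => (⟨i0, a⟩ : MVar n)) fun a b hab => by simpa using hab
    rw [Fintype.card_fin] at h1
    omega
  set D := 2 * k1 * (V - r) with hD
  -- the choice of `k0`
  obtain ⟨k2, hk2⟩ : ∃ k2 : ℕ, ∀ k : ℕ, k2 ≤ k → r * (q : ℝ) ^ D ≤ eps * (q : ℝ) ^ k := by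
    have h1 : Tendsto (fun k : ℕ => eps * (q : ℝ) ^ k) atTop atTop :=
      (tendsto_pow_atTop_atTop_of_one_lt hqR1).const_mul_atTop he
    have h2 := h1.eventually_ge_atTop (r * (q : ℝ) ^ D)
    exact Filter.eventually_atTop.mp h2
  refine ⟨max k1 (r * (k2 + 1)), hk1.trans (le_max_left _ _), fun k hk R _ π hR => ?_⟩
  have hkk1 : k1 ≤ k := (le_max_left _ _).trans hk
  have hkk2 : r * (k2 + 1) ≤ k := (le_max_right _ _).trans hk
  obtain ⟨k', hk'1, hk'2⟩ : ∃ k' : ℕ, k2 + 1 ≤ k' ∧ r * k' ≤ k :=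
    ⟨k / r, (Nat.le_div_iff_mul_le hr).mpr (by rw [mul_comm]; exact hkk2), Nat.mul_div_le k r⟩
  have hk'k : k' ≤ 2 * k := by
    have : k' ≤ r * k' := Nat.le_mul_of_pos_left _ hr
    omega
  have : Finite R := hR.fin
  have : Fintype R := Fintype.ofFinite R
  obtain ⟨hfinS, -⟩ := card_PSys_ring (n := n) (d := d) hR
  have hcardR : Fintype.card R = q ^ (2 * k) := by
    rw [← Nat.card_eq_fintype_card]
    exact hR.card_eq
  obtain ⟨T, hTcard, hT1, -, hT1'⟩ := hR.exists_reps k' hk'k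
  set S : Set (PSys n d R) := {A : PSys n d R |
        ∃ z : MVar n → R, (∀ i, ∃ a, IsUnit (z ⟨i, a⟩)) ∧ (∀ j, π ^ (2 * k1) ∣ MF (A j) z) ∧
          (∃ J : Fin r → MVar n, ¬ π ^ k1 ∣ (PJac A z J).det) ∧
          ¬ ∃ z' : MVar n → R, (∀ v, π ^ s ∣ z' v - z v) ∧ (∀ j, MF (A j) z' = 0) ∧
            ∃ J : Fin r → Fin (n i0 + 1), ¬ π ^ k ∣ (PJac A z' (blk i0 J)).det} with hS
  set B : Finset (PSys n d R) := (Set.toFinite S).toFinset with hB
  have hset : S = (B : Set (PSys n d R)) := by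
    rw [hB, Set.Finite.coe_toFinset]
  have hBmem : ∀ A, A ∈ B ↔ A ∈ S := by
    intro A
    rw [← Finset.mem_coe, ← hset]
  rw [hset, Set.ncard_coe_finset]
  set Z : Finset (MVar n → R) := (Finset.univ : Finset (MVar n → R)).filter
    fun z => ∀ i, ∃ a, IsUnit (z ⟨i, a⟩) with hZ
  have hZcard : (Z.card : ℝ) ≤ ((q : ℝ) ^ (2 * k)) ^ V := by
    have h1 : Z.card ≤ (q ^ (2 * k)) ^ V := by
      refine (Finset.card_filter_le _ _).trans ?_
      rw [Finset.card_univ, Fintype.card_fun, hcardR]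
    exact_mod_cast h1
  set rel : PSys n d R → (MVar n → R) → Prop := fun A z => (∀ j, MF (A j) z = 0) ∧
    ∀ J : Fin r → Fin (n i0 + 1), π ^ k ∣ (PJac A z (blk i0 J)).det with hrel
  -- many zeros for each bad system
  have habove : ∀ A ∈ B, (q ^ (2 * k - 2 * k1)) ^ (V - r) ≤ (Z.bipartiteAbove rel A).card := by
    intro A hA
    rw [hBmem] at hA
    obtain ⟨z0, hz0, hF0, ⟨J, hJ⟩, hA2⟩ := hA
    have h1 := hens_zeros_ringW (V := MVar n) (I := fun j => MIdx n (d j)) hR (fun j => mex) A k1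
      hk1 hkk1 z0 J hF0 hJ
    refine h1.trans ?_
    rw [← Set.ncard_coe_finset]
    refine Set.ncard_le_ncard ?_ (Finset.finite_toSet _)
    rintro z ⟨hz2, hz3⟩
    rw [Finset.mem_coe, Finset.mem_bipartiteAbove, hZ, Finset.mem_filter]
    refine ⟨⟨Finset.mem_univ _, fun i => ?_⟩, hz3, fun J' => ?_⟩
    · obtain ⟨a, ha⟩ := hz0 i
      refine ⟨a, ?_⟩
      rw [hR.isUnit_iff]
      intro h2
      refine hR.not_dvd_of_isUnit ha ?_
      have h3 := dvd_sub h2 ((dvd_pow_self π (by omega : k1 ≠ 0)).trans (hz2 ⟨i, a⟩))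
      simpa using h3
    · by_contra h3
      exact hA2 ⟨z, fun v => (pow_dvd_pow π hs).trans (hz2 v), hz3, J', h3⟩
  set Y : Fin r → Finset (Fin r → R) := fun j0 =>
    Fintype.piFinset fun j => if j ≠ j0 then T else {1} with hY
  have hYcard : ∀ j0, (Y j0).card = (q ^ k') ^ (r - 1) := fun j0 => by
    rw [← ry_card_ne j0, hY, ← hTcard]
    exact ry_card (α := Fin r) T 1 (fun j => j ≠ j0)
  set W : Finset (Σ _ : Fin r, (Fin r → R)) := univ.sigma fun j0 => Y j0 with hW
  have hWcard : W.card = r * (q ^ k') ^ (r - 1) := by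
    rw [hW, Finset.card_sigma, Finset.sum_congr rfl fun j _ => hYcard j, Finset.sum_const,
      Finset.card_univ, Fintype.card_fin, smul_eq_mul]
  -- few systems for each point
  have hbelow : ∀ z ∈ Z, ((B.bipartiteBelow rel z).card : ℝ) ≤
      r * ((q : ℝ) ^ k') ^ (r - 1) *
        (((q : ℝ) ^ (2 * k)) ^ NP n d / (q : ℝ) ^ (2 * k * r + k' * n i0)) := by
    intro z hz
    rw [hZ, Finset.mem_filter] at hz
    have hz2 := hz.2
    choose τ hτ using hz2
    set U : Finset (MVar n) := (univ.erase (τ i0)).image fun a => (⟨i0, a⟩ : MVar n) with hU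
    have hUcard : U.card = n i0 := by
      rw [hU, Finset.card_image_of_injective _ (fun a b hab => by simpa using hab),
        Finset.card_erase_of_mem (Finset.mem_univ _), Finset.card_univ, Fintype.card_fin]
      omega
    set E : (Σ _ : Fin r, (Fin r → R)) → Set (PSys n d R) := fun x =>
      {A | (∀ j, π ^ (2 * k) ∣ MF (A j) z) ∧ ∀ v ∈ U, π ^ k' ∣ ∑ j, x.2 j * MD (A j) z v} with hE
    have hEfin : ∀ x, (E x).Finite := fun x => Set.toFinite _
    have hEcard : ∀ x ∈ W, (Set.ncard (E x) : ℝ) ≤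
        ((q : ℝ) ^ (2 * k)) ^ NP n d / (q : ℝ) ^ (2 * k * r + k' * n i0) := by
      rintro ⟨j0, b⟩ hx
      rw [hW, Finset.mem_sigma] at hx
      have hb := hx.2
      rw [hY] at hb
      simp only at hb
      rw [Fintype.mem_piFinset] at hb
      have hb1 := hb j0
      simp only [ne_eq, not_true_eq_false, if_false, Finset.mem_singleton] at hb1
      have h1 := ring_cond hR hd τ z hτ b j0 (by rw [hb1]; exact isUnit_one) (2 * k) k' le_rfl hk'k
        U (by
        intro v hv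
        rw [hU, Finset.mem_image] at hv
        obtain ⟨a, ha, rfl⟩ := hv
        exact (Finset.mem_erase.mp ha).1)
      rw [hUcard] at h1
      rw [le_div_iff₀ (by positivity)]
      exact_mod_cast h1
    have hcov : ((B.bipartiteBelow rel z : Finset (PSys n d R)) : Set (PSys n d R)) ⊆
        ⋃ x ∈ W, E x := by
      intro A hA
      rw [Finset.mem_coe, Finset.mem_bipartiteBelow, hBmem] at hA
      obtain ⟨-, hA3, hA2⟩ := hA
      have hdet : ∀ J : Fin r → Fin (n i0 + 1), π ^ (r * k') ∣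
          (Matrix.of fun (j : Fin r) l => MD (A j) z ⟨i0, J l⟩).det := by
        intro J
        exact (pow_dvd_pow _ hk'2).trans (hA2 J)
      obtain ⟨c, ⟨j0, hj0⟩, hc⟩ := left_kernel_ring hR (V := Fin (n i0 + 1)) hr
        (fun j a => MD (A j) z ⟨i0, a⟩) k' (by omega) hdet
      obtain ⟨b, hb1, hb2, hb3⟩ := ring_norm hR _ k' hk'k T hT1 c j0 hj0 hc
      refine Set.mem_iUnion₂.mpr ⟨⟨j0, b⟩, ?_, fun j => ?_, fun v hv => ?_⟩
      · rw [hW, Finset.mem_sigma]
        refine ⟨Finset.mem_univ _, ?_⟩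
        rw [hY]
        simp only
        rw [Fintype.mem_piFinset]
        intro j
        split_ifs with h1
        · exact hb2 j h1
        · rw [Finset.mem_singleton]
          push Not at h1
          rw [h1]
          exact hb1
      · rw [hA3 j]
        exact dvd_zero _
      · rw [hU, Finset.mem_image] at hv
        obtain ⟨a, -, rfl⟩ := hv
        exact hb3 a
    have h2 : ((B.bipartiteBelow rel z).card : ℝ) ≤ ∑ x ∈ W, (Set.ncard (E x) : ℝ) := by
      have h3 := Set.ncard_le_ncard hcov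
        (Set.Finite.biUnion W.finite_toSet fun x _ => hEfin x)
      rw [Set.ncard_coe_finset] at h3
      have h4 := Finset.set_ncard_biUnion_le W fun x => E x
      exact_mod_cast h3.trans h4
    refine h2.trans ((Finset.sum_le_sum hEcard).trans ?_)
    rw [Finset.sum_const, nsmul_eq_mul, hWcard]
    push_cast
    exact le_rfl
  have hdc := Finset.sum_card_bipartiteAbove_eq_sum_card_bipartiteBelow (s := B) (t := Z) rel
  set N : ℝ := ((q : ℝ) ^ (2 * k)) ^ NP n d with hN
  have hN0 : 0 < N := by rw [hN]; positivity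
  have h1 : (B.card : ℝ) * ((q : ℝ) ^ (2 * k - 2 * k1)) ^ (V - r) ≤
      ((q : ℝ) ^ (2 * k)) ^ V * (r * ((q : ℝ) ^ k') ^ (r - 1) *
        (N / (q : ℝ) ^ (2 * k * r + k' * n i0))) := by
    calc (B.card : ℝ) * ((q : ℝ) ^ (2 * k - 2 * k1)) ^ (V - r)
        = ∑ A ∈ B, ((q : ℝ) ^ (2 * k - 2 * k1)) ^ (V - r) := by
          rw [Finset.sum_const, nsmul_eq_mul]
      _ ≤ ∑ A ∈ B, ((Z.bipartiteAbove rel A).card : ℝ) := by
          refine Finset.sum_le_sum fun A hA => ?_
          exact_mod_cast habove A hA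
      _ = ∑ z ∈ Z, ((B.bipartiteBelow rel z).card : ℝ) := by exact_mod_cast hdc
      _ ≤ ∑ z ∈ Z, (r * ((q : ℝ) ^ k') ^ (r - 1) *
            (N / (q : ℝ) ^ (2 * k * r + k' * n i0))) :=
          Finset.sum_le_sum hbelow
      _ = Z.card * (r * ((q : ℝ) ^ k') ^ (r - 1) *
            (N / (q : ℝ) ^ (2 * k * r + k' * n i0))) := by
          rw [Finset.sum_const, nsmul_eq_mul]
      _ ≤ _ := by gcongr
  have h2 : ((q : ℝ) ^ (2 * k)) ^ V =
      ((q : ℝ) ^ (2 * k - 2 * k1)) ^ (V - r) * (q : ℝ) ^ D * (q : ℝ) ^ (2 * k * r) := by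
    rw [← pow_mul, ← pow_mul, ← pow_add, ← pow_add]
    congr 1
    rw [hD]
    obtain ⟨W', hW'⟩ : ∃ W', V = W' + r := ⟨V - r, by omega⟩
    obtain ⟨j, hj⟩ : ∃ j, k = k1 + j := ⟨k - k1, by omega⟩
    rw [hW', hj]
    have : 2 * (k1 + j) - 2 * k1 = 2 * j := by omega
    rw [this, Nat.add_sub_cancel]
    ring
  have h3 : (q : ℝ) ^ (2 * k * r + k' * n i0) = (q : ℝ) ^ (k' * n i0) * (q : ℝ) ^ (2 * k * r) := by
    rw [← pow_add]; congr 1; ring
  have hq1 : (0 : ℝ) < ((q : ℝ) ^ (2 * k - 2 * k1)) ^ (V - r) := by positivity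
  have hq2 : (0 : ℝ) < (q : ℝ) ^ (2 * k * r) := by positivity
  have hq3 : (0 : ℝ) < (q : ℝ) ^ (k' * n i0) := by positivity
  have h4 : ((q : ℝ) ^ (2 * k)) ^ V * (r * ((q : ℝ) ^ k') ^ (r - 1) *
        (N / (q : ℝ) ^ (2 * k * r + k' * n i0))) =
      (r * (q : ℝ) ^ D * ((q : ℝ) ^ k') ^ (r - 1) / (q : ℝ) ^ (k' * n i0) *
        N) * ((q : ℝ) ^ (2 * k - 2 * k1)) ^ (V - r) := by
    rw [h2, h3]
    field_simp
  rw [h4] at h1
  have h5 := le_of_mul_le_mul_right h1 hq1
  refine h5.trans ?_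
  have h6 : r * (q : ℝ) ^ D * ((q : ℝ) ^ k') ^ (r - 1) / (q : ℝ) ^ (k' * n i0) ≤ eps := by
    rw [div_le_iff₀ hq3]
    have h7 : (q : ℝ) ^ k' * ((q : ℝ) ^ k') ^ (r - 1) ≤ (q : ℝ) ^ (k' * n i0) := by
      rw [← pow_succ', ← pow_mul]
      refine pow_le_pow_right₀ hqR1.le (Nat.mul_le_mul_left _ (by omega))
    calc r * (q : ℝ) ^ D * ((q : ℝ) ^ k') ^ (r - 1)
        ≤ (eps * (q : ℝ) ^ k') * ((q : ℝ) ^ k') ^ (r - 1) := by
          have := hk2 k' (by omega)
          gcongr
      _ = eps * ((q : ℝ) ^ k' * ((q : ℝ) ^ k') ^ (r - 1)) := by ring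
      _ ≤ eps * (q : ℝ) ^ (k' * n i0) := by gcongr
  gcongr

end multi

end NKWHP
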