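import Pool.Agent.Lib.MP_e426f4_ag.NKW.Defs

/-!
NKW-Trans: transitivity of nearness.

PROOF. X of the hypothesis serves. At P (primorial W0 ∈ P; primorial W0 ∣ primorial w, since the filtered range product of W0 + 1 divides that of w + 1: Finset.prod_dvd_prod_of_subset):
X - g c = (X - g zp) + g (zp - c) ∈ P^(k+t) + P^(t+s), s ≤ k. At w': ‖X - g x‖ ≤ ‖X - g zi‖ + ‖g‖ ‖zi - x‖ ≤ (del1 + del2) ‖g‖.
-/

set_option linter.unusedSectionVars false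

namespace NKWHP

open NumberField GenHP NFHP NKHP NKPHP Finset Filter Topology
open CIPHP (PSys NP PJac blk pev)

variable {ι : Type} [Fintype ι] [DecidableEq ι]
variable {K : Type} [Field K] [NumberField K] {n : ι → ℕ} {r : ℕ} {d : Fin r → ι → ℕ}

theorem primorial_mem {W0 w : ℕ} (hW : W0 ≤ w) (P : Ideal (𝓞 K))
    (h : (primorial W0 : 𝓞 K) ∈ P) : (primorial w : 𝓞 K) ∈ P := by
  have hd : primorial W0 ∣ primorial w := by
    unfold primorial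
    refine Finset.prod_dvd_prod_of_subset _ _ _ ?_
    intro p hp
    rw [Finset.mem_filter, Finset.mem_range] at hp ⊢
    exact ⟨by omega, hp.2⟩
  obtain ⟨m, hm⟩ := hd
  rw [hm, Nat.cast_mul]
  exact P.mul_mem_right _ h

theorem solNear_trans {W0 w s k : ℕ} {del del1 del2 : ℝ} (hW : W0 ≤ w) (hsk : s ≤ k)
    (hdel : del1 + del2 ≤ del) (c zp : Ideal (𝓞 K) → MVar n → 𝓞 K)
    (x zi : InfinitePlace K → MVar n → ℂ) (A : PSys n d (𝓞 K))
    (h : SolNear w k del1 zp zi A)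
    (h1 : ∀ P : Ideal (𝓞 K), P.IsMaximal → (primorial W0 : 𝓞 K) ∈ P →
      ∀ v, zp P v - c P v ∈ P ^ s)
    (h2 : ∀ w' v, ‖zi w' v - x w' v‖ ≤ del2) : SolNear W0 s del c x A := by
  obtain ⟨X, hX0, hX1, hX2, hX3⟩ := h
  refine ⟨X, hX0, hX1, fun P hP hW0 i => ?_, fun w' i => ?_⟩
  · obtain ⟨g, t, hg1, hg2, hg3⟩ := hX2 P hP (primorial_mem hW P hW0) i
    refine ⟨g, t, hg1, hg2, fun a => ?_⟩
    have e : X ⟨i, a⟩ - g * c P ⟨i, a⟩ =
        (X ⟨i, a⟩ - g * zp P ⟨i, a⟩) + g * (zp P ⟨i, a⟩ - c P ⟨i, a⟩) := by ring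
    rw [e]
    refine Ideal.add_mem _ (Ideal.pow_le_pow_right (by omega) (hg3 a)) ?_
    have h3 : g * (zp P ⟨i, a⟩ - c P ⟨i, a⟩) ∈ P ^ t * P ^ s :=
      Ideal.mul_mem_mul hg1 (h1 P hP hW0 ⟨i, a⟩)
    rwa [← pow_add, add_comm t s] at h3
  · obtain ⟨g, hg0, hgr, hg⟩ := hX3 w' i
    refine ⟨g, hg0, hgr, fun a => ?_⟩
    have e : sg w' (X ⟨i, a⟩) - g * x w' ⟨i, a⟩ =
        (sg w' (X ⟨i, a⟩) - g * zi w' ⟨i, a⟩) + g * (zi w' ⟨i, a⟩ - x w' ⟨i, a⟩) := by ring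
    rw [e]
    refine (norm_add_le _ _).trans ?_
    rw [norm_mul]
    have h3 := hg a
    have h4 := mul_le_mul_of_nonneg_left (h2 w' ⟨i, a⟩) (norm_nonneg g)
    have h5 := mul_le_mul_of_nonneg_right hdel (norm_nonneg g)
    linarith

end NKWHP
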