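import Pool.Agent.Lib.MP_e426f4_ag.NKW.ClassThm
import Pool.Agent.Lib.MP_e426f4_ag.NKP.RHens

/-!
NKW-WClass: the class theorem for one block with equations of different sizes, with a zero near the given local points.

TEMPLATE: NKP/WClass.lean (wclass_thm with its private lemmas wk_...), with class_thmW (NKW/ClassThm.lean) instead of NKHP.class_thm. Changes: wk_good must give the
point explicitly: from GPS P (k v) A0 z a point z' with GPS P (k' v) (fun i t => 2^(m i) * A1 i t) z' and ∀ j, z' j - z j ∈ P^(k v) (it is z + t, t ∈ P^(k v));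
choose xp' P := z' if P is maximal and contains primorial w, else xp P. The forms are multiplied by 2^(m i), so the zeros are the same (F_smul, 2 ≠ 0 in 𝓞 K).
NearS w k' del xp' zi (2^m A) implies NearS w k del xp zi A: x - xp = (x - xp') + (xp' - xp), P^(k' v) ≤ P^(k v); k' ≥ k. At the infinite places the point zi is the same.
-/

set_option linter.unusedSectionVars false

namespace NKWHP

open NumberField GenHP NFHP NKHP NKPHP Finset Filter Topology
open CIHP (Sys NS Jac)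

section
variable {K : Type} [Field K] [NumberField K] {n r : ℕ} {e : Fin r → ℕ}

private theorem wk_jac_smul {R : Type*} [CommRing R] (c : Fin r → R) (A : Sys n e R)
    (x : Fin (n + 1) → R) (J : Fin r → Fin (n + 1)) :
    (Jac (fun i t => c i * A i t) x J).det = (∏ i, c i) * (Jac A x J).det := by
  rw [← Matrix.det_mul_column]
  congr 1
  ext i l
  exact D_smul (c i) (A i) x (J l)

private theorem wk_F_congr {R : Type*} [CommRing R] {d : ℕ} (I : Ideal R) (A A' : Idx n d → R)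
    (x x' : Fin (n + 1) → R)
    (hA : ∀ m, A m - A' m ∈ I) (hx : ∀ i, x i - x' i ∈ I) : F A x - F A' x' ∈ I := by
  rw [← Ideal.Quotient.eq, ← F_map, ← F_map]
  congr 1
  · funext m
    exact Ideal.Quotient.eq.2 (hA m)
  · funext i
    exact Ideal.Quotient.eq.2 (hx i)

private theorem wk_D_congr {R : Type*} [CommRing R] {d : ℕ} (I : Ideal R) (A A' : Idx n d → R)
    (x x' : Fin (n + 1) → R)
    (j : Fin (n + 1)) (hA : ∀ m, A m - A' m ∈ I) (hx : ∀ i, x i - x' i ∈ I) :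
    D A x j - D A' x' j ∈ I := by
  rw [← Ideal.Quotient.eq, ← D_map, ← D_map]
  congr 1
  · funext m
    exact Ideal.Quotient.eq.2 (hA m)
  · funext i
    exact Ideal.Quotient.eq.2 (hx i)

private theorem wk_det_congr {R : Type*} [CommRing R] (I : Ideal R) (A A' : Sys n e R)
    (x x' : Fin (n + 1) → R) (J : Fin r → Fin (n + 1))
    (hA : ∀ i t, A i t - A' i t ∈ I) (hx : ∀ i, x i - x' i ∈ I) :
    (Jac A x J).det - (Jac A' x' J).det ∈ I := by
  rw [← Ideal.Quotient.eq, RingHom.map_det, RingHom.map_det]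
  congr 1
  ext i l
  rw [RingHom.mapMatrix_apply, RingHom.mapMatrix_apply, Matrix.map_apply, Matrix.map_apply]
  exact Ideal.Quotient.eq.2 (wk_D_congr I (A i) (A' i) x x' (J l) (hA i) hx)

private theorem wk_emem (P : Ideal (𝓞 K)) (k : ℕ) (x : 𝓞 K) :
    x ∈ P ^ k ↔ (k : ℕ∞) ≤ emultiplicity P (Ideal.span {x}) := by
  rw [← pow_dvd_iff_le_emultiplicity, Ideal.dvd_span_singleton]

/-- powers of two -/
private theorem wk_two_pow (P : Ideal (𝓞 K)) (hP : P.IsMaximal) (W : ℕ) (hW0 : W ≠ 0)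
    (h2W : 2 ∣ W) (k M k' : ℕ) (hk' : k + M ≤ k') (y : 𝓞 K)
    (hy : y ∉ P ^ (k * vW W P)) : (2 : 𝓞 K) ^ M * y ∉ P ^ (k' * vW W P) := by
  have hPb : P ≠ ⊥ := Ring.ne_bot_of_isMaximal_of_not_isField hP (RingOfIntegers.not_isField K)
  have hPp : Prime P := Ideal.prime_of_isPrime hPb hP.isPrime
  have hWe : emultiplicity P (Ideal.span {(W : 𝓞 K)}) = (vW W P : ℕ) := by
    have hN0 : Ideal.span {(W : 𝓞 K)} ≠ ⊥ := by
      rw [Ne, Ideal.span_singleton_eq_bot]
      exact_mod_cast hW0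
    have hfin : FiniteMultiplicity P (Ideal.span {(W : 𝓞 K)}) :=
      FiniteMultiplicity.of_prime_left hPp hN0
    rw [hfin.emultiplicity_eq_multiplicity]
    rfl
  have h2e : emultiplicity P (Ideal.span {(2 : 𝓞 K)}) ≤ (vW W P : ℕ) := by
    rw [← hWe]
    apply emultiplicity_le_emultiplicity_of_dvd_right
    rw [Ideal.dvd_iff_le, Ideal.span_singleton_le_span_singleton]
    exact_mod_cast (Nat.cast_dvd_cast h2W : ((2 : ℕ) : 𝓞 K) ∣ (W : 𝓞 K))
  intro h
  rw [wk_emem] at h hy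
  rw [← Ideal.span_singleton_mul_span_singleton, emultiplicity_mul hPp,
    ← Ideal.span_singleton_pow, emultiplicity_pow hPp] at h
  obtain ⟨a, ha⟩ : ∃ a : ℕ, emultiplicity P (Ideal.span {(2 : 𝓞 K)}) = a := by
    obtain ⟨a, ha⟩ := ENat.ne_top_iff_exists.1 (ne_top_of_le_ne_top (ENat.natCast_ne_top _) h2e)
    exact ⟨a, ha.symm⟩
  obtain ⟨b, hb⟩ : ∃ b : ℕ, emultiplicity P (Ideal.span {y}) = b := by
    have h1 := not_le.1 hy
    obtain ⟨b, hb⟩ := ENat.ne_top_iff_exists.1 (ne_top_of_lt h1)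
    exact ⟨b, hb.symm⟩
  rw [ha, hb] at h
  rw [hb] at hy
  rw [ha] at h2e
  have h2e' : a ≤ vW W P := by exact_mod_cast h2e
  have hy' : b < k * vW W P := by
    have := not_le.1 hy
    exact_mod_cast this
  have h' : k' * vW W P ≤ M * a + b := by exact_mod_cast h
  have h3 : (k + M) * vW W P ≤ k' * vW W P := Nat.mul_le_mul_right _ hk'
  have h4 : M * a ≤ M * vW W P := Nat.mul_le_mul_left _ h2e'
  rw [add_mul] at h3
  omega

/-- local data for the finer classes -/
private theorem wk_good (w k : ℕ) (hk : 1 ≤ k) (hw : 2 ≤ w) (m : Fin r → ℕ)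
    (A0 A1 : Sys n e (𝓞 K))
    (hA1 : ∀ i t, (((primorial w) ^ (2 * k) : ℕ) : 𝓞 K) ∣ A1 i t - A0 i t) (k' : ℕ)
    (hk' : k + ∑ i, m i ≤ k') (P : Ideal (𝓞 K)) (hP : P.IsMaximal)
    (hPW : (primorial w : 𝓞 K) ∈ P) (z : Fin (n + 1) → 𝓞 K)
    (hloc : GPS P (k * vW (primorial w) P) A0 z) :
    ∃ z' : Fin (n + 1) → 𝓞 K, GPS P (k' * vW (primorial w) P) (fun i t => (2 : 𝓞 K) ^ m i * A1 i t) z' ∧
      ∀ j, z' j - z j ∈ P ^ (k * vW (primorial w) P) := by
  obtain ⟨W, hW⟩ : ∃ W : ℕ, W = primorial w := ⟨_, rfl⟩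
  have hW0 : W ≠ 0 := by rw [hW]; exact (primorial_pos w).ne'
  have h2W : 2 ∣ W := by
    rw [hW]
    unfold primorial
    exact Finset.dvd_prod_of_mem _
      (Finset.mem_filter.mpr ⟨Finset.mem_range.mpr (by omega), Nat.prime_two⟩)
  rw [← hW] at hA1 hPW hloc ⊢
  have hPb : P ≠ ⊥ := Ring.ne_bot_of_isMaximal_of_not_isField hP (RingOfIntegers.not_isField K)
  have hPp : Prime P := Ideal.prime_of_isPrime hPb hP.isPrime
  have hWe : emultiplicity P (Ideal.span {(W : 𝓞 K)}) = (vW W P : ℕ) := by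
    have hN0 : Ideal.span {(W : 𝓞 K)} ≠ ⊥ := by
      rw [Ne, Ideal.span_singleton_eq_bot]
      exact_mod_cast hW0
    have hfin : FiniteMultiplicity P (Ideal.span {(W : 𝓞 K)}) :=
      FiniteMultiplicity.of_prime_left hPp hN0
    rw [hfin.emultiplicity_eq_multiplicity]
    rfl
  have hv1 : 1 ≤ vW W P := by
    have h1 : (W : 𝓞 K) ∈ P ^ 1 := by rwa [pow_one]
    rw [wk_emem, hWe] at h1
    exact_mod_cast h1
  have hWv : (W : 𝓞 K) ∈ P ^ vW W P := by
    rw [wk_emem, hWe]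
  obtain ⟨v, hv⟩ : ∃ v : ℕ, v = vW W P := ⟨_, rfl⟩
  have hkv1 : 1 ≤ k * v := Nat.mul_pos hk (by rw [hv]; exact hv1)
  obtain ⟨⟨j1, hj1⟩, hFz, J, hJ⟩ := hloc
  rw [← hv] at hFz hJ hWv
  have hcong : ∀ i t, A1 i t - A0 i t ∈ P ^ (2 * (k * v)) := by
    intro i t
    obtain ⟨u, hu⟩ := hA1 i t
    rw [hu]
    refine Ideal.mul_mem_right _ _ ?_
    have h1 : (W : 𝓞 K) ^ (2 * k) ∈ (P ^ v) ^ (2 * k) := Ideal.pow_mem_pow hWv _
    rw [← pow_mul] at h1
    have h2 : v * (2 * k) = 2 * (k * v) := by ring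
    rw [h2] at h1
    push_cast
    exact h1
  have hz0 : ∀ (I : Ideal (𝓞 K)) i, z i - z i ∈ I := fun I i => by
    rw [sub_self]
    exact I.zero_mem
  have hF1 : ∀ i, F (A1 i) z ∈ P ^ (2 * (k * v)) := by
    intro i
    have h1 := wk_F_congr (P ^ (2 * (k * v))) (A1 i) (A0 i) z z (hcong i) (hz0 _)
    have h2 := Ideal.add_mem _ h1 (hFz i)
    simpa using h2
  have hle : P ^ (2 * (k * v)) ≤ P ^ (k * v) := Ideal.pow_le_pow_right (by omega)
  have hD1 : (Jac A1 z J).det ∉ P ^ (k * v) := by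
    intro h
    apply hJ
    have h1 := wk_det_congr (P ^ (k * v)) A1 A0 z z J (fun i t => hle (hcong i t)) (hz0 _)
    have h2 := Ideal.sub_mem _ h h1
    simpa using h2
  have hD1' : (Matrix.of fun i l => Dg (fun t : Idx n (e i) => t.1) (A1 i) z (J l)).det ∉
      P ^ (k * v - 1 + 1) := by
    rw [Nat.sub_add_cancel hkv1]
    exact hD1
  have hk'v : k * v ≤ k' * v := Nat.mul_le_mul_right _ (by omega)
  obtain ⟨t, ht1, ht2⟩ := hens_K (V := Fin (n + 1)) (I := fun i => Idx n (e i)) P hP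
    (fun i t => t.1) A1 (k * v - 1) (2 * (k * v)) (2 * (k' * v) - 2 * (k * v)) (by omega) z J
    hF1 hD1'
  rw [show 2 * (k * v) + (2 * (k' * v) - 2 * (k * v)) = 2 * (k' * v) by omega] at ht2
  have ht3 : ∀ j, t j ∈ P ^ (k * v) := fun j =>
    (Ideal.pow_le_pow_right (by omega) : P ^ (2 * (k * v) - (k * v - 1)) ≤ P ^ (k * v)) (ht1 j)
  have ht4 : ∀ j, t j ∈ P := fun j => by
    have h1 := (Ideal.pow_le_pow_right hkv1 : P ^ (k * v) ≤ P ^ 1) (ht3 j)
    rwa [pow_one] at h1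
  rw [← hv]
  refine ⟨fun j => z j + t j, ⟨⟨j1, fun h => hj1 ?_⟩, fun i => ?_, J, ?_⟩, fun j => ?_⟩
  · have h1 := Ideal.sub_mem _ h (ht4 j1)
    simpa using h1
  · rw [F_smul]
    exact Ideal.mul_mem_left _ _ (ht2 i)
  · rw [wk_jac_smul (fun i => (2 : 𝓞 K) ^ m i), Finset.prod_pow_eq_pow_sum, hv]
    refine wk_two_pow P hP W hW0 h2W k (∑ i, m i) k' hk' _ fun h => hD1 ?_
    rw [← hv] at h
    have h1 : (Jac A1 (fun j => z j + t j) J).det - (Jac A1 z J).det ∈ P ^ (k * v) :=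
      wk_det_congr (P ^ (k * v)) A1 A1 _ z J (fun i t => by rw [sub_self]; exact Ideal.zero_mem _)
        (fun j => by simpa using ht3 j)
    have h2 := Ideal.sub_mem _ h h1
    simpa using h2
  · have h1 := ht3 j
    simpa using h1

end

theorem wclass_thmW (K : Type) [Field K] [NumberField K] (n : ℕ) {r : ℕ} (e : Fin r → ℕ)
    (hr : 1 ≤ r) (hn : r + 2 ≤ n) (he2 : ∀ i, 2 ≤ e i) (hs : ∑ i, e i ≤ n)
    (eps : ℝ) (he : 0 < eps) :
    ∃ w1 : ℕ, ∀ w : ℕ, w1 ≤ w → 2 ≤ w → ∀ bet : ℝ, 0 < bet → bet ≤ 1 →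
    ∀ del : ℝ, 0 < del →
    ∃ rho0 : ℝ, 0 < rho0 ∧ rho0 ≤ 1 ∧ ∀ rho : ℝ, 0 < rho → rho ≤ rho0 → ∀ k : ℕ, 1 ≤ k →
      ∀ (A0 : Sys n e (𝓞 K)) (xp : Ideal (𝓞 K) → Fin (n + 1) → 𝓞 K),
      (∀ P : Ideal (𝓞 K), P.IsMaximal → (primorial w : 𝓞 K) ∈ P →
        GPS P (k * vW (primorial w) P) A0 (xp P)) →
      ∀ (AC Ainf : Sys n e (IK K → ℝ)) (zi : InfinitePlace K → Fin (n + 1) → ℂ),
      (∀ i t j, |Ainf i t j| ≤ 1) →
      (∀ i t j, |AC i t j - Ainf i t j| ≤ rho) →
      (∀ w', GIS w' rho0 bet (sysC Ainf w') (zi w')) →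
      ∀ lamb : Fin r → ℝ, (∀ i, 0 < lamb i) →
      ∀ᶠ H : ℝ in atTop,
        (Set.ncard {A : Sys n e (𝓞 K) |
          (∀ i t j, |(crd (A i t) j : ℝ) - lamb i * H * AC i t j| ≤ rho * (lamb i * H)) ∧
          (∀ i t, (((primorial w) ^ (2 * k) : ℕ) : 𝓞 K) ∣ A i t - A0 i t) ∧
          ¬ NearS w k del xp zi A} : ℝ) ≤
          eps * ∏ i, (2 * rho * (lamb i * H) / ((primorial w : ℝ)) ^ (2 * k)) ^
            (mK K * NN n (e i)) := by
  classical
  obtain ⟨w1, hcl⟩ := class_thmW K n e hr hn he2 hs (eps / 2 ^ (mK K * NS n e))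
    (by positivity)
  refine ⟨w1, fun w hw1 hw bet hb hb1 del hdel => ?_⟩
  obtain ⟨rho0, hrho0, hrho01, hcl⟩ := hcl w hw1 hw (bet / 2 ^ r)
    (by positivity) (by
      rw [div_le_one (by positivity)]
      exact hb1.trans (one_le_pow₀ (by norm_num))) del hdel
  refine ⟨rho0, hrho0, hrho01, fun rho hrho hrho' k hk A0 xp hloc AC Ainf zi hA hAC hI lam' hlam => ?_⟩
  -- the powers of two
  set L : ℝ := ∑ i, lam' i with hL
  have hLle : ∀ i, lam' i ≤ L := fun i =>
    Finset.single_le_sum (f := lam') (fun j _ => (hlam j).le) (Finset.mem_univ i)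
  have hL0 : 0 < L := lt_of_lt_of_le (hlam ⟨0, hr⟩) (hLle _)
  have hmex : ∀ i, ∃ m : ℕ, (2 : ℝ) ^ m ≤ L / lam' i ∧ L / lam' i < 2 ^ (m + 1) := fun i =>
    exists_nat_pow_near ((one_le_div (hlam i)).mpr (hLle i)) (by norm_num)
  choose m hm1 hm2 using hmex
  set mu : Fin r → ℝ := fun i => 2 ^ m i * lam' i / L with hmu
  have hmu0 : ∀ i, 0 < mu i := fun i => by
    have := hlam i
    positivity
  have hmu1 : ∀ i, mu i ≤ 1 := by
    intro i
    have h1 := hm1 i
    rw [le_div_iff₀ (hlam i)] at h1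
    show 2 ^ m i * lam' i / L ≤ 1
    rw [div_le_one hL0]
    exact h1
  have hmu2 : ∀ i, 1 / 2 ≤ mu i := by
    intro i
    have h1 := hm2 i
    rw [div_lt_iff₀ (hlam i), pow_succ] at h1
    show 1 / 2 ≤ 2 ^ m i * lam' i / L
    rw [le_div_iff₀ hL0]
    linarith
  set M : ℕ := ∑ i, m i with hM
  have hmM : ∀ i, m i ≤ M := fun i =>
    Finset.single_le_sum (f := m) (fun _ _ => Nat.zero_le _) (Finset.mem_univ i)
  set k' : ℕ := k + M with hk'
  set W : ℕ := primorial w with hW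
  have hWp : 0 < W := primorial_pos w
  have h2W : 2 ∣ W := by
    rw [hW]
    unfold primorial
    exact Finset.dvd_prod_of_mem _
      (Finset.mem_filter.mpr ⟨Finset.mem_range.mpr (by omega), Nat.prime_two⟩)
  have hqex : ∀ i, ∃ q : ℕ, W ^ (2 * M) = 2 ^ m i * q := by
    intro i
    have h1 : 2 ^ m i ∣ W ^ (2 * M) :=
      (pow_dvd_pow 2 (by have := hmM i; omega : m i ≤ 2 * M)).trans (pow_dvd_pow_of_dvd h2W _)
    exact h1
  choose q hq using hqex
  have hq0 : ∀ i, 0 < q i := by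
    intro i
    rcases Nat.eq_zero_or_pos (q i) with h | h
    · exfalso
      have h1 := hq i
      rw [h, mul_zero] at h1
      exact (pow_pos hWp (2 * M)).ne' h1
    · exact h
  -- elements with given coordinates
  choose el hel using (exists_crd (K := K))
  -- the classes
  set Bt := (i : Fin r) → Idx n (e i) → IK K → Fin (q i) with hBt
  set A1 : Bt → Sys n e (𝓞 K) := fun b i t =>
    A0 i t + ((W ^ (2 * k) : ℕ) : 𝓞 K) * el (fun j => (((b i t j : Fin (q i)) : ℕ) : ℤ)) with hA1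
  have hgood : ∀ (b : Bt) (P : Ideal (𝓞 K)), ∃ z' : Fin (n + 1) → 𝓞 K, P.IsMaximal →
      (primorial w : 𝓞 K) ∈ P →
      GPS P (k' * vW (primorial w) P) (fun i t => (2 : 𝓞 K) ^ m i * A1 b i t) z' ∧
      ∀ j, z' j - xp P j ∈ P ^ (k * vW (primorial w) P) := by
    intro b P
    by_cases hP : P.IsMaximal
    · by_cases hPW : (primorial w : 𝓞 K) ∈ P
      · obtain ⟨z', hz'⟩ := wk_good w k hk hw m A0 (A1 b) (fun i t => by
          rw [hA1]
          simp only [add_sub_cancel_left]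
          exact dvd_mul_right _ _) k' (by omega) P hP hPW (xp P) (hloc P hP hPW)
        exact ⟨z', fun _ _ => hz'⟩
      · exact ⟨0, fun _ h => absurd h hPW⟩
    · exact ⟨0, fun h => absurd h hP⟩
  choose xq hxq using hgood
  set S : Bt → ℝ → Set (Sys n e (𝓞 K)) := fun b H =>
    {A : Sys n e (𝓞 K) | (∀ i t j, |(crd (A i t) j : ℝ) - H * (mu i * AC i t j)| ≤ rho * H) ∧
      (∀ i t, ((W ^ (2 * k') : ℕ) : 𝓞 K) ∣ A i t - 2 ^ m i * A1 b i t) ∧
      ¬ NearS w k' del (xq b) zi A} with hS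
  have hclass : ∀ b : Bt, ∀ᶠ H : ℝ in atTop, ((S b H).ncard : ℝ) ≤
      eps / 2 ^ (mK K * NS n e) * (2 * rho * H / (W : ℝ) ^ (2 * k')) ^ (mK K * NS n e) := by
    intro b
    refine hcl rho hrho hrho' k' (by omega) (fun i t => 2 ^ m i * A1 b i t) (xq b) ?_
      (fun i t j => mu i * AC i t j) (fun i t j => mu i * Ainf i t j) zi ?_ ?_ ?_
    · intro P hP hPW
      exact (hxq b P hP hPW).1
    · intro i t j
      rw [abs_mul, abs_of_pos (hmu0 i)]
      exact mul_le_one₀ (hmu1 i) (abs_nonneg _) (hA i t j)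
    · intro i t j
      rw [← mul_sub, abs_mul, abs_of_pos (hmu0 i)]
      calc mu i * |AC i t j - Ainf i t j| ≤ 1 * rho :=
            mul_le_mul (hmu1 i) (hAC i t j) (abs_nonneg _) zero_le_one
        _ = rho := one_mul _
    · intro w'
      obtain ⟨hz, hzF, J, hzJ⟩ := hI w'
      have hsys : sysC (fun i t j => mu i * Ainf i t j) w' =
          fun i t => (mu i : ℂ) * sysC Ainf w' i t := by
        funext i t
        exact lam_smul (mu i) (Ainf i t) w'
      refine ⟨hz, fun i => ?_, J, ?_⟩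
      · rw [hsys, F_smul, norm_mul, Complex.norm_real, Real.norm_of_nonneg (hmu0 i).le]
        calc mu i * ‖F (sysC Ainf w' i) (zi w')‖ ≤ 1 * rho0 :=
              mul_le_mul (hmu1 i) (hzF i) (norm_nonneg _) zero_le_one
          _ = rho0 := one_mul _
      · rw [hsys, wk_jac_smul (fun i => (mu i : ℂ)), norm_mul, norm_prod]
        have h0 : ∏ i, ‖(mu i : ℂ)‖ = ∏ i, mu i := Finset.prod_congr rfl fun i _ => by
          rw [Complex.norm_real, Real.norm_of_nonneg (hmu0 i).le]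
        rw [h0]
        have h1 : (1 / 2 : ℝ) ^ r ≤ ∏ i, mu i := by
          calc (1 / 2 : ℝ) ^ r = ∏ _i : Fin r, (1 / 2 : ℝ) := by
                rw [Finset.prod_const, Finset.card_univ, Fintype.card_fin]
            _ ≤ _ := Finset.prod_le_prod (fun _ _ => by norm_num) fun i _ => hmu2 i
        calc bet / 2 ^ r = (1 / 2 : ℝ) ^ r * bet := by
              rw [one_div, inv_pow]
              ring
          _ ≤ _ := mul_le_mul h1 hzJ hb.le (Finset.prod_nonneg fun i _ => (hmu0 i).le)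
  have hscale : Tendsto (fun H : ℝ => L * H) atTop atTop := tendsto_id.const_mul_atTop hL0
  filter_upwards [hscale.eventually (Filter.eventually_all.mpr hclass),
    eventually_gt_atTop 0] with H hH hH0
  set Φ : Sys n e (𝓞 K) → Sys n e (𝓞 K) := fun A i t => ((2 ^ m i : ℕ) : 𝓞 K) * A i t with hΦ
  have hΦinj : Function.Injective Φ := by
    intro A A' h
    funext i t
    have h1 : ((2 ^ m i : ℕ) : 𝓞 K) * A i t = ((2 ^ m i : ℕ) : 𝓞 K) * A' i t :=
      congrFun (congrFun h i) t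
    have h2 : ((2 ^ m i : ℕ) : 𝓞 K) ≠ 0 := by
      have : (2 ^ m i : ℕ) ≠ 0 := by positivity
      exact_mod_cast this
    exact mul_left_cancel₀ h2 h1
  have hSfin : ∀ b, (S b (L * H)).Finite := by
    intro b
    obtain ⟨C, hC⟩ : ∃ C : ℝ, ∀ i t j, |(L * H) * (mu i * AC i t j)| ≤ C := by
      refine ⟨∑ i, ∑ t, ∑ j, |(L * H) * (mu i * AC i t j)|, fun i t j => ?_⟩
      refine le_trans ?_ (Finset.single_le_sum
        (f := fun i => ∑ t, ∑ j, |(L * H) * (mu i * AC i t j)|)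
        (fun _ _ => Finset.sum_nonneg fun _ _ => Finset.sum_nonneg fun _ _ => abs_nonneg _)
        (Finset.mem_univ i))
      refine le_trans ?_ (Finset.single_le_sum (f := fun t => ∑ j, |(L * H) * (mu i * AC i t j)|)
        (fun _ _ => Finset.sum_nonneg fun _ _ => abs_nonneg _) (Finset.mem_univ t))
      exact Finset.single_le_sum (f := fun j => |(L * H) * (mu i * AC i t j)|)
        (fun _ _ => abs_nonneg _) (Finset.mem_univ j)
    refine sys_finite _ (C + rho * (L * H)) ?_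
    intro A hA' i t j
    have h1 := hA'.1 i t j
    calc |(crd (A i t) j : ℝ)| = |(L * H) * (mu i * AC i t j) +
          ((crd (A i t) j : ℝ) - (L * H) * (mu i * AC i t j))| := by ring_nf
      _ ≤ |(L * H) * (mu i * AC i t j)| + |(crd (A i t) j : ℝ) - (L * H) * (mu i * AC i t j)| :=
          abs_add_le _ _
      _ ≤ C + rho * (L * H) := add_le_add (hC i t j) h1
  set X : Set (Sys n e (𝓞 K)) := {A : Sys n e (𝓞 K) |
          (∀ i t j, |(crd (A i t) j : ℝ) - lam' i * H * AC i t j| ≤ rho * (lam' i * H)) ∧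
          (∀ i t, ((W ^ (2 * k) : ℕ) : 𝓞 K) ∣ A i t - A0 i t) ∧
          ¬ NearS w k del xp zi A} with hX
  have hsub : Φ '' X ⊆ ⋃ b, S b (L * H) := by
    rintro _ ⟨A, ⟨h1, h2, h3⟩, rfl⟩
    choose u hu using h2
    have hqz : ∀ i, (0 : ℤ) < q i := fun i => by exact_mod_cast hq0 i
    set b : Bt := fun i t j => ⟨(crd (u i t) j % q i).toNat, by
      have h4 := Int.emod_nonneg (crd (u i t) j) (hqz i).ne'
      have h5 := Int.emod_lt_of_pos (crd (u i t) j) (hqz i)
      omega⟩ with hb'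
    have hbv : ∀ i t j, (((b i t j : Fin (q i)) : ℕ) : ℤ) = crd (u i t) j % q i := by
      intro i t j
      show (((crd (u i t) j % q i).toNat : ℕ) : ℤ) = _
      exact Int.toNat_of_nonneg (Int.emod_nonneg (crd (u i t) j) (hqz i).ne')
    refine Set.mem_iUnion.mpr ⟨b, ?_, ?_, ?_⟩
    · intro i t j
      have h4 : (crd (Φ A i t) j : ℝ) - L * H * (mu i * AC i t j) =
          2 ^ m i * ((crd (A i t) j : ℝ) - lam' i * H * AC i t j) := by
        have h5 : L * mu i = 2 ^ m i * lam' i := by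
          show L * (2 ^ m i * lam' i / L) = _
          field_simp
        have h6 : L * H * (mu i * AC i t j) = (L * mu i) * H * AC i t j := by ring
        have h7 : crd (Φ A i t) j = ((2 ^ m i : ℕ) : ℤ) * crd (A i t) j :=
          crd_natCast_mul (2 ^ m i) (A i t) j
        rw [h6, h5, h7]
        push_cast
        ring
      rw [h4, abs_mul, abs_of_pos (by positivity : (0 : ℝ) < 2 ^ m i)]
      have h5 : (2 : ℝ) ^ m i * lam' i ≤ L := by
        have := hm1 i
        rwa [le_div_iff₀ (hlam i)] at this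
      calc 2 ^ m i * |(crd (A i t) j : ℝ) - lam' i * H * AC i t j| ≤
            2 ^ m i * (rho * (lam' i * H)) :=
            mul_le_mul_of_nonneg_left (h1 i t j) (by positivity)
        _ = rho * H * (2 ^ m i * lam' i) := by ring
        _ ≤ rho * H * L := mul_le_mul_of_nonneg_left h5 (by positivity)
        _ = rho * (L * H) := by ring
    · intro i t
      have h8 : ((q i : ℕ) : 𝓞 K) ∣ u i t - el (fun j => (((b i t j : Fin (q i)) : ℕ) : ℤ)) := by
        rw [natCast_dvd_iff]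
        intro j
        rw [crd_sub, hel, hbv]
        exact Int.dvd_self_sub_emod
      obtain ⟨y, hy⟩ := h8
      have h4 : Φ A i t - 2 ^ m i * A1 b i t =
          2 ^ m i * (((W ^ (2 * k) : ℕ) : 𝓞 K) * (((q i : ℕ) : 𝓞 K) * y)) := by
        rw [← hy]
        show ((2 ^ m i : ℕ) : 𝓞 K) * A i t - 2 ^ m i * (A0 i t + ((W ^ (2 * k) : ℕ) : 𝓞 K) *
          el (fun j => (((b i t j : Fin (q i)) : ℕ) : ℤ))) = _
        have h9 := hu i t
        have h10 : ((2 ^ m i : ℕ) : 𝓞 K) = 2 ^ m i := by push_cast; rfl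
        rw [h10]
        linear_combination (2 ^ m i : 𝓞 K) * h9
      rw [h4]
      have h5 : ((W ^ (2 * k') : ℕ) : 𝓞 K) =
          2 ^ m i * (((W ^ (2 * k) : ℕ) : 𝓞 K) * ((q i : ℕ) : 𝓞 K)) := by
        have h6 : W ^ (2 * k') = 2 ^ m i * (W ^ (2 * k) * q i) := by
          have h7 : W ^ (2 * k') = W ^ (2 * k) * W ^ (2 * M) := by
            rw [← pow_add, hk']
            congr 1
            ring
          rw [h7, hq i]
          ring
        rw [h6]
        push_cast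
        ring
      rw [h5]
      exact ⟨y, by ring⟩
    · rintro ⟨x, N, hx, hFx, hN, hNp, hNi⟩
      refine h3 ⟨x, N, hx, fun i => ?_, hN, fun P hP hPW j => ?_, hNi⟩
      · have h4 := hFx i
        have h5 : Φ A i = fun t => ((2 ^ m i : ℕ) : 𝓞 K) * A i t := rfl
        rw [h5, F_smul] at h4
        have h6 : ((2 ^ m i : ℕ) : 𝓞 K) ≠ 0 := by
          have : (2 ^ m i : ℕ) ≠ 0 := by positivity
          exact_mod_cast this
        exact (mul_eq_zero.mp h4).resolve_left h6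
      · have h4 := hNp P hP hPW j
        have h5 := (hxq b P hP hPW).2 j
        have h6 : P ^ (k' * vW (primorial w) P) ≤ P ^ (k * vW (primorial w) P) :=
          Ideal.pow_le_pow_right (Nat.mul_le_mul_right _ (by omega))
        have h7 := Ideal.add_mem _ (h6 h4) h5
        have h8 : x j - xq b P j + (xq b P j - xp P j) = x j - xp P j := by ring
        rwa [h8] at h7
  have hcount : (X.ncard : ℝ) ≤ ∑ b : Bt, ((S b (L * H)).ncard : ℝ) := by
    have h1 : X.ncard ≤ ∑ b : Bt, (S b (L * H)).ncard := by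
      rw [← Set.ncard_image_of_injective X hΦinj]
      refine (Set.ncard_le_ncard hsub (Set.finite_iUnion hSfin)).trans ?_
      exact Set.ncard_iUnion_le_of_fintype _
    exact_mod_cast h1
  have hBcard : (Fintype.card Bt : ℝ) = ∏ i, (q i : ℝ) ^ (mK K * NN n (e i)) := by
    have h1 : Fintype.card Bt = ∏ i, (q i) ^ (mK K * NN n (e i)) := by
      show Fintype.card ((i : Fin r) → Idx n (e i) → IK K → Fin (q i)) = _
      rw [Fintype.card_pi]
      refine Finset.prod_congr rfl fun i _ => ?_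
      rw [Fintype.card_fun, Fintype.card_fun, Fintype.card_fin, card_IK, ← pow_mul]
      rfl
    rw [h1]
    push_cast
    rfl
  have hWr : (0 : ℝ) < W := by exact_mod_cast hWp
  refine (hcount.trans (Finset.sum_le_sum fun b _ => hH b)).trans ?_
  rw [Finset.sum_const, Finset.card_univ, nsmul_eq_mul, hBcard]
  have eNS : mK K * NS n e = ∑ i, mK K * NN n (e i) := by
    unfold NS
    rw [Finset.mul_sum]
  have e1 : (2 * rho * (L * H) / (W : ℝ) ^ (2 * k')) ^ (mK K * NS n e) =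
      ∏ i, (2 * rho * (L * H) / (W : ℝ) ^ (2 * k')) ^ (mK K * NN n (e i)) := by
    rw [Finset.prod_pow_eq_pow_sum, eNS]
  have e2 : (2 : ℝ) ^ (mK K * NS n e) = ∏ i, (2 : ℝ) ^ (mK K * NN n (e i)) := by
    rw [Finset.prod_pow_eq_pow_sum, eNS]
  rw [e1, e2]
  have e3 : (∏ i, (q i : ℝ) ^ (mK K * NN n (e i))) *
      (eps / (∏ i, (2 : ℝ) ^ (mK K * NN n (e i))) *
        ∏ i, (2 * rho * (L * H) / (W : ℝ) ^ (2 * k')) ^ (mK K * NN n (e i))) =
      eps * ∏ i, (q i * (2 * rho * (L * H) / (W : ℝ) ^ (2 * k')) / 2) ^ (mK K * NN n (e i)) := by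
    simp only [mul_pow, div_pow _ (2 : ℝ)]
    rw [Finset.prod_div_distrib, Finset.prod_mul_distrib]
    ring
  rw [e3]
  refine mul_le_mul_of_nonneg_left ?_ he.le
  refine Finset.prod_le_prod (fun i _ => by positivity) fun i _ => ?_
  have hli := hlam i
  refine pow_le_pow_left₀ (by positivity) ?_ _
  have h5 : (W : ℝ) ^ (2 * k') = (W : ℝ) ^ (2 * k) * (2 ^ m i * q i) := by
    have h6 : (W : ℝ) ^ (2 * M) = 2 ^ m i * q i := by exact_mod_cast hq i
    rw [← h6, ← pow_add, hk']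
    congr 1
    ring
  have hqr : (0 : ℝ) < q i := by exact_mod_cast hq0 i
  have h6 : (q i : ℝ) * (2 * rho * (L * H) / (W : ℝ) ^ (2 * k')) / 2 =
      (L / 2 ^ m i / 2) * (2 * rho * H / (W : ℝ) ^ (2 * k)) := by
    rw [h5]
    field_simp
  have h7 : 2 * rho * (lam' i * H) / (W : ℝ) ^ (2 * k) =
      lam' i * (2 * rho * H / (W : ℝ) ^ (2 * k)) := by ring
  rw [h6, h7]
  refine mul_le_mul_of_nonneg_right ?_ (by positivity)
  have h8 := hm2 i
  rw [div_lt_iff₀ hli, pow_succ] at h8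
  rw [div_le_iff₀ (by norm_num), div_le_iff₀ (by positivity)]
  linarith

end NKWHP
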